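import Mathlib

set_option autoImplicit false

namespace Pool.Agent.H829R3.BG1

open scoped Pointwise

/-- B. H. Neumann's lemma for an infinite group covered by finitely many sets lying in left cosets,
together with a finite set. -/
theorem neumann {X : Type*} [Group X] [Infinite X] {ι : Type*} (s : Finset ι)
    (H : ι → Subgroup X) (A : ι → Set X)
    (hA : ∀ i ∈ s, ∀ z ∈ A i, ∀ z' ∈ A i, z⁻¹ * z' ∈ H i) (F : Finset X)
    (hc : ∀ z, z ∈ F ∨ ∃ i ∈ s, z ∈ A i) :
    ∃ i ∈ s, (H i).FiniteIndex ∧ (H i).index ≤ s.card + F.card := by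
  classical
  let H' : ι ⊕ X → Subgroup X := fun k => Sum.elim H (fun _ => ⊥) k
  let g' : ι ⊕ X → X := fun k => Sum.elim (fun i => if h : (A i).Nonempty then h.choose else 1) id k
  have hcov : ⋃ k ∈ s.disjSum F, g' k • (H' k : Set X) = Set.univ := by
    rw [Set.eq_univ_iff_forall]
    intro z
    rw [Set.mem_iUnion₂]
    rcases hc z with hz | ⟨i, hi, hz⟩
    · refine ⟨Sum.inr z, by simpa using hz, ?_⟩
      rw [Set.mem_smul_set_iff_inv_smul_mem]
      simp [g', H']
    · refine ⟨Sum.inl i, by simpa using hi, ?_⟩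
      rw [Set.mem_smul_set_iff_inv_smul_mem]
      have hne : (A i).Nonempty := ⟨z, hz⟩
      have : g' (Sum.inl i) = hne.choose := by simp [g', hne]
      rw [this]
      exact hA i hi _ hne.choose_spec _ hz
  obtain ⟨k, hk, hf, hle⟩ := Subgroup.exists_index_le_card_of_leftCoset_cover hcov
  rw [Finset.card_disjSum] at hle
  rcases k with i | z
  · exact ⟨i, by simpa using hk, hf, hle⟩
  · exfalso
    have h1 : (⊥ : Subgroup X).FiniteIndex := hf
    have h2 := h1.index_ne_zero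
    rw [Subgroup.index_bot] at h2
    exact h2 Nat.card_eq_zero_of_infinite

/-- the conjugacy class -/
def cls {X : Type*} [Group X] (h : X) : Set X := Set.range (fun g => g * h * g⁻¹)

section
variable {X : Type*} [Group X]

theorem mem_cls_self (h : X) : h ∈ cls h := ⟨1, by simp⟩

theorem cls_conj (g h : X) : cls (g * h * g⁻¹) = cls h := by
  ext x
  constructor
  · rintro ⟨k, rfl⟩
    exact ⟨k * g, by simp only; group⟩
  · rintro ⟨k, rfl⟩
    exact ⟨k * g⁻¹, by simp only; group⟩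

theorem cls_one : cls (1 : X) = {1} := by
  ext x
  simp [cls, eq_comm]

theorem cls_inv (h : X) : cls h⁻¹ = (cls h)⁻¹ := by
  ext x
  rw [Set.mem_inv]
  constructor
  · rintro ⟨k, rfl⟩
    exact ⟨k, by simp only; group⟩
  · rintro ⟨k, hk⟩
    refine ⟨k, ?_⟩
    rw [← inv_inv x, ← hk]
    group

theorem cls_mul_subset (h k : X) : cls (h * k) ⊆ cls h * cls k := by
  rintro _ ⟨g, rfl⟩
  exact ⟨g * h * g⁻¹, ⟨g, rfl⟩, g * k * g⁻¹, ⟨g, rfl⟩, by simp only; group⟩

theorem finiteIndex_of_map (H : Subgroup X) {Y : Type*} (f : X → Y)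
    (hf : (Set.range f).Finite) (h : ∀ g g', f g = f g' → g⁻¹ * g' ∈ H) : H.FiniteIndex := by
  have : Finite (Set.range f) := hf
  have : Finite (X ⧸ H) := by
    refine Finite.of_injective (fun q : X ⧸ H => (⟨f q.out, ⟨_, rfl⟩⟩ : Set.range f)) ?_
    intro q q' hq
    have h1 : f q.out = f q'.out := congrArg Subtype.val hq
    have h2 := h _ _ h1
    rw [← QuotientGroup.out_eq' q, ← QuotientGroup.out_eq' q']
    exact QuotientGroup.eq.mpr h2
  exact Subgroup.finiteIndex_of_finite_quotient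

theorem finiteIndex_centralizer (h : X) (hf : (cls h).Finite) :
    (Subgroup.centralizer {h}).FiniteIndex := by
  refine finiteIndex_of_map _ (fun g => g * h * g⁻¹) hf ?_
  intro g g' hgg
  rw [Subgroup.mem_centralizer_iff]
  intro k hk
  rw [Set.mem_singleton_iff] at hk
  subst hk
  have h1 : g * k * g⁻¹ = g' * k * g'⁻¹ := hgg
  calc k * (g⁻¹ * g') = g⁻¹ * (g * k * g⁻¹) * g' := by group
    _ = g⁻¹ * (g' * k * g'⁻¹) * g' := by rw [h1]
    _ = g⁻¹ * g' * k := by group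

theorem cls_ncard_le (h : X) (hf : (Subgroup.centralizer {h}).FiniteIndex) :
    (cls h).Finite ∧ (cls h).ncard ≤ (Subgroup.centralizer {h}).index := by
  have : Finite (X ⧸ Subgroup.centralizer {h}) := Subgroup.finite_quotient_of_finiteIndex
  have hsurj : Function.Surjective (fun q : X ⧸ Subgroup.centralizer {h} =>
      (⟨q.out * h * (q.out)⁻¹, ⟨_, rfl⟩⟩ : cls h)) := by
    rintro ⟨_, g, rfl⟩
    refine ⟨(g : X ⧸ Subgroup.centralizer {h}), ?_⟩
    ext1
    have h1 : g⁻¹ * (g : X ⧸ Subgroup.centralizer {h}).out ∈ Subgroup.centralizer {h} := by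
      rw [← QuotientGroup.eq]
      exact (QuotientGroup.out_eq' _).symm
    rw [Subgroup.mem_centralizer_iff] at h1
    have h2 := h1 h rfl
    set o := (g : X ⧸ Subgroup.centralizer {h}).out
    change o * h * o⁻¹ = g * h * g⁻¹
    calc o * h * o⁻¹ = g * (g⁻¹ * o * h) * o⁻¹ := by group
      _ = g * (h * (g⁻¹ * o)) * o⁻¹ := by rw [h2]
      _ = g * h * g⁻¹ := by group
  have hfin : Finite (cls h) := Finite.of_surjective _ hsurj
  refine ⟨hfin, ?_⟩
  rw [← Nat.card_coe_set_eq]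
  exact Nat.card_le_card_of_surjective _ hsurj

end

/-- A group with conjugacy classes of bounded size has finitely many commutators
(B. H. Neumann). -/
theorem bfc {Q : Type*} [Group Q] (B : ℕ) (h : ∀ g : Q, (cls g).Finite ∧ (cls g).ncard ≤ B) :
    (commutatorSet Q).Finite := by
  classical
  -- an element with a largest class
  obtain ⟨a, ha⟩ : ∃ a : Q, ∀ g : Q, (cls g).ncard ≤ (cls a).ncard := by
    have hex : ∃ n, ∃ a : Q, (cls a).ncard = n := ⟨_, 1, rfl⟩
    have hbd : BddAbove {n | ∃ a : Q, (cls a).ncard = n} := ⟨B, by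
      rintro _ ⟨a, rfl⟩
      exact (h a).2⟩
    obtain ⟨a, ha⟩ := Nat.sSup_mem (s := {n | ∃ a : Q, (cls a).ncard = n}) hex hbd
    refine ⟨a, fun g => ?_⟩
    rw [ha]
    exact le_csSup hbd ⟨g, rfl⟩
  have hr : ∀ c : cls a, ∃ r : Q, r * a * r⁻¹ = c := fun c => c.2
  choose r hr using hr
  have hfa : Finite (cls a) := (h a).1
  let D : Subgroup Q := ⨅ c : cls a, Subgroup.centralizer {r c}
  have hD : D.FiniteIndex := Subgroup.finiteIndex_iInf (fun c => finiteIndex_centralizer _ (h _).1)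
  let E : Set Q := cls a * (cls a)⁻¹
  have hE : E.Finite := (h a).1.mul (h a).1.inv
  have key : ∀ x ∈ D, ∀ g : Q, x⁻¹ * (g * x * g⁻¹) ∈ E := by
    intro x hx g
    have hxc : ∀ c : cls a, r c * x = x * r c := by
      intro c
      have h1 : x ∈ Subgroup.centralizer {r c} := (Subgroup.mem_iInf.mp hx) c
      rw [Subgroup.mem_centralizer_iff] at h1
      exact h1 _ rfl
    have hsub : (fun c => x * c) '' cls a ⊆ cls (x * a) := by
      rintro _ ⟨c, hc, rfl⟩
      refine ⟨r ⟨c, hc⟩, ?_⟩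
      have h1 := hxc ⟨c, hc⟩
      have h2 := hr ⟨c, hc⟩
      simp only at h2 ⊢
      calc r ⟨c, hc⟩ * (x * a) * (r ⟨c, hc⟩)⁻¹ = (r ⟨c, hc⟩ * x) * a * (r ⟨c, hc⟩)⁻¹ := by group
        _ = x * (r ⟨c, hc⟩ * a * (r ⟨c, hc⟩)⁻¹) := by rw [h1]; group
        _ = x * c := by rw [h2]
    have hcard : ((fun c => x * c) '' cls a).ncard = (cls a).ncard :=
      Set.ncard_image_of_injective _ (mul_right_injective x)
    have heq : (fun c => x * c) '' cls a = cls (x * a) :=
      Set.eq_of_subset_of_ncard_le hsub (by rw [hcard]; exact ha _) (h _).1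
    have hmem : g * (x * a) * g⁻¹ ∈ cls (x * a) := ⟨g, rfl⟩
    rw [← heq] at hmem
    obtain ⟨c, hc, hc2⟩ := hmem
    refine ⟨c, hc, (g * a * g⁻¹)⁻¹, ?_, ?_⟩
    · rw [Set.mem_inv, inv_inv]
      exact ⟨g, rfl⟩
    · simp only at hc2 ⊢
      have : c = x⁻¹ * (g * (x * a) * g⁻¹) := by rw [← hc2]; group
      rw [this]
      group
  have hfq : Finite (Q ⧸ D) := Subgroup.finite_quotient_of_finiteIndex
  let Tr : Set Q := Set.range (fun q : Q ⧸ D => (q.out)⁻¹)
  have hTr : Tr.Finite := Set.finite_range _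
  have hfin : (⋃ t ∈ Tr, ⋃ c ∈ cls t⁻¹, cls (t * c) * E).Finite := by
    refine hTr.biUnion (fun t _ => ?_)
    refine (h _).1.biUnion (fun c _ => ?_)
    exact (h _).1.mul hE
  refine hfin.subset ?_
  rintro _ ⟨y, g, rfl⟩
  let u : Q := ((y⁻¹ : Q) : Q ⧸ D).out
  have hu : y * u ∈ D := by
    have h1 : y⁻¹⁻¹ * u ∈ D := by
      rw [← QuotientGroup.eq]
      exact (QuotientGroup.out_eq' _).symm
    simpa using h1
  set x := y * u with hx
  have hy : y = x * u⁻¹ := by rw [hx]; group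
  rw [Set.mem_iUnion₂]
  refine ⟨u⁻¹, ⟨_, rfl⟩, ?_⟩
  rw [Set.mem_iUnion₂]
  refine ⟨g * u⁻¹⁻¹ * g⁻¹, ⟨g, rfl⟩, ?_⟩
  refine ⟨x * (u⁻¹ * (g * u⁻¹⁻¹ * g⁻¹)) * x⁻¹, ⟨x, rfl⟩, (x⁻¹)⁻¹ * (g * x⁻¹ * g⁻¹),
    key _ (D.inv_mem hu) g, ?_⟩
  simp only [commutatorElement_def]
  rw [hy]
  group

end Pool.Agent.H829R3.BG1
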