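import Mathlib
import Pool.Agent.H829R3.BG1

set_option autoImplicit false

namespace Pool.Agent.H829R3.BG2

open Pool.Agent.H829R3.BG1
open scoped Pointwise commutatorElement

/-- `X` is the union of finitely many sets `T(x,y)`, `x ≠ y`, and a finite set. -/
def Covered (X : Type*) [Group X] : Prop :=
  ∃ (P : Finset (X × X)) (F : Finset X), (∀ p ∈ P, p.1 ≠ p.2) ∧
    ∀ z : X, z ∈ F ∨ ∃ p ∈ P, p.1 * z⁻¹ = z * p.2⁻¹

section
variable {X : Type*} [Group X]

/-- the FC-centre: the elements with finite conjugacy class -/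
def FC (X : Type*) [Group X] : Subgroup X where
  carrier := {h | (cls h).Finite}
  mul_mem' := by
    intro a b ha hb
    exact (Set.Finite.mul ha hb).subset (cls_mul_subset a b)
  one_mem' := by
    change (cls (1 : X)).Finite
    rw [cls_one]
    exact Set.finite_singleton _
  inv_mem' := by
    intro a ha
    change (cls a⁻¹).Finite
    rw [cls_inv]
    exact Set.Finite.inv ha

theorem mem_FC (h : X) : h ∈ FC X ↔ (cls h).Finite := Iff.rfl

instance : (FC X).Normal := ⟨by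
  intro n hn g
  rw [mem_FC, cls_conj]
  exact hn⟩

/-- the derived subgroup of the FC-centre -/
abbrev D (X : Type*) [Group X] : Subgroup X := ⁅FC X, FC X⁆

/-- the quotient map -/
abbrev q : X →* X ⧸ D X := QuotientGroup.mk' (D X)

theorem q_comm {a b : X} (ha : a ∈ FC X) (hb : b ∈ FC X) :
    (q a : X ⧸ D X) * q b = q b * q a := by
  rw [← map_mul, ← map_mul]
  change ((a * b : X) : X ⧸ D X) = ((b * a : X) : X ⧸ D X)
  rw [QuotientGroup.eq]
  have h : ⁅b⁻¹, a⁻¹⁆ ∈ D X := Subgroup.commutator_mem_commutator (inv_mem hb) (inv_mem ha)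
  rw [commutatorElement_def] at h
  have e : (a * b)⁻¹ * (b * a) = b⁻¹ * a⁻¹ * b⁻¹⁻¹ * a⁻¹⁻¹ := by group
  rw [e]
  exact h

/-- the elements of the FC-centre inverted by `v` modulo the derived subgroup -/
def J (v : X) : Subgroup X where
  carrier := {n | n ∈ FC X ∧ (q v : X ⧸ D X)⁻¹ * q n * q v = (q n)⁻¹}
  mul_mem' := by
    rintro a b ⟨ha, ha'⟩ ⟨hb, hb'⟩
    refine ⟨mul_mem ha hb, ?_⟩
    rw [map_mul]
    calc (q v : X ⧸ D X)⁻¹ * (q a * q b) * q v
        = ((q v)⁻¹ * q a * q v) * ((q v)⁻¹ * q b * q v) := by group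
      _ = (q b * q a)⁻¹ := by rw [ha', hb', mul_inv_rev]
      _ = (q a * q b)⁻¹ := by rw [q_comm hb ha]
  one_mem' := ⟨one_mem _, by simp⟩
  inv_mem' := by
    rintro a ⟨ha, ha'⟩
    refine ⟨inv_mem ha, ?_⟩
    rw [map_inv]
    calc (q v : X ⧸ D X)⁻¹ * (q a)⁻¹ * q v
        = ((q v)⁻¹ * q a * q v)⁻¹ := by group
      _ = (q a)⁻¹⁻¹ := by rw [ha']

theorem J_mul (v m : X) (hm : m ∈ FC X) : J (v * m) = J v := by
  have hconj : ∀ n ∈ FC X, (q (v * m) : X ⧸ D X)⁻¹ * q n * q (v * m) = (q v)⁻¹ * q n * q v := by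
    intro n hn
    have h1 : v⁻¹ * n * v ∈ FC X := by
      have := (inferInstance : (FC X).Normal).conj_mem n hn v⁻¹
      simpa using this
    have h2 := q_comm h1 hm
    rw [map_mul]
    have e : (q (v⁻¹ * n * v) : X ⧸ D X) = (q v)⁻¹ * q n * q v := by simp
    calc (q v * q m : X ⧸ D X)⁻¹ * q n * (q v * q m)
        = (q m)⁻¹ * ((q v)⁻¹ * q n * q v * q m) := by group
      _ = (q m)⁻¹ * (q m * ((q v)⁻¹ * q n * q v)) := by rw [← e, h2]
      _ = (q v)⁻¹ * q n * q v := by group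
  ext n
  constructor
  · rintro ⟨hn, h⟩
    exact ⟨hn, by rw [← hconj n hn]; exact h⟩
  · rintro ⟨hn, h⟩
    exact ⟨hn, by rw [hconj n hn]; exact h⟩

theorem mem_J_spec (v n : X) (h : n ∈ J v) : v⁻¹ * n * v * n ∈ D X := by
  obtain ⟨_, h2⟩ := h
  have : (q (v⁻¹ * n * v * n) : X ⧸ D X) = 1 := by
    rw [map_mul, map_mul, map_mul, map_inv, h2]
    group
  rwa [QuotientGroup.mk'_apply, QuotientGroup.eq_one_iff] at this

/-- **First step**: bounded translates. -/
theorem step1 [Infinite X] (hX : Covered X) :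
    ∃ (T : Finset X) (N : ℕ), ∀ g : X, ∃ t ∈ T, (cls (g⁻¹ * t)).Finite ∧
      (cls (g⁻¹ * t)).ncard ≤ N := by
  classical
  obtain ⟨P, F, hP, hc⟩ := hX
  refine ⟨(P ×ˢ P).image (fun p => p.2.2 * p.1.2⁻¹), (P ×ˢ P).card + 2 * F.card, ?_⟩
  intro g
  let A : (X × X) × (X × X) → Set X := fun p =>
    {z | p.1.1 * z⁻¹ = z * p.1.2⁻¹ ∧ p.2.1 * (g * z)⁻¹ = g * z * p.2.2⁻¹}
  let h : (X × X) × (X × X) → X := fun p => p.1.2⁻¹ * g⁻¹ * p.2.2
  have hA : ∀ p ∈ P ×ˢ P, ∀ z ∈ A p, ∀ z' ∈ A p,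
      z⁻¹ * z' ∈ Subgroup.centralizer {h p} := by
    intro p _ z hz z' hz'
    have key : ∀ z ∈ A p, z * h p * z⁻¹ = p.1.1 * p.2.1⁻¹ * g := by
      rintro z ⟨h1, h2⟩
      have e1 : z⁻¹ = p.1.1⁻¹ * (z * p.1.2⁻¹) := by rw [← h1]; group
      have e2 : p.2.1 * z⁻¹ * g⁻¹ = g * z * p.2.2⁻¹ := by rw [← h2]; group
      rw [e1] at e2
      -- p21 * (p11⁻¹ * (z * p12⁻¹)) * g⁻¹ = g z p22⁻¹
      have e3 : z * p.1.2⁻¹ * g⁻¹ = p.1.1 * p.2.1⁻¹ * (g * z * p.2.2⁻¹) := by
        rw [← e2]; group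
      calc z * h p * z⁻¹ = (z * p.1.2⁻¹ * g⁻¹) * p.2.2 * z⁻¹ := by simp only [h]; group
        _ = p.1.1 * p.2.1⁻¹ * (g * z * p.2.2⁻¹) * p.2.2 * z⁻¹ := by rw [e3]
        _ = p.1.1 * p.2.1⁻¹ * g := by group
    have h1 := key z hz
    have h2 := key z' hz'
    rw [Subgroup.mem_centralizer_iff]
    intro k hk
    rw [Set.mem_singleton_iff] at hk
    subst hk
    calc h p * (z⁻¹ * z') = z⁻¹ * (z * h p * z⁻¹) * z' := by group
      _ = z⁻¹ * (z' * h p * z'⁻¹) * z' := by rw [h1, h2]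
      _ = z⁻¹ * z' * h p := by group
  obtain ⟨p, hp, hf, hle⟩ := neumann (P ×ˢ P) (fun p => Subgroup.centralizer {h p}) A hA
    (F ∪ F.image (fun z => g⁻¹ * z)) (by
      intro z
      rcases hc z with hz | ⟨p, hp, hz⟩
      · left; exact Finset.mem_union_left _ hz
      · rcases hc (g * z) with hz' | ⟨p', hp', hz'⟩
        · left
          refine Finset.mem_union_right _ (Finset.mem_image.mpr ⟨g * z, hz', by group⟩)
        · right
          exact ⟨(p, p'), Finset.mk_mem_product hp hp', hz, hz'⟩)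
  refine ⟨p.2.2 * p.1.2⁻¹, Finset.mem_image.mpr ⟨p, hp, rfl⟩, ?_⟩
  have e : cls (g⁻¹ * (p.2.2 * p.1.2⁻¹)) = cls (h p) := by
    rw [← cls_conj (p.1.2⁻¹) (g⁻¹ * (p.2.2 * p.1.2⁻¹))]
    congr 1
    simp only [h]
    group
  rw [e]
  obtain ⟨h1, h2⟩ := cls_ncard_le (h p) hf
  refine ⟨h1, h2.trans (hle.trans ?_)⟩
  have h3 : (F ∪ F.image (fun z => g⁻¹ * z)).card ≤ F.card + F.card :=
    (Finset.card_union_le _ _).trans (Nat.add_le_add_left Finset.card_image_le _)
  omega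

theorem FC_finiteIndex [Infinite X] (hX : Covered X) : (FC X).FiniteIndex := by
  obtain ⟨T, N, h⟩ := step1 hX
  have : Finite (X ⧸ FC X) := by
    refine Finite.of_surjective (fun t : T => ((t : X) : X ⧸ FC X)) ?_
    intro x
    obtain ⟨g, rfl⟩ := QuotientGroup.mk_surjective x
    obtain ⟨t, ht, hf, _⟩ := h g
    refine ⟨⟨t, ht⟩, ?_⟩
    exact (QuotientGroup.eq.mpr hf).symm
  exact Subgroup.finiteIndex_of_finite_quotient

theorem FC_bounded [Infinite X] (hX : Covered X) :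
    ∃ B : ℕ, ∀ g ∈ FC X, (cls g).ncard ≤ B := by
  classical
  obtain ⟨T, N, h⟩ := step1 hX
  refine ⟨∑ t ∈ T, (cls t).ncard * N, ?_⟩
  intro g hg
  obtain ⟨t, ht, hf, hN⟩ := h g
  have htF : t ∈ FC X := by
    have : g * (g⁻¹ * t) ∈ FC X := mul_mem hg hf
    simpa using this
  have h1 : cls g ⊆ cls t * (cls (g⁻¹ * t))⁻¹ := by
    have := cls_mul_subset t (g⁻¹ * t)⁻¹
    rw [cls_inv] at this
    have e : t * (g⁻¹ * t)⁻¹ = g := by group
    rwa [e] at this
  have h2 : (cls g).ncard ≤ (cls t * (cls (g⁻¹ * t))⁻¹).ncard :=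
    Set.ncard_le_ncard h1 (Set.Finite.mul htF (Set.Finite.inv hf))
  have h3 : (cls t * (cls (g⁻¹ * t))⁻¹).ncard ≤ (cls t).ncard * N := by
    have h4 : (cls t * (cls (g⁻¹ * t))⁻¹).ncard ≤
        (cls t).ncard * ((cls (g⁻¹ * t))⁻¹).ncard := by
      have := Set.natCard_mul_le (s := cls t) (t := (cls (g⁻¹ * t))⁻¹)
      simpa [Nat.card_coe_set_eq] using this
    refine h4.trans (Nat.mul_le_mul_left _ ?_)
    have h5 : ((cls (g⁻¹ * t))⁻¹).ncard = (cls (g⁻¹ * t)).ncard := by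
      rw [← Set.image_inv_eq_inv]
      exact Set.ncard_image_of_injective _ inv_injective
    rw [h5]
    exact hN
  refine h2.trans (h3.trans ?_)
  exact Finset.single_le_sum (f := fun t => (cls t).ncard * N) (fun _ _ => Nat.zero_le _) ht

theorem D_finite [Infinite X] (hX : Covered X) : Finite (D X) := by
  obtain ⟨B, hB⟩ := FC_bounded hX
  have h : ∀ g : FC X, (cls g).Finite ∧ (cls g).ncard ≤ B := by
    intro g
    have hsub : Subtype.val '' (cls g) ⊆ cls (g : X) := by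
      rintro _ ⟨_, ⟨k, rfl⟩, rfl⟩
      exact ⟨k, by simp⟩
    have h1 : (cls (g : X)).Finite := g.2
    have h2 : (Subtype.val '' (cls g)).Finite := h1.subset hsub
    refine ⟨h2.of_finite_image Subtype.val_injective.injOn, ?_⟩
    rw [← Set.ncard_image_of_injective (cls g) Subtype.val_injective]
    exact (Set.ncard_le_ncard hsub h1).trans (hB _ g.2)
  have h2 := bfc B h
  have : Finite (commutatorSet (FC X)) := h2
  have h3 : Finite (commutator (FC X)) := inferInstance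
  have e : D X = (commutator (FC X)).map (FC X).subtype := (Subgroup.map_subtype_commutator _).symm
  rw [e]
  have : Finite ((commutator (FC X)).map (FC X).subtype) := by
    have := (Set.toFinite ((commutator (FC X) : Subgroup (FC X)) : Set (FC X))).image
      (FC X).subtype
    exact this
  exact this

end

end Pool.Agent.H829R3.BG2
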