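import Mathlib
import Pool.Agent.H829R3.BG2

set_option autoImplicit false

namespace Pool.Agent.H829R3.BG3

open Pool.Agent.H829R3.BG1 Pool.Agent.H829R3.BG2
open scoped Pointwise commutatorElement

variable {X : Type*} [Group X]

/-- **Second step**: an element `v` with `v² ≠ 1` inverting a subgroup of finite index of the
FC-centre modulo its derived subgroup. -/
theorem inverting [Infinite X] (hX : Covered X) : ∃ v : X, v ^ 2 ≠ 1 ∧ (J v).FiniteIndex := by
  classical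
  have hfi := FC_finiteIndex hX
  obtain ⟨P, F, hP, hc⟩ := hX
  have hfq : Finite (X ⧸ FC X) := Subgroup.finite_quotient_of_finiteIndex
  have : Fintype (X ⧸ FC X) := Fintype.ofFinite _
  let A : (X × X) × (X ⧸ FC X) → Set X := fun p =>
    {z | p.1.1 * z⁻¹ = z * p.1.2⁻¹ ∧ ((z : X) : X ⧸ FC X) = p.2}
  let H : (X × X) × (X ⧸ FC X) → Subgroup X := fun p =>
    if h : (A p).Nonempty then J (p.1.2⁻¹ * h.choose) else ⊥
  have hA : ∀ p ∈ P ×ˢ (Finset.univ : Finset (X ⧸ FC X)), ∀ z ∈ A p, ∀ z' ∈ A p,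
      z⁻¹ * z' ∈ H p := by
    intro p _ z hz z' hz'
    have hne : (A p).Nonempty := ⟨z, hz⟩
    have hH : H p = J (p.1.2⁻¹ * hne.choose) := by simp only [H, dif_pos hne]
    have hz0 := hne.choose_spec
    set z0 := hne.choose
    have hn : z⁻¹ * z' ∈ FC X := by
      rw [← QuotientGroup.eq]
      rw [hz.2, hz'.2]
    have hm : z0⁻¹ * z ∈ FC X := by
      rw [← QuotientGroup.eq]
      rw [hz0.2, hz.2]
    have hJ : J (p.1.2⁻¹ * z0) = J (p.1.2⁻¹ * z) := by
      rw [← J_mul (p.1.2⁻¹ * z0) (z0⁻¹ * z) hm]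
      congr 1
      group
    rw [hH, hJ]
    refine ⟨hn, ?_⟩
    have e1 : p.1.1 = z * p.1.2⁻¹ * z := by
      have := hz.1
      rw [← this]; group
    have e2 : p.1.1 = z' * p.1.2⁻¹ * z' := by
      have := hz'.1
      rw [← this]; group
    have e3 : (p.1.2⁻¹ * z)⁻¹ * (z⁻¹ * z') * (p.1.2⁻¹ * z) = (z⁻¹ * z')⁻¹ := by
      have e4 : z' * p.1.2⁻¹ * z' = z * p.1.2⁻¹ * z := by rw [← e1, ← e2]
      calc (p.1.2⁻¹ * z)⁻¹ * (z⁻¹ * z') * (p.1.2⁻¹ * z)
          = z⁻¹ * p.1.2 * z⁻¹ * (z' * p.1.2⁻¹ * z') * (z'⁻¹ * z) := by group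
        _ = z⁻¹ * p.1.2 * z⁻¹ * (z * p.1.2⁻¹ * z) * (z'⁻¹ * z) := by rw [e4]
        _ = (z⁻¹ * z')⁻¹ := by group
    have e5 := congrArg (fun x => (q x : X ⧸ D X)) e3
    simp only [map_mul, map_inv] at e5
    simp only [map_mul, map_inv]
    exact e5
  obtain ⟨p, hp, hf, _⟩ := neumann (P ×ˢ (Finset.univ : Finset (X ⧸ FC X))) H A hA F (by
    intro z
    rcases hc z with hz | ⟨p, hp, hz⟩
    · exact Or.inl hz
    · right
      exact ⟨(p, ((z : X) : X ⧸ FC X)), Finset.mk_mem_product hp (Finset.mem_univ _), hz, rfl⟩)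
  have hne : (A p).Nonempty := by
    by_contra hne
    have hH : H p = ⊥ := by simp only [H, dif_neg hne]
    rw [hH] at hf
    have h2 := hf.index_ne_zero
    rw [Subgroup.index_bot] at h2
    exact h2 Nat.card_eq_zero_of_infinite
  have hH : H p = J (p.1.2⁻¹ * hne.choose) := by simp only [H, dif_pos hne]
  have hz0 := hne.choose_spec
  set z0 := hne.choose
  rw [hH] at hf
  refine ⟨p.1.2⁻¹ * z0, ?_, hf⟩
  intro h
  have hpP : p.1 ∈ P := (Finset.mem_product.mp hp).1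
  apply hP p.1 hpP
  have e1 : p.1.1 = z0 * p.1.2⁻¹ * z0 := by
    have := hz0.1
    rw [← this]; group
  have e2 : (p.1.2⁻¹ * z0) ^ 2 = p.1.2⁻¹ * p.1.1 := by
    rw [e1, sq]; simp only [mul_assoc]
  rw [e2] at h
  have := inv_mul_eq_one.mp h
  exact this.symm

theorem finOrder [Infinite X] (hX : Covered X) (v : X) (hv : (J v).FiniteIndex) :
    IsOfFinOrder v := by
  have hD := D_finite hX
  obtain ⟨k, hk0, _, hk⟩ := Subgroup.exists_pow_mem_of_index_ne_zero hv.index_ne_zero v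
  have h1 := mem_J_spec v (v ^ k) hk
  have e : v⁻¹ * v ^ k * v * v ^ k = v ^ (2 * k) := by group
  rw [e] at h1
  have h2 : IsOfFinOrder (⟨v ^ (2 * k), h1⟩ : D X) := isOfFinOrder_of_finite _
  have h3 : IsOfFinOrder (v ^ (2 * k)) := by
    have := (D X).subtype.isOfFinOrder h2
    exact this
  exact h3.of_pow (by omega)

end Pool.Agent.H829R3.BG3
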