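import Mathlib
import Pool.Agent.H829R3.BG2

set_option autoImplicit false

namespace Pool.Agent.H829R3.BG4

open Pool.Agent.H829R3.BG2

/-! ### A connection set with the extension property -/

section conn
variable {X : Type} [Group X]

/-- finite symmetric partial connection sets -/
structure Cond (X : Type) [Group X] where
  pos : Finset X
  neg : Finset X
  disj : ∀ x ∈ pos, x ∉ neg
  psymm : ∀ x ∈ pos, x⁻¹ ∈ pos
  nsymm : ∀ x ∈ neg, x⁻¹ ∈ neg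
  one : (1 : X) ∉ pos

instance : Preorder (Cond X) where
  le a b := a.pos ⊆ b.pos ∧ a.neg ⊆ b.neg
  le_refl a := ⟨fun _ h => h, fun _ h => h⟩
  le_trans a b c h1 h2 := ⟨h1.1.trans h2.1, h1.2.trans h2.2⟩

def trivialCond : Cond X :=
  ⟨∅, ∅, by simp, by simp, by simp, by simp⟩

theorem exists_ext [Infinite X] (hX : ¬ Covered X) (c : Cond X) (U V : Finset X)
    (hUV : ∀ u ∈ U, u ∉ V) :
    ∃ d : Cond X, c ≤ d ∧ ∃ z : X, z ∉ U ∧ z ∉ V ∧ (∀ u ∈ U, u * z⁻¹ ∈ d.pos) ∧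
      (∀ v ∈ V, v * z⁻¹ ∈ d.neg) := by
  classical
  have hex : ∃ z : X, z ∉ U ∧ z ∉ V ∧ (∀ u ∈ U, u * z⁻¹ ∉ c.neg) ∧ (∀ v ∈ V, v * z⁻¹ ∉ c.pos) ∧
      ∀ u ∈ U, ∀ v ∈ V, u * z⁻¹ ≠ z * v⁻¹ := by
    by_contra hcon
    push Not at hcon
    apply hX
    refine ⟨U ×ˢ V, U ∪ V ∪ Finset.image₂ (fun u n => n⁻¹ * u) U c.neg ∪
      Finset.image₂ (fun v n => n⁻¹ * v) V c.pos, ?_, ?_⟩
    · rintro ⟨u, v⟩ hp huv
      have huv' : u = v := huv
      subst huv'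
      have h := Finset.mem_product.mp hp
      exact hUV _ h.1 h.2
    · intro z
      by_cases h1 : z ∈ U
      · left; simp [h1]
      by_cases h2 : z ∈ V
      · left; simp [h2]
      by_cases h3 : ∃ u ∈ U, u * z⁻¹ ∈ c.neg
      · obtain ⟨u, hu, hn⟩ := h3
        left
        refine Finset.mem_union_left _ (Finset.mem_union_right _ ?_)
        exact Finset.mem_image₂.mpr ⟨u, hu, _, hn, by group⟩
      by_cases h4 : ∃ v ∈ V, v * z⁻¹ ∈ c.pos
      · obtain ⟨v, hv, hn⟩ := h4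
        left
        refine Finset.mem_union_right _ ?_
        exact Finset.mem_image₂.mpr ⟨v, hv, _, hn, by group⟩
      push Not at h3 h4
      obtain ⟨u, hu, v, hv, h5⟩ := hcon z h1 h2 h3 h4
      right
      exact ⟨(u, v), Finset.mk_mem_product hu hv, h5⟩
  obtain ⟨z, hzU, hzV, h1, h2, h3⟩ := hex
  let PU : Finset X := U.image (fun u => u * z⁻¹)
  let NV : Finset X := V.image (fun v => v * z⁻¹)
  refine ⟨⟨c.pos ∪ PU ∪ PU.image (·⁻¹), c.neg ∪ NV ∪ NV.image (·⁻¹), ?_, ?_, ?_, ?_⟩, ⟨?_, ?_⟩,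
    z, hzU, hzV, ?_, ?_⟩
  · intro x hx hy
    simp only [Finset.mem_union, Finset.mem_image, PU, NV] at hx hy
    have a1 : ∀ u ∈ U, (u * z⁻¹)⁻¹ ∉ c.neg := fun u hu h => by
      have := c.nsymm _ h
      rw [inv_inv] at this
      exact h1 u hu this
    have a2 : ∀ v ∈ V, (v * z⁻¹)⁻¹ ∉ c.pos := fun u hu h => by
      have := c.psymm _ h
      rw [inv_inv] at this
      exact h2 u hu this
    have a3 : ∀ u ∈ U, ∀ v ∈ V, u * z⁻¹ ≠ v * z⁻¹ := by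
      intro u hu v hv h
      have : u = v := mul_right_cancel h
      exact hUV u hu (this ▸ hv)
    have a4 : ∀ u ∈ U, ∀ v ∈ V, u * z⁻¹ ≠ (v * z⁻¹)⁻¹ := by
      intro u hu v hv h
      apply h3 u hu v hv
      rw [h]; group
    rcases hx with (hx | ⟨u, hu, rfl⟩) | ⟨_, ⟨u, hu, rfl⟩, rfl⟩
    · rcases hy with (hy | ⟨v, hv, rfl⟩) | ⟨_, ⟨v, hv, rfl⟩, rfl⟩
      · exact c.disj _ hx hy
      · exact h2 v hv hx
      · exact a2 v hv hx
    · rcases hy with (hy | ⟨v, hv, hvv⟩) | ⟨_, ⟨v, hv, rfl⟩, hvv⟩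
      · exact h1 u hu hy
      · exact a3 u hu v hv hvv.symm
      · exact a4 u hu v hv hvv.symm
    · rcases hy with (hy | ⟨v, hv, hvv⟩) | ⟨_, ⟨v, hv, rfl⟩, hvv⟩
      · exact a1 u hu hy
      · apply a4 u hu v hv
        rw [hvv, inv_inv]
      · exact a3 u hu v hv (inv_injective hvv).symm
  · intro x hx
    simp only [Finset.mem_union, Finset.mem_image] at hx ⊢
    rcases hx with (hx | hx) | ⟨y, hy, rfl⟩
    · exact Or.inl (Or.inl (c.psymm _ hx))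
    · exact Or.inr ⟨x, hx, rfl⟩
    · rw [inv_inv]; exact Or.inl (Or.inr hy)
  · intro x hx
    simp only [Finset.mem_union, Finset.mem_image] at hx ⊢
    rcases hx with (hx | hx) | ⟨y, hy, rfl⟩
    · exact Or.inl (Or.inl (c.nsymm _ hx))
    · exact Or.inr ⟨x, hx, rfl⟩
    · rw [inv_inv]; exact Or.inl (Or.inr hy)
  · intro h
    simp only [Finset.mem_union, Finset.mem_image, PU] at h
    rcases h with (h | ⟨u, hu, h⟩) | ⟨_, ⟨u, hu, rfl⟩, h⟩
    · exact c.one h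
    · exact hzU (mul_inv_eq_one.mp h ▸ hu)
    · rw [inv_eq_one] at h
      exact hzU (mul_inv_eq_one.mp h ▸ hu)
  · intro x hx
    simp [hx]
  · intro x hx
    simp [hx]
  · intro u hu
    simp only [Finset.mem_union, Finset.mem_image, PU]
    exact Or.inl (Or.inr ⟨u, hu, rfl⟩)
  · intro v hv
    simp only [Finset.mem_union, Finset.mem_image, NV]
    exact Or.inl (Or.inr ⟨v, hv, rfl⟩)

/-- a symmetric connection set whose Cayley graph has the extension property -/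
theorem exists_conn [Infinite X] [Countable X] (hX : ¬ Covered X) :
    ∃ S : Set X, (∀ x ∈ S, x⁻¹ ∈ S) ∧ (1 : X) ∉ S ∧
      ∀ U V : Finset X, (∀ u ∈ U, u ∉ V) →
        ∃ z : X, z ∉ U ∧ z ∉ V ∧ (∀ u ∈ U, u * z⁻¹ ∈ S) ∧ ∀ v ∈ V, v * z⁻¹ ∉ S := by
  classical
  have : Encodable X := (nonempty_encodable X).some
  let I := {p : Finset X × Finset X // ∀ u ∈ p.1, u ∉ p.2}
  let 𝒟 : I → Order.Cofinal (Cond X) := fun p =>
    { carrier := {d | ∃ z : X, z ∉ p.1.1 ∧ z ∉ p.1.2 ∧ (∀ u ∈ p.1.1, u * z⁻¹ ∈ d.pos) ∧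
        (∀ v ∈ p.1.2, v * z⁻¹ ∈ d.neg)}
      isCofinal := by
        intro c
        obtain ⟨d, hcd, hz⟩ := exists_ext hX c p.1.1 p.1.2 p.2
        exact ⟨d, hz, hcd⟩ }
  have : Encodable I := (nonempty_encodable I).some
  let 𝓘 := Order.idealOfCofinals (trivialCond : Cond X) 𝒟
  refine ⟨{x | ∃ d ∈ 𝓘, x ∈ d.pos}, ?_, ?_, ?_⟩
  · rintro x ⟨d, hd, hx⟩
    exact ⟨d, hd, d.psymm _ hx⟩
  · rintro ⟨d, _, hx⟩
    exact d.one hx
  · intro U V hUV
    obtain ⟨d, ⟨z, h1, h2, h3, h4⟩, hd⟩ := Order.cofinal_meets_idealOfCofinals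
      (trivialCond : Cond X) 𝒟 ⟨(U, V), hUV⟩
    refine ⟨z, h1, h2, fun u hu => ⟨d, hd, h3 u hu⟩, ?_⟩
    rintro v hv ⟨d', hd', hp⟩
    obtain ⟨m, _, hm1, hm2⟩ := 𝓘.directed _ hd _ hd'
    exact m.disj _ (hm2.1 hp) (hm1.2 (h4 v hv))

end conn

end Pool.Agent.H829R3.BG4
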