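import Mathlib
import Pool.Agent.H829R3.BG4
import Pool.Agent.Results.MP_291637_al.NotBGroup

set_option autoImplicit false

namespace Pool.Agent.H829R3.BG5

open Pool.Agent.H829R3.BG2 Pool.Agent.H829R3.BG4
open Pool.Agent.Results.MP_291637_al.NotBGroup (IsBGroup)
open MulAction
open scoped Pointwise

/-! ### Homogeneity of graphs with the extension property -/

section graph
variable {X : Type} (adj : X → X → Prop)

/-- the extension property -/
def Ext : Prop := ∀ U V : Finset X, (∀ u ∈ U, u ∉ V) →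
  ∃ z : X, z ∉ U ∧ z ∉ V ∧ (∀ u ∈ U, adj u z) ∧ ∀ v ∈ V, ¬ adj v z

/-- finite partial isomorphisms -/
structure PIso where
  f : Finset (X × X)
  inj : ∀ p ∈ f, ∀ q ∈ f, (p.1 = q.1 ↔ p.2 = q.2)
  iso : ∀ p ∈ f, ∀ q ∈ f, (adj p.1 q.1 ↔ adj p.2 q.2)

instance : Preorder (PIso adj) where
  le a b := a.f ⊆ b.f
  le_refl a := fun _ h => h
  le_trans a b c h1 h2 := h1.trans h2

variable {adj}

theorem left (hE : Ext adj) (hs : ∀ x y, adj x y → adj y x) (hir : ∀ x, ¬ adj x x)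
    (c : PIso adj) (a : X) : ∃ d : PIso adj, c ≤ d ∧ ∃ b, (a, b) ∈ d.f := by
  classical
  by_cases ha : ∃ b, (a, b) ∈ c.f
  · exact ⟨c, le_refl c, ha⟩
  push Not at ha
  obtain ⟨z, hzU, hzV, h1, h2⟩ := hE ((c.f.filter (fun p => adj p.1 a)).image Prod.snd)
    ((c.f.filter (fun p => ¬ adj p.1 a)).image Prod.snd) (by
      intro u hu hv
      simp only [Finset.mem_image, Finset.mem_filter] at hu hv
      obtain ⟨p, ⟨hp, hpa⟩, rfl⟩ := hu
      obtain ⟨p', ⟨hp', hpa'⟩, h⟩ := hv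
      have := (c.inj p' hp' p hp).mpr h
      rw [this] at hpa'
      exact hpa' hpa)
  have hz : ∀ p ∈ c.f, p.2 ≠ z := by
    intro p hp h
    by_cases hpa : adj p.1 a
    · exact hzU (Finset.mem_image.mpr ⟨p, Finset.mem_filter.mpr ⟨hp, hpa⟩, h⟩)
    · exact hzV (Finset.mem_image.mpr ⟨p, Finset.mem_filter.mpr ⟨hp, hpa⟩, h⟩)
  have hne : ∀ p ∈ c.f, p.1 ≠ a := by
    intro p hp h
    apply ha p.2
    rw [← h]
    exact hp
  have hadj : ∀ p ∈ c.f, (adj p.1 a ↔ adj p.2 z) := by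
    intro p hp
    by_cases hpa : adj p.1 a
    · exact iff_of_true hpa (h1 _ (Finset.mem_image.mpr ⟨p, Finset.mem_filter.mpr ⟨hp, hpa⟩, rfl⟩))
    · exact iff_of_false hpa
        (h2 _ (Finset.mem_image.mpr ⟨p, Finset.mem_filter.mpr ⟨hp, hpa⟩, rfl⟩))
  refine ⟨⟨insert (a, z) c.f, ?_, ?_⟩, Finset.subset_insert _ _, z, Finset.mem_insert_self _ _⟩
  · intro p hp p' hp'
    rw [Finset.mem_insert] at hp hp'
    rcases hp with rfl | hp <;> rcases hp' with rfl | hp'
    · simp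
    · exact iff_of_false (fun h => hne p' hp' h.symm) (fun h => hz p' hp' h.symm)
    · exact iff_of_false (fun h => hne p hp h) (fun h => hz p hp h)
    · exact c.inj p hp p' hp'
  · intro p hp p' hp'
    rw [Finset.mem_insert] at hp hp'
    rcases hp with rfl | hp <;> rcases hp' with rfl | hp'
    · exact iff_of_false (hir _) (hir _)
    · exact ⟨fun h => hs _ _ ((hadj p' hp').mp (hs _ _ h)),
        fun h => hs _ _ ((hadj p' hp').mpr (hs _ _ h))⟩
    · exact hadj p hp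
    · exact c.iso p hp p' hp'

/-- the inverse partial isomorphism -/
def PIso.inv (c : PIso adj) [DecidableEq X] : PIso adj where
  f := c.f.image Prod.swap
  inj := by
    intro p hp q hq
    obtain ⟨p', hp', rfl⟩ := Finset.mem_image.mp hp
    obtain ⟨q', hq', rfl⟩ := Finset.mem_image.mp hq
    exact (c.inj p' hp' q' hq').symm
  iso := by
    intro p hp q hq
    obtain ⟨p', hp', rfl⟩ := Finset.mem_image.mp hp
    obtain ⟨q', hq', rfl⟩ := Finset.mem_image.mp hq
    exact (c.iso p' hp' q' hq').symm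

theorem right (hE : Ext adj) (hs : ∀ x y, adj x y → adj y x) (hir : ∀ x, ¬ adj x x)
    (c : PIso adj) (b : X) : ∃ d : PIso adj, c ≤ d ∧ ∃ a, (a, b) ∈ d.f := by
  classical
  obtain ⟨d, hd, a, ha⟩ := left hE hs hir c.inv b
  refine ⟨d.inv, ?_, a, Finset.mem_image.mpr ⟨(b, a), ha, rfl⟩⟩
  intro p hp
  have h1 : p.swap ∈ c.inv.f := Finset.mem_image.mpr ⟨p, hp, rfl⟩
  exact Finset.mem_image.mpr ⟨p.swap, hd h1, Prod.swap_swap p⟩

/-- every finite partial isomorphism extends to an automorphism -/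
theorem extend [Countable X] (hE : Ext adj) (hs : ∀ x y, adj x y → adj y x)
    (hir : ∀ x, ¬ adj x x) (c : PIso adj) :
    ∃ σ : Equiv.Perm X, (∀ x y, adj (σ x) (σ y) ↔ adj x y) ∧ ∀ p ∈ c.f, σ p.1 = p.2 := by
  classical
  have : Encodable X := (nonempty_encodable X).some
  let 𝒟 : X ⊕ X → Order.Cofinal (PIso adj) := fun s => Sum.recOn s
    (fun a => { carrier := {d | ∃ b, (a, b) ∈ d.f}
                isCofinal := fun c => by
                  obtain ⟨d, h1, h2⟩ := left hE hs hir c a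
                  exact ⟨d, h2, h1⟩ })
    (fun b => { carrier := {d | ∃ a, (a, b) ∈ d.f}
                isCofinal := fun c => by
                  obtain ⟨d, h1, h2⟩ := right hE hs hir c b
                  exact ⟨d, h2, h1⟩ })
  let 𝓘 := Order.idealOfCofinals c 𝒟
  have hF : ∀ a, ∃ b, ∃ d ∈ 𝓘, (a, b) ∈ d.f := by
    intro a
    obtain ⟨d, ⟨b, hb⟩, hd⟩ := Order.cofinal_meets_idealOfCofinals c 𝒟 (Sum.inl a)
    exact ⟨b, d, hd, hb⟩
  have hG : ∀ b, ∃ a, ∃ d ∈ 𝓘, (a, b) ∈ d.f := by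
    intro b
    obtain ⟨d, ⟨a, ha⟩, hd⟩ := Order.cofinal_meets_idealOfCofinals c 𝒟 (Sum.inr b)
    exact ⟨a, d, hd, ha⟩
  choose F hF using hF
  choose G hG using hG
  have key : ∀ p q : X × X, (∃ d ∈ 𝓘, p ∈ d.f) → (∃ d ∈ 𝓘, q ∈ d.f) →
      (p.1 = q.1 ↔ p.2 = q.2) ∧ (adj p.1 q.1 ↔ adj p.2 q.2) := by
    rintro p q ⟨d, hd, hp⟩ ⟨d', hd', hq⟩
    obtain ⟨m, _, h1, h2⟩ := 𝓘.directed _ hd _ hd'
    exact ⟨m.inj _ (h1 hp) _ (h2 hq), m.iso _ (h1 hp) _ (h2 hq)⟩
  have hGF : ∀ a, G (F a) = a := fun a =>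
    ((key (G (F a), F a) (a, F a) (hG _) (hF _)).1.mpr rfl)
  have hFG : ∀ b, F (G b) = b := fun b =>
    ((key (G b, F (G b)) (G b, b) (hF _) (hG _)).1.mp rfl)
  refine ⟨⟨F, G, hGF, hFG⟩, ?_, ?_⟩
  · intro x y
    exact ((key (x, F x) (y, F y) (hF _) (hF _)).2).symm
  · intro p hp
    have hc : c ∈ 𝓘 := Order.mem_idealOfCofinals c 𝒟
    exact (key (p.1, F p.1) p (hF _) ⟨c, hc, hp⟩).1.mp rfl

theorem two_point [Countable X] (hE : Ext adj) (hs : ∀ x y, adj x y → adj y x)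
    (hir : ∀ x, ¬ adj x x) {x y x' y' : X} (hxy : x ≠ y) (hxy' : x' ≠ y')
    (h : adj x y ↔ adj x' y') :
    ∃ σ : Equiv.Perm X, (∀ x y, adj (σ x) (σ y) ↔ adj x y) ∧ σ x = x' ∧ σ y = y' := by
  classical
  have h' : adj y x ↔ adj y' x' :=
    ⟨fun k => hs _ _ (h.mp (hs _ _ k)), fun k => hs _ _ (h.mpr (hs _ _ k))⟩
  let c : PIso adj :=
    { f := {(x, x'), (y, y')}
      inj := by
        intro p hp q hq
        simp only [Finset.mem_insert, Finset.mem_singleton] at hp hq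
        rcases hp with rfl | rfl <;> rcases hq with rfl | rfl
        · simp
        · exact iff_of_false hxy hxy'
        · exact iff_of_false hxy.symm hxy'.symm
        · simp
      iso := by
        intro p hp q hq
        simp only [Finset.mem_insert, Finset.mem_singleton] at hp hq
        rcases hp with rfl | rfl <;> rcases hq with rfl | rfl
        · exact iff_of_false (hir _) (hir _)
        · exact h
        · exact h'
        · exact iff_of_false (hir _) (hir _) }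
  obtain ⟨σ, h1, h2⟩ := extend hE hs hir c
  exact ⟨σ, h1, h2 (x, x') (by simp [c]), h2 (y, y') (by simp [c])⟩

/-- the automorphism group -/
def Aut (adj : X → X → Prop) : Subgroup (Equiv.Perm X) where
  carrier := {σ | ∀ x y, adj (σ x) (σ y) ↔ adj x y}
  mul_mem' := by
    intro a b ha hb x y
    simp only [Set.mem_ofPred_eq] at ha hb ⊢
    rw [Equiv.Perm.mul_apply, Equiv.Perm.mul_apply, ha, hb]
  one_mem' := by intro x y; simp
  inv_mem' := by
    intro a ha x y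
    simp only [Set.mem_ofPred_eq] at ha ⊢
    rw [← ha]
    simp

theorem mem_Aut (σ : Equiv.Perm X) : σ ∈ Aut adj ↔ ∀ x y, adj (σ x) (σ y) ↔ adj x y := Iff.rfl

theorem connect [Countable X] (hE : Ext adj) (hs : ∀ x y, adj x y → adj y x)
    (hir : ∀ x, ¬ adj x x) (R : X → X → Prop) (Rs : ∀ x y, R x y → R y x)
    (Rt : ∀ x y z, R x y → R y z → R x z)
    (Rinv : ∀ σ ∈ Aut adj, ∀ x y, R x y → R (σ x) (σ y)) (x y : X) (hxy : x ≠ y) (h : R x y) :
    ∀ u v, R u v := by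
  classical
  have hrefl : ∀ u, R u u := by
    intro u
    obtain ⟨z, hz, _⟩ := hE {u} ∅ (by simp)
    -- a pair (u, w) of the same kind as (x, y)
    have : ∃ w, w ≠ u ∧ (adj x y ↔ adj u w) := by
      by_cases hxy2 : adj x y
      · obtain ⟨z, h1, h2, h3, h4⟩ := hE {u} ∅ (by simp)
        exact ⟨z, by simpa using h1, iff_of_true hxy2 (h3 u (by simp))⟩
      · obtain ⟨z, h1, h2, h3, h4⟩ := hE ∅ {u} (by simp)
        exact ⟨z, by simpa using h2, iff_of_false hxy2 (h4 u (by simp))⟩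
    obtain ⟨w, hw, hw2⟩ := this
    obtain ⟨σ, h1, h2, h3⟩ := two_point hE hs hir hxy hw.symm hw2
    have h4 := Rinv σ h1 _ _ h
    rw [h2, h3] at h4
    exact Rt _ _ _ h4 (Rs _ _ h4)
  have same : ∀ u v, u ≠ v → (adj x y ↔ adj u v) → R u v := by
    intro u v huv hadj
    obtain ⟨σ, h1, h2, h3⟩ := two_point hE hs hir hxy huv hadj
    have h4 := Rinv σ h1 _ _ h
    rwa [h2, h3] at h4
  intro u v
  by_cases huv : u = v
  · subst huv; exact hrefl u
  by_cases hxy2 : adj x y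
  · obtain ⟨z, h1, h2, h3, h4⟩ := hE {u, v} ∅ (by simp)
    have hu : R u z := same u z (fun h => h1 (by simp [h])) (iff_of_true hxy2 (h3 u (by simp)))
    have hv : R v z := same v z (fun h => h1 (by simp [h])) (iff_of_true hxy2 (h3 v (by simp)))
    exact Rt _ _ _ hu (Rs _ _ hv)
  · obtain ⟨z, h1, h2, h3, h4⟩ := hE ∅ {u, v} (by simp)
    have hu : R u z := same u z (fun h => h2 (by simp [h])) (iff_of_false hxy2 (h4 u (by simp)))
    have hv : R v z := same v z (fun h => h2 (by simp [h])) (iff_of_false hxy2 (h4 v (by simp)))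
    exact Rt _ _ _ hu (Rs _ _ hv)

theorem preprimitive_of_connect (G : Subgroup (Equiv.Perm X))
    (htr : ∀ x y : X, ∃ σ ∈ G, σ x = y)
    (hc : ∀ R : X → X → Prop, (∀ x y, R x y → R y x) → (∀ x y z, R x y → R y z → R x z) →
      (∀ σ ∈ G, ∀ x y, R x y → R (σ x) (σ y)) → ∀ x y : X, x ≠ y → R x y → ∀ u v, R u v) :
    IsPreprimitive G X := by
  have hpt : IsPretransitive G X := ⟨fun x y => by
    obtain ⟨σ, hσ, h⟩ := htr x y
    exact ⟨⟨σ, hσ⟩, h⟩⟩
  refine { isTrivialBlock_of_isBlock := ?_ }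
  intro B hB
  by_contra hcon
  unfold IsTrivialBlock at hcon
  push Not at hcon
  obtain ⟨h1, h2⟩ := hcon
  obtain ⟨x, hx, y, hy, hxy⟩ := h1
  apply h2
  have hblock : ∀ (σ τ : G) (z : X), z ∈ σ • B → z ∈ τ • B → σ • B = τ • B := by
    intro σ τ z hz1 hz2
    exact hB.smul_eq_smul_of_nonempty ⟨z, hz1, hz2⟩
  have hR : ∀ u v : X, ∃ σ : G, u ∈ σ • B ∧ v ∈ σ • B := by
    refine hc (fun u v => ∃ σ : G, u ∈ σ • B ∧ v ∈ σ • B) ?_ ?_ ?_ x y hxy
      ⟨1, by simpa using hx, by simpa using hy⟩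
    · rintro u v ⟨σ, h1, h2⟩
      exact ⟨σ, h2, h1⟩
    · rintro u v z ⟨σ, h1, h2⟩ ⟨τ, h3, h4⟩
      refine ⟨σ, h1, ?_⟩
      rw [hblock σ τ v h2 h3]
      exact h4
    · rintro σ hσ u v ⟨τ, h1, h2⟩
      refine ⟨⟨σ, hσ⟩ * τ, ?_, ?_⟩
      · rw [mul_smul]
        exact Set.smul_mem_smul_set h1
      · rw [mul_smul]
        exact Set.smul_mem_smul_set h2
  rw [Set.eq_univ_iff_forall]
  intro z
  obtain ⟨σ, h3, h4⟩ := hR x z
  have := hblock σ 1 x h3 (by simpa using hx)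
  rw [this] at h4
  simpa using h4

end graph

/-- right multiplication -/
def rmul {X : Type} [Group X] : X →* Equiv.Perm X where
  toFun g := Equiv.mulRight g⁻¹
  map_one' := by ext x; simp
  map_mul' a b := by ext x; simp [mul_assoc]

theorem regular {X : Type} [Group X] (G : Subgroup (Equiv.Perm X))
    (hG : ∀ g : X, rmul g ∈ G) :
    ∃ H : Subgroup (Equiv.Perm X), H ≤ G ∧ Nonempty (H ≃* X) ∧
      ∀ ω ω' : X, ∃! h : H, h • ω = ω' := by
  have hinj : Function.Injective (rmul (X := X)) := by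
    intro a b hab
    have h := congrArg (fun σ : Equiv.Perm X => σ 1) hab
    simpa [rmul] using h
  refine ⟨rmul.range, ?_, ⟨(MonoidHom.ofInjective hinj).symm⟩, ?_⟩
  · rintro _ ⟨g, rfl⟩
    exact hG g
  · intro x y
    refine ⟨⟨rmul (y⁻¹ * x), _, rfl⟩, ?_, ?_⟩
    · change x * (y⁻¹ * x)⁻¹ = y
      group
    · rintro ⟨_, g', rfl⟩ hg'
      have hg'' : x * g'⁻¹ = y := hg'
      have : g' = y⁻¹ * x := by rw [← hg'']; group
      rw [this]

/-- **A countable group with property (†) is not a B-group.** -/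
theorem not_isBGroup {X : Type} [Group X] [Infinite X] [Countable X] (hX : ¬ Covered X) :
    ¬ IsBGroup X := by
  classical
  obtain ⟨S, hS, h1, hE⟩ := exists_conn hX
  let adj : X → X → Prop := fun x y => x * y⁻¹ ∈ S
  have hs : ∀ x y, adj x y → adj y x := by
    intro x y h
    have := hS _ h
    have e : (x * y⁻¹)⁻¹ = y * x⁻¹ := by group
    rw [e] at this
    exact this
  have hir : ∀ x, ¬ adj x x := by
    intro x h
    apply h1
    have e : x * x⁻¹ = 1 := by group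
    rw [← e]
    exact h
  have hE' : Ext adj := hE
  intro hB
  have hprim : IsPreprimitive (Aut adj) X := by
    refine preprimitive_of_connect (Aut adj) ?_ ?_
    · intro x y
      refine ⟨rmul (y⁻¹ * x), ?_, ?_⟩
      · intro a b
        change a * (y⁻¹ * x)⁻¹ * (b * (y⁻¹ * x)⁻¹)⁻¹ ∈ S ↔ a * b⁻¹ ∈ S
        have e : a * (y⁻¹ * x)⁻¹ * (b * (y⁻¹ * x)⁻¹)⁻¹ = a * b⁻¹ := by group
        rw [e]
      · change x * (y⁻¹ * x)⁻¹ = y
        group
    · intro R Rs Rt Rinv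
      exact connect hE' hs hir R Rs Rt Rinv
  have h2 := hB X (Aut adj) hprim (regular (Aut adj) (by
    intro g a b
    change a * g⁻¹ * (b * g⁻¹)⁻¹ ∈ S ↔ a * b⁻¹ ∈ S
    have e : a * g⁻¹ * (b * g⁻¹)⁻¹ = a * b⁻¹ := by group
    rw [e]))
  rw [is_two_pretransitive_iff] at h2
  obtain ⟨z, hz1, -, hz2, -⟩ := hE' {1} ∅ (by simp)
  obtain ⟨w, -, hw1, -, hw2⟩ := hE' ∅ {1} (by simp)
  obtain ⟨⟨σ, hσ⟩, h3, h4⟩ := h2 (a := (1 : X)) (b := z) (c := (1 : X)) (d := w)
    (by simpa [eq_comm] using hz1) (by simpa [eq_comm] using hw1)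
  change σ 1 = 1 at h3
  change σ z = w at h4
  have h5 := (hσ 1 z).mpr (hz2 1 (by simp))
  rw [h3, h4] at h5
  exact hw2 1 (by simp) h5

end Pool.Agent.H829R3.BG5
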