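import Mathlib
import Pool.Agent.H829R3.BG5

set_option autoImplicit false

namespace Pool.Agent.H829R3.BG6

open Pool.Agent.H829R3.BG5
open Pool.Agent.Results.MP_291637_al.NotBGroup (IsBGroup)
open MulAction
open scoped Pointwise

/-! ### Groups acting regularly on a grid -/

section grid
variable {X : Type} (e : X ≃ ℕ × ℕ)

/-- adjacency in the rook graph -/
def radj (x y : X) : Prop := x ≠ y ∧ ((e x).1 = (e y).1 ∨ (e x).2 = (e y).2)

/-- product permutations -/
def prodPerm (σ τ : Equiv.Perm ℕ) : Equiv.Perm X := e.trans ((Equiv.prodCongr σ τ).trans e.symm)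

/-- the swap -/
def swapPerm : Equiv.Perm X := e.trans ((Equiv.prodComm ℕ ℕ).trans e.symm)

@[simp] theorem e_prodPerm (σ τ : Equiv.Perm ℕ) (x : X) :
    e (prodPerm e σ τ x) = (σ (e x).1, τ (e x).2) := by
  simp only [prodPerm, Equiv.trans_apply, Equiv.apply_symm_apply]
  rfl

@[simp] theorem e_swapPerm (x : X) : e (swapPerm e x) = ((e x).2, (e x).1) := by
  simp only [swapPerm, Equiv.trans_apply, Equiv.apply_symm_apply]
  rfl

theorem prod_mem (σ τ : Equiv.Perm ℕ) : prodPerm e σ τ ∈ Aut (radj e) := by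
  intro x y
  unfold radj
  simp

theorem swap_mem : swapPerm e ∈ Aut (radj e) := by
  intro x y
  unfold radj
  simp only [ne_eq, EmbeddingLike.apply_eq_iff_eq, e_swapPerm]
  tauto

theorem exists_perm {a b a' b' : ℕ} (h : a ≠ b) (h' : a' ≠ b') :
    ∃ σ : Equiv.Perm ℕ, σ a = a' ∧ σ b = b' := by
  refine ⟨(Equiv.swap a a').trans (Equiv.swap ((Equiv.swap a a') b) b'), ?_, ?_⟩
  · rw [Equiv.trans_apply, Equiv.swap_apply_left]
    apply Equiv.swap_apply_of_ne_of_ne
    · intro hh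
      have h1 : (Equiv.swap a a') a = (Equiv.swap a a') b := by
        rw [Equiv.swap_apply_left]; exact hh
      exact h ((Equiv.swap a a').injective h1)
    · exact h'
  · rw [Equiv.trans_apply, Equiv.swap_apply_left]

theorem grid_connect (R : X → X → Prop) (Rs : ∀ x y, R x y → R y x)
    (Rt : ∀ x y z, R x y → R y z → R x z)
    (Rinv : ∀ σ ∈ Aut (radj e), ∀ x y, R x y → R (σ x) (σ y)) (x y : X) (hxy : x ≠ y)
    (h : R x y) : ∀ u v, R u v := by
  let R' : ℕ × ℕ → ℕ × ℕ → Prop := fun p q => R (e.symm p) (e.symm q)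
  have Rs' : ∀ p q, R' p q → R' q p := fun p q h => Rs _ _ h
  have Rt' : ∀ p q r, R' p q → R' q r → R' p r := fun p q r h1 h2 => Rt _ _ _ h1 h2
  have hprod : ∀ (σ τ : Equiv.Perm ℕ) p q, R' p q → R' (σ p.1, τ p.2) (σ q.1, τ q.2) := by
    intro σ τ p q h
    have h3 : ∀ p : ℕ × ℕ, prodPerm e σ τ (e.symm p) = e.symm (σ p.1, τ p.2) := by
      intro p
      apply e.injective
      simp
    have := Rinv _ (prod_mem e σ τ) _ _ h
    rw [h3, h3] at this
    exact this
  have hswap : ∀ p q, R' p q → R' (p.2, p.1) (q.2, q.1) := by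
    intro p q h
    have h3 : ∀ p : ℕ × ℕ, swapPerm e (e.symm p) = e.symm (p.2, p.1) := by
      intro p
      apply e.injective
      simp
    have := Rinv _ (swap_mem e) _ _ h
    rw [h3, h3] at this
    exact this
  have h0 : R' (e x) (e y) := by simpa [R'] using h
  have hne : e x ≠ e y := fun h => hxy (e.injective h)
  -- a related pair in the same row
  have hrow : ∃ a b c, b ≠ c ∧ R' (a, b) (a, c) := by
    rcases hx : e x with ⟨a, b⟩
    rcases hy : e y with ⟨c, d⟩
    rw [hx, hy] at h0 hne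
    by_cases hac : a = c
    · subst hac
      exact ⟨a, b, d, fun h => hne (by rw [h]), h0⟩
    · by_cases hbd : b = d
      · subst hbd
        exact ⟨b, a, c, hac, hswap _ _ h0⟩
      · -- move c to another column entry
        obtain ⟨f, hf⟩ : ∃ f, f ≠ b ∧ f ≠ d := by
          refine ⟨b + d + 1, by omega, by omega⟩
        obtain ⟨τ, h1, h2⟩ := exists_perm hbd (Ne.symm hf.1)
        have h3 := hprod 1 τ _ _ h0
        simp only [Equiv.Perm.coe_one, id_eq, h1, h2] at h3
        -- R' (a,b) (c,f), R' (a,b) (c,d)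
        exact ⟨c, d, f, Ne.symm hf.2, Rt' _ _ _ (Rs' _ _ h0) h3⟩
  obtain ⟨a, b, c, hbc, hR⟩ := hrow
  have hrow' : ∀ a' b' c', R' (a', b') (a', c') := by
    have k : ∀ a' b' c', b' ≠ c' → R' (a', b') (a', c') := by
      intro a' b' c' hbc'
      obtain ⟨τ, h1, h2⟩ := exists_perm hbc hbc'
      have := hprod (Equiv.swap a a') τ _ _ hR
      simpa [h1, h2] using this
    intro a' b' c'
    by_cases hbc' : b' = c'
    · subst hbc'
      have := k a' b' (b' + 1) (by omega)
      exact Rt' _ _ _ this (Rs' _ _ this)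
    · exact k a' b' c' hbc'
  have hcol' : ∀ a' b' c', R' (b', a') (c', a') := fun a' b' c' => hswap _ _ (hrow' a' b' c')
  intro u v
  have h1 : R' (e u) (e v) := Rt' _ ((e u).1, (e v).2) _ (hrow' _ _ _) (hcol' _ _ _)
  simpa [R'] using h1

theorem grid_trans (x y : X) : ∃ σ ∈ Aut (radj e), σ x = y := by
  refine ⟨prodPerm e (Equiv.swap (e x).1 (e y).1) (Equiv.swap (e x).2 (e y).2), prod_mem e _ _, ?_⟩
  apply e.injective
  simp

end grid

/-- **A B-group does not have two infinite subgroups every two right cosets of which meet in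
exactly one point.** -/
theorem no_grid {X : Type} [Group X] [Countable X] (Y Z : Subgroup X) (hY : Infinite Y)
    (hZ : Infinite Z) (h : ∀ g g' : X, ∃! x : X, x * g⁻¹ ∈ Y ∧ x * g'⁻¹ ∈ Z) : ¬ IsBGroup X := by
  classical
  let RY := Quotient (QuotientGroup.rightRel Y)
  let RZ := Quotient (QuotientGroup.rightRel Z)
  have eqY : ∀ x y : X, (Quotient.mk _ x : RY) = Quotient.mk _ y ↔ y * x⁻¹ ∈ Y := by
    intro x y
    rw [Quotient.eq, QuotientGroup.rightRel_apply]
  have eqZ : ∀ x y : X, (Quotient.mk _ x : RZ) = Quotient.mk _ y ↔ y * x⁻¹ ∈ Z := by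
    intro x y
    rw [Quotient.eq, QuotientGroup.rightRel_apply]
  have infRY : Infinite RY := by
    refine Infinite.of_injective (fun z : Z => (Quotient.mk _ (z : X) : RY)) ?_
    intro z z' hzz
    have h1 := (eqY _ _).mp hzz
    obtain ⟨w, _, hw⟩ := h (z : X) 1
    have k1 := hw z ⟨by simp, by simp⟩
    have k2 := hw z' ⟨h1, by simp⟩
    exact Subtype.ext (k1.trans k2.symm)
  have infRZ : Infinite RZ := by
    refine Infinite.of_injective (fun z : Y => (Quotient.mk _ (z : X) : RZ)) ?_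
    intro z z' hzz
    have h1 := (eqZ _ _).mp hzz
    obtain ⟨w, _, hw⟩ := h 1 (z : X)
    have k1 := hw z ⟨by simp, by simp⟩
    have k2 := hw z' ⟨by simp, h1⟩
    exact Subtype.ext (k1.trans k2.symm)
  obtain ⟨eY⟩ : Nonempty (RY ≃ ℕ) := nonempty_equiv_of_countable
  obtain ⟨eZ⟩ : Nonempty (RZ ≃ ℕ) := nonempty_equiv_of_countable
  let f : X → ℕ × ℕ := fun x => (eY (Quotient.mk _ x), eZ (Quotient.mk _ x))
  have f1 : ∀ x y, (f x).1 = (f y).1 ↔ y * x⁻¹ ∈ Y := by
    intro x y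
    rw [← eqY]
    exact eY.injective.eq_iff
  have f2 : ∀ x y, (f x).2 = (f y).2 ↔ y * x⁻¹ ∈ Z := by
    intro x y
    rw [← eqZ]
    exact eZ.injective.eq_iff
  have fbij : Function.Bijective f := by
    constructor
    · intro x y hxy
      have h1 := (f1 x y).mp (congrArg Prod.fst hxy)
      have h2 := (f2 x y).mp (congrArg Prod.snd hxy)
      obtain ⟨w, _, hw⟩ := h x x
      rw [hw x ⟨by simp, by simp⟩, hw y ⟨h1, h2⟩]
    · rintro ⟨m, n⟩
      obtain ⟨g, hg⟩ := Quotient.exists_rep (eY.symm m)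
      obtain ⟨g', hg'⟩ := Quotient.exists_rep (eZ.symm n)
      obtain ⟨w, ⟨hw1, hw2⟩, _⟩ := h g g'
      refine ⟨w, ?_⟩
      have k1 := (eqY g w).mpr hw1
      have k2 := (eqZ g' w).mpr hw2
      change (eY _, eZ _) = (m, n)
      rw [← k1, ← k2]
      have l1 : (Quotient.mk _ g : RY) = eY.symm m := hg
      have l2 : (Quotient.mk _ g' : RZ) = eZ.symm n := hg'
      rw [l1, l2]
      simp
  let e : X ≃ ℕ × ℕ := Equiv.ofBijective f fbij
  have hinv : ∀ g x y : X, radj e (x * g⁻¹) (y * g⁻¹) ↔ radj e x y := by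
    intro g x y
    unfold radj
    change (x * g⁻¹ ≠ y * g⁻¹ ∧ ((f (x * g⁻¹)).1 = (f (y * g⁻¹)).1 ∨
      (f (x * g⁻¹)).2 = (f (y * g⁻¹)).2)) ↔ (x ≠ y ∧ ((f x).1 = (f y).1 ∨ (f x).2 = (f y).2))
    rw [f1, f2, f1, f2]
    have e1 : y * g⁻¹ * (x * g⁻¹)⁻¹ = y * x⁻¹ := by group
    rw [e1]
    simp
  intro hB
  have hprim : IsPreprimitive (Aut (radj e)) X :=
    preprimitive_of_connect (Aut (radj e)) (grid_trans e) (fun R Rs Rt Rinv =>
      grid_connect e R Rs Rt Rinv)
  have h2 := hB X (Aut (radj e)) hprim (regular (Aut (radj e)) (fun g x y => hinv g x y))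
  rw [is_two_pretransitive_iff] at h2
  have n1 : e.symm (0, 0) ≠ e.symm (0, 1) := by simp
  have n2 : e.symm (0, 0) ≠ e.symm (1, 1) := by simp
  obtain ⟨⟨σ, hσ⟩, h3, h4⟩ := h2 n1 n2
  change σ _ = _ at h3
  change σ _ = _ at h4
  have h5 := (hσ (e.symm (0, 0)) (e.symm (0, 1))).mpr ⟨n1, by simp⟩
  rw [h3, h4] at h5
  obtain ⟨_, h6⟩ := h5
  simp at h6

end Pool.Agent.H829R3.BG6
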