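import Mathlib
import Pool.Agent.H829R3.BG5

set_option autoImplicit false

namespace Pool.Agent.H829R3.BT1

open Pool.Agent.H829R3.BG5
open scoped Pointwise

/-- digit systems with a parity -/
structure Dig (p : ℕ) (Λ : Type) [AddCommGroup Λ] where
  θ : Λ →+ Λ
  θinj : Function.Injective θ
  ρ : Λ →+ ZMod p
  u : Λ
  ρu : ρ u = 1
  ker : ∀ x, ρ x = 0 ↔ ∃ y, θ y = x
  ε : Λ →+ ZMod 2
  εθ : ∀ x, ε (θ x) = ε x
  εu : ε u = 1
  val : Λ → ℕ
  valθ : ∀ x, x ≠ 0 → val (θ x) = val x + 1
  val0 : ∀ x, ρ x ≠ 0 → val x = 0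
  valneg : ∀ x, val (-x) = val x

variable {p : ℕ} {Λ : Type} [AddCommGroup Λ]

section
variable [NeZero p] (S : Dig p Λ)

/-- first digit `r`, remaining digits `n` -/
def comb (r : ZMod p) (n : Λ) : Λ := S.θ n + r.val • S.u

theorem ρ_comb (r : ZMod p) (n : Λ) : S.ρ (comb S r n) = r := by
  have h : S.ρ (S.θ n) = 0 := (S.ker _).mpr ⟨n, rfl⟩
  rw [comb, map_add, h, map_nsmul, S.ρu, zero_add, nsmul_eq_mul, mul_one, ZMod.natCast_zmod_val]

theorem exists_sh (x : Λ) : ∃ n, comb S (S.ρ x) n = x := by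
  have h : S.ρ (x - (S.ρ x).val • S.u) = 0 := by
    rw [map_sub, map_nsmul, S.ρu, nsmul_eq_mul, mul_one, ZMod.natCast_zmod_val, sub_self]
  obtain ⟨n, hn⟩ := (S.ker _).mp h
  exact ⟨n, by rw [comb, hn, sub_add_cancel]⟩

/-- the shift -/
noncomputable def sh (x : Λ) : Λ := (exists_sh S x).choose

theorem comb_sh (x : Λ) : comb S (S.ρ x) (sh S x) = x := (exists_sh S x).choose_spec

theorem sh_comb (r : ZMod p) (n : Λ) : sh S (comb S r n) = n := by
  have h := comb_sh S (comb S r n)
  rw [ρ_comb] at h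
  unfold comb at h
  exact S.θinj (add_right_cancel h)

theorem comb_zero (n : Λ) : comb S 0 n = S.θ n := by
  simp [comb]

theorem εnsmul (k : ℕ) : S.ε (k • S.u) = (k : ZMod 2) := by
  rw [map_nsmul, S.εu, nsmul_eq_mul, mul_one]

theorem ε_comb (r : ZMod p) (n : Λ) : S.ε (comb S r n) = S.ε n + (r.val : ZMod 2) := by
  rw [comb, map_add, S.εθ, εnsmul]

/-- vertices -/
abbrev M (p : ℕ) (Λ : Type) := Option (ZMod p) × Λ

/-- the colour of a pair -/
def col (S : Dig p Λ) (x y : M p Λ) : ZMod 2 :=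
  if x.1 = y.1 then S.ε x.2 + S.ε y.2 + (S.val (x.2 - y.2) : ZMod 2)
  else S.ε x.2 + S.ε y.2 + 1

/-- adjacency -/
def adj (S : Dig p Λ) (x y : M p Λ) : Prop := x ≠ y ∧ col S x y = 1

theorem col_comm (x y : M p Λ) : col S x y = col S y x := by
  unfold col
  by_cases h : x.1 = y.1
  · rw [if_pos h, if_pos h.symm, add_comm (S.ε x.2), ← neg_sub y.2 x.2, S.valneg]
  · rw [if_neg h, if_neg (Ne.symm h), add_comm (S.ε x.2)]

/-- permutation of the copies together with translations of each copy -/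
def P (π : Equiv.Perm (Option (ZMod p))) (k : Option (ZMod p) → Λ) : Equiv.Perm (M p Λ) where
  toFun x := (π x.1, x.2 + k x.1)
  invFun x := (π.symm x.1, x.2 - k (π.symm x.1))
  left_inv x := by simp
  right_inv x := by simp

@[simp] theorem P_apply (π : Equiv.Perm (Option (ZMod p))) (k : Option (ZMod p) → Λ)
    (x : M p Λ) : P π k x = (π x.1, x.2 + k x.1) := rfl

theorem z2 (a : ZMod 2) : a + a = 0 := by revert a; decide

theorem P_mem (π : Equiv.Perm (Option (ZMod p))) (k : Option (ZMod p) → Λ)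
    (hk : ∀ c d, S.ε (k c) = S.ε (k d)) : P π k ∈ Aut (adj S) := by
  intro x y
  unfold adj
  rw [(P π k).injective.ne_iff]
  have h : col S (P π k x) (P π k y) = col S x y := by
    obtain ⟨c, i⟩ := x
    obtain ⟨d, j⟩ := y
    unfold col
    simp only [P_apply, EmbeddingLike.apply_eq_iff_eq, map_add]
    by_cases h : c = d
    · subst h
      simp only [if_true]
      rw [add_sub_add_right_eq_sub]
      have := z2 (S.ε (k c))
      linear_combination this
    · simp only [if_neg h]
      rw [hk c d]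
      have := z2 (S.ε (k d))
      linear_combination this
  rw [h]

/-- the extra automorphism, as a function -/
noncomputable def gf (x : M p Λ) : M p Λ :=
  match x with
  | (none, x) => open Classical in
      if S.ρ x = 0 then (some (S.ρ (sh S x)), sh S (sh S x) + ((S.ρ (sh S x)).val + 1) • S.u)
      else (none, x)
  | (some r, i) => (none, S.θ (comb S r (i - (r.val + 1) • S.u)))

theorem gf_C {x : Λ} (h : S.ρ x ≠ 0) : gf S (none, x) = (none, x) := by
  simp [gf, h]

theorem gf_D (r : ZMod p) (n : Λ) :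
    gf S (none, S.θ (comb S r n)) = (some r, n + (r.val + 1) • S.u) := by
  have h0 : S.ρ (S.θ (comb S r n)) = 0 := (S.ker _).mpr ⟨_, rfl⟩
  have h1 : sh S (S.θ (comb S r n)) = comb S r n := by
    rw [← comb_zero, sh_comb]
  simp only [gf, h0, if_true, h1, ρ_comb, sh_comb]

theorem gf_O (r : ZMod p) (n : Λ) :
    gf S (some r, n + (r.val + 1) • S.u) = (none, S.θ (comb S r n)) := by
  simp only [gf, add_sub_cancel_right]

theorem cases3 (x : M p Λ) : (∃ i : Λ, S.ρ i ≠ 0 ∧ x = (none, i)) ∨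
    (∃ (r : ZMod p) (n : Λ), x = (none, S.θ (comb S r n))) ∨
    (∃ (r : ZMod p) (n : Λ), x = (some r, n + (r.val + 1) • S.u)) := by
  obtain ⟨c, i⟩ := x
  rcases c with _ | r
  · by_cases h : S.ρ i = 0
    · right; left
      obtain ⟨y, rfl⟩ := (S.ker _).mp h
      exact ⟨S.ρ y, sh S y, by rw [comb_sh]⟩
    · left; exact ⟨i, h, rfl⟩
  · right; right
    exact ⟨r, i - (r.val + 1) • S.u, by simp⟩

theorem gf_gf (x : M p Λ) : gf S (gf S x) = x := by
  rcases cases3 S x with ⟨i, hi, rfl⟩ | ⟨r, n, rfl⟩ | ⟨r, n, rfl⟩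
  · rw [gf_C S hi, gf_C S hi]
  · rw [gf_D, gf_O]
  · rw [gf_O, gf_D]

/-- the extra automorphism -/
noncomputable def g : Equiv.Perm (M p Λ) := ⟨gf S, gf S, gf_gf S, gf_gf S⟩

theorem col_gf (x y : M p Λ) (hxy : x ≠ y) : col S (gf S x) (gf S y) = col S x y := by
  have two : (1 : ZMod 2) + 1 = 0 := by decide
  have CD : ∀ (i : Λ) (_ : S.ρ i ≠ 0) (r : ZMod p) (n : Λ),
      col S (none, i) (some r, n + (r.val + 1) • S.u) = col S (none, i) (none, S.θ (comb S r n)) := by
    intro i hi r n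
    unfold col
    have h1 : ¬ ((none : Option (ZMod p)) = some r) := by simp
    have h2 : S.val (i - S.θ (comb S r n)) = 0 := by
      apply S.val0
      rw [map_sub, (S.ker _).mpr ⟨_, rfl⟩, sub_zero]
      exact hi
    simp only [if_neg h1, if_true, h2, map_add, εnsmul, S.εθ, ε_comb]
    push_cast
    linear_combination two
  have DO : ∀ (r s : ZMod p) (n m : Λ),
      col S (some r, n + (r.val + 1) • S.u) (none, S.θ (comb S s m)) =
      col S (none, S.θ (comb S r n)) (some s, m + (s.val + 1) • S.u) := by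
    intro r s n m
    unfold col
    have h1 : ¬ ((none : Option (ZMod p)) = some s) := by simp
    have h2 : ¬ (some r = (none : Option (ZMod p))) := by simp
    simp only [if_neg h1, if_neg h2, map_add, εnsmul, S.εθ, ε_comb]
    push_cast
    ring
  have DD : ∀ (r s : ZMod p) (n m : Λ),
      ((none : Option (ZMod p)), S.θ (comb S r n)) ≠ (none, S.θ (comb S s m)) →
      col S (some r, n + (r.val + 1) • S.u) (some s, m + (s.val + 1) • S.u) =
      col S (none, S.θ (comb S r n)) (none, S.θ (comb S s m)) := by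
    intro r s n m hne
    have hne2 : comb S r n - comb S s m ≠ 0 := by
      intro h
      apply hne
      rw [sub_eq_zero.mp h]
    unfold col
    have e1 : S.θ (comb S r n) - S.θ (comb S s m) = S.θ (comb S r n - comb S s m) := by
      rw [map_sub]
    simp only [if_true, e1, S.valθ _ hne2, map_add, εnsmul, S.εθ, ε_comb, Option.some.injEq]
    by_cases hrs : r = s
    · subst hrs
      have hnm : n - m ≠ 0 := by
        intro h
        apply hne2
        rw [sub_eq_zero.mp h, sub_self]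
      have e2 : comb S r n - comb S r m = S.θ (n - m) := by
        rw [comb, comb, map_sub]; abel
      rw [e2, S.valθ _ hnm, if_pos rfl, add_sub_add_right_eq_sub]
      push_cast
      ring
    · have h3 : S.val (comb S r n - comb S s m) = 0 := by
        apply S.val0
        rw [map_sub, ρ_comb, ρ_comb]
        exact sub_ne_zero.mpr hrs
      rw [if_neg hrs, h3]
      push_cast
      linear_combination two
  rcases cases3 S x with ⟨i, hi, rfl⟩ | ⟨r, n, rfl⟩ | ⟨r, n, rfl⟩ <;>
  rcases cases3 S y with ⟨j, hj, rfl⟩ | ⟨s, m, rfl⟩ | ⟨s, m, rfl⟩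
  · rw [gf_C S hi, gf_C S hj]
  · rw [gf_C S hi, gf_D, CD i hi s m]
  · rw [gf_C S hi, gf_O, CD i hi s m]
  · rw [gf_C S hj, gf_D, col_comm, CD j hj r n, col_comm]
  · rw [gf_D, gf_D, DD r s n m hxy]
  · rw [gf_D, gf_O, DO r s n m]
  · rw [gf_C S hj, gf_O, col_comm, ← CD j hj r n, col_comm]
  · rw [gf_O, gf_D, DO r s n m]
  · rw [gf_O, gf_O]
    refine (DD r s n m ?_).symm
    intro h
    apply hxy
    have h2 := congrArg (gf S) h
    rwa [gf_D, gf_D] at h2

theorem g_mem : g S ∈ Aut (adj S) := by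
  intro x y
  unfold adj
  rw [(g S).injective.ne_iff]
  constructor
  · rintro ⟨h1, h2⟩
    exact ⟨h1, by rw [← col_gf S x y h1]; exact h2⟩
  · rintro ⟨h1, h2⟩
    refine ⟨h1, ?_⟩
    have := col_gf S x y h1
    rw [← h2, ← this]
    rfl

end

end Pool.Agent.H829R3.BT1
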