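import Mathlib
import Pool.Agent.H829R3.BT1

set_option autoImplicit false

namespace Pool.Agent.H829R3.BT2

open Pool.Agent.H829R3.BG5 Pool.Agent.H829R3.BT1
open scoped Pointwise

variable {p : ℕ} {Λ : Type} [AddCommGroup Λ] [NeZero p] (S : Dig p Λ)

theorem exists_perm {α : Type*} [DecidableEq α] {a b a' b' : α} (h : a ≠ b) (h' : a' ≠ b') :
    ∃ σ : Equiv.Perm α, σ a = a' ∧ σ b = b' := by
  refine ⟨(Equiv.swap a a').trans (Equiv.swap ((Equiv.swap a a') b) b'), ?_, ?_⟩
  · rw [Equiv.trans_apply, Equiv.swap_apply_left]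
    apply Equiv.swap_apply_of_ne_of_ne
    · intro hh
      have h1 : (Equiv.swap a a') a = (Equiv.swap a a') b := by
        rw [Equiv.swap_apply_left]; exact hh
      exact h ((Equiv.swap a a').injective h1)
    · exact h'
  · rw [Equiv.trans_apply, Equiv.swap_apply_left]

section conn
variable (R : M p Λ → M p Λ → Prop)
  (Rs : ∀ x y, R x y → R y x) (Rt : ∀ x y z, R x y → R y z → R x z)
  (Rinv : ∀ σ ∈ Aut (adj S), ∀ x y, R x y → R (σ x) (σ y))

include Rinv

theorem move_same {c : Option (ZMod p)} {i j : Λ} (h : R (c, i) (c, j)) (d : Option (ZMod p))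
    (t : Λ) : R (d, i + t) (d, j + t) := by
  classical
  have := Rinv _ (P_mem S (Equiv.swap c d) (fun _ => t) (fun _ _ => rfl)) _ _ h
  simpa using this

theorem move_diff {c d : Option (ZMod p)} (hcd : c ≠ d) {i j : Λ} (h : R (c, i) (d, j))
    {c' d' : Option (ZMod p)} (hcd' : c' ≠ d') (i' j' : Λ)
    (hε : S.ε (i' - i) = S.ε (j' - j)) :
    R (c', i') (d', j') := by
  classical
  obtain ⟨π, h1, h2⟩ := exists_perm hcd hcd'
  have := Rinv _ (P_mem S π (fun e => if e = d then j' - j else i' - i) (by
    intro e f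
    by_cases h1 : e = d <;> by_cases h2 : f = d <;> simp [h1, h2, ← map_sub, hε])) _ _ h
  simpa [h1, h2, hcd] using this

theorem step1 (N : ℕ) : ∀ t : Λ, t ≠ 0 → S.val t ≤ N → R (none, 0) (none, t) →
    ∃ (c : Option (ZMod p)) (i : Λ) (d : Option (ZMod p)) (j : Λ), c ≠ d ∧ R (c, i) (d, j) := by
  have h0 : gf S (none, 0) = (some 0, 0 + ((0 : ZMod p).val + 1) • S.u) := by
    have := gf_D S 0 0
    rwa [comb_zero, map_zero, map_zero] at this
  induction N using Nat.strong_induction_on with
  | _ N ih =>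
    intro t ht hN h
    have hg := Rinv _ (g_mem S) _ _ h
    change R (gf S (none, 0)) (gf S (none, t)) at hg
    rw [h0] at hg
    by_cases hρ : S.ρ t = 0
    · obtain ⟨y, rfl⟩ := (S.ker _).mp hρ
      have hy : y ≠ 0 := by
        rintro rfl
        exact ht (map_zero _)
      rw [← comb_sh S y, gf_D] at hg
      by_cases hr : S.ρ y = 0
      · rw [hr] at hg
        have h2 := move_same S R Rinv hg none (-(((0 : ZMod p).val + 1) • S.u))
        rw [add_neg_cancel_right, add_neg_cancel_right] at h2
        have hy2 : S.θ (sh S y) = y := by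
          have := comb_sh S y
          rwa [hr, comb_zero] at this
        have hn : sh S y ≠ 0 := by
          intro h
          apply hy
          rw [← hy2, h, map_zero]
        have hv : S.val (S.θ y) = S.val (sh S y) + 2 := by
          rw [S.valθ _ hy]
          conv_lhs => rw [← hy2]
          rw [S.valθ _ hn]
        exact ih (S.val (sh S y)) (by omega) _ hn le_rfl h2
      · exact ⟨_, _, _, _, by simpa using fun h => hr h.symm, hg⟩
    · rw [gf_C S hρ] at hg
      exact ⟨_, _, _, _, by simp, hg⟩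

include Rs Rt

theorem connect (h2 : (2 : ZMod p) ≠ 0) (x y : M p Λ) (hxy : x ≠ y) (h : R x y) :
    ∀ u v, R u v := by
  classical
  -- a related pair in different copies
  have hA : ∃ (c : Option (ZMod p)) (i : Λ) (d : Option (ZMod p)) (j : Λ),
      c ≠ d ∧ R (c, i) (d, j) := by
    obtain ⟨c, i⟩ := x
    obtain ⟨d, j⟩ := y
    by_cases hcd : c = d
    · subst hcd
      have h3 := move_same S R Rinv h none (-i)
      rw [add_neg_cancel] at h3
      refine step1 S R Rinv _ (j + -i) ?_ le_rfl h3
      intro h4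
      apply hxy
      have : i = j := (eq_of_add_neg_eq_zero h4).symm
      rw [this]
    · exact ⟨c, i, d, j, hcd, h⟩
  obtain ⟨c, i, d, j, hcd, hR⟩ := hA
  have hε2 : S.ε (2 • S.u) = 0 := by
    rw [εnsmul]; rfl
  -- shift by `2u` on one copy
  have hB : R (none, 0) (none, 2 • S.u) := by
    have h3 : R (c, i) (d, j + 2 • S.u) := move_diff S R Rinv hcd hR hcd i (j + 2 • S.u) (by
      rw [sub_self, map_zero, add_sub_cancel_left, hε2])
    have h4 := Rt _ _ _ (Rs _ _ hR) h3
    have h5 := move_same S R Rinv h4 none (-j)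
    rw [add_neg_cancel] at h5
    have e : j + 2 • S.u + -j = 2 • S.u := by abel
    rwa [e] at h5
  have hC : R (some 0, S.u) (none, 2 • S.u) := by
    have hg := Rinv _ (g_mem S) _ _ hB
    change R (gf S (none, 0)) (gf S (none, 2 • S.u)) at hg
    have h0 : gf S (none, 0) = (some 0, 0 + ((0 : ZMod p).val + 1) • S.u) := by
      have := gf_D S 0 0
      rwa [comb_zero, map_zero, map_zero] at this
    have hρ : S.ρ (2 • S.u) ≠ 0 := by
      rw [map_nsmul, S.ρu, nsmul_eq_mul, mul_one]
      exact_mod_cast h2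
    rw [h0, gf_C S hρ] at hg
    simpa using hg
  have hD : ∀ (c d : Option (ZMod p)) (i j : Λ), c ≠ d → S.ε i = S.ε j + 1 → R (c, i) (d, j) := by
    intro c d i j hcd hij
    refine move_diff S R Rinv (by simp) hC hcd i j ?_
    rw [map_sub, map_sub, hε2, S.εu, hij]
    ring
  have hex : ∀ c d : Option (ZMod p), ∃ e, e ≠ c ∧ e ≠ d := by
    intro c d
    have h3 : ∃ e : Option (ZMod p), e ∉ ({c, d} : Finset (Option (ZMod p))) := by
      by_contra hcon
      push Not at hcon
      have hs : ({none, some 0, some 1} : Finset (Option (ZMod p))) ⊆ {c, d} :=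
        fun e _ => hcon e
      have hc3 : ({none, some 0, some 1} : Finset (Option (ZMod p))).card = 3 := by
        have h01 : (0 : ZMod p) ≠ 1 := by
          intro h01
          apply h2
          have : (2 : ZMod p) = 1 + 1 := by norm_num
          rw [this, ← h01, add_zero]
        rw [Finset.card_insert_of_notMem (by simp), Finset.card_insert_of_notMem (by simpa using h01),
          Finset.card_singleton]
      have := Finset.card_le_card hs
      rw [hc3] at this
      have h4 := Finset.card_le_two (a := c) (b := d)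
      omega
    obtain ⟨e, he⟩ := h3
    simp only [Finset.mem_insert, Finset.mem_singleton, not_or] at he
    exact ⟨e, he.1, he.2⟩
  have hz : ∀ a b : ZMod 2, a = b + 1 ∨ a = b := by decide
  have hE : ∀ (c d : Option (ZMod p)) (i j : Λ), c ≠ d → R (c, i) (d, j) := by
    intro c d i j hcd
    rcases hz (S.ε i) (S.ε j) with h3 | h3
    · exact hD c d i j hcd h3
    · obtain ⟨e, he1, he2⟩ := hex c d
      have h4 : S.ε (i + S.u) = S.ε i + 1 := by rw [map_add, S.εu]
      have h5 : R (c, i) (e, i + S.u) := by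
        apply Rs
        exact hD e c (i + S.u) i he1 h4
      have h6 : R (e, i + S.u) (d, j) := hD e d (i + S.u) j he2 (by rw [h4, h3])
      exact Rt _ _ _ h5 h6
  rintro ⟨c, i⟩ ⟨d, j⟩
  by_cases hcd : c = d
  · subst hcd
    obtain ⟨e, he1, _⟩ := hex c c
    exact Rt _ _ _ (hE c e i j he1.symm) (hE e c j j he1)
  · exact hE c d i j hcd

end conn

theorem trans (x y : M p Λ) : ∃ σ ∈ Aut (adj S), σ x = y := by
  classical
  obtain ⟨c, i⟩ := x
  obtain ⟨d, j⟩ := y
  refine ⟨P (Equiv.swap c d) (fun _ => j - i), P_mem S _ _ (fun _ _ => rfl), ?_⟩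
  simp

theorem adj1 : adj S ((none : Option (ZMod p)), (0 : Λ)) (some 0, 0) := by
  refine ⟨by simp, ?_⟩
  simp [col]

theorem nadj : ¬ adj S ((none : Option (ZMod p)), (0 : Λ)) (some 0, S.u) := by
  rintro ⟨_, h⟩
  have h1 : ¬ ((none : Option (ZMod p)) = some 0) := by simp
  simp only [col, if_neg h1, map_zero, S.εu] at h
  revert h
  decide

end Pool.Agent.H829R3.BT2
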