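import Mathlib
import Pool.Agent.H829R3.BT1

set_option autoImplicit false

namespace Pool.Agent.H829R3.BT3

open Pool.Agent.H829R3.BT1

/-- a digit system from an endomorphism -/
noncomputable def mkDig {p : ℕ} {Λ : Type} [AddCommGroup Λ] (θ : Λ →+ Λ)
    (θinj : Function.Injective θ) (ρ : Λ →+ ZMod p) (u : Λ) (ρu : ρ u = 1)
    (ker : ∀ x, ρ x = 0 ↔ ∃ y, θ y = x) (ε : Λ →+ ZMod 2) (εθ : ∀ x, ε (θ x) = ε x)
    (εu : ε u = 1) (h : ∀ x : Λ, x ≠ 0 → ∃ k : ℕ, ¬ ∃ y, θ^[k + 1] y = x) : Dig p Λ where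
  θ := θ
  θinj := θinj
  ρ := ρ
  u := u
  ρu := ρu
  ker := ker
  ε := ε
  εθ := εθ
  εu := εu
  val := fun x => open Classical in if hx : x ≠ 0 then Nat.find (h x hx) else 0
  valθ := by
    classical
    intro x hx
    have hx' : θ x ≠ 0 := fun h0 => hx (θinj (by rw [h0, map_zero]))
    simp only [dif_pos hx, dif_pos hx']
    have h2 : ∃ k, ¬ ∃ y, θ^[k + 1 + 1] y = θ x := by
      obtain ⟨k, hk⟩ := h x hx
      refine ⟨k, ?_⟩
      rintro ⟨y, hy⟩
      rw [Function.iterate_succ_apply'] at hy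
      exact hk ⟨y, θinj hy⟩
    rw [Nat.find_comp_succ (h (θ x) hx') h2 (by
      intro h3
      exact h3 ⟨x, rfl⟩)]
    congr 1
    apply Nat.find_congr'
    intro k
    apply not_congr
    constructor
    · rintro ⟨y, hy⟩
      rw [Function.iterate_succ_apply'] at hy
      exact ⟨y, θinj hy⟩
    · rintro ⟨y, hy⟩
      exact ⟨y, by rw [Function.iterate_succ_apply', hy]⟩
  val0 := by
    classical
    intro x hx
    have hx' : x ≠ 0 := by
      rintro rfl
      exact hx (map_zero _)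
    simp only [dif_pos hx']
    rw [Nat.find_eq_zero]
    rintro ⟨y, hy⟩
    exact hx ((ker x).mpr ⟨y, hy⟩)
  valneg := by
    classical
    have key : ∀ (k : ℕ) (y : Λ), θ^[k] (-y) = -(θ^[k] y) := by
      intro k
      induction k with
      | zero => intro y; rfl
      | succ k ih =>
        intro y
        rw [Function.iterate_succ_apply', Function.iterate_succ_apply', ih, map_neg]
    intro x
    by_cases hx : x = 0
    · subst hx; simp
    · have hx' : -x ≠ 0 := neg_ne_zero.mpr hx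
      simp only [dif_pos hx', dif_pos (show x ≠ 0 from hx)]
      apply Nat.find_congr'
      intro k
      apply not_congr
      constructor
      · rintro ⟨y, hy⟩
        exact ⟨-y, by rw [key, hy, neg_neg]⟩
      · rintro ⟨y, hy⟩
        exact ⟨-y, by rw [key, hy]⟩

section Zd
variable (d p : ℕ)

/-- the lattice -/
abbrev Zd := Fin (d + 1) → ℤ

/-- rotation with multiplication by `p` -/
def θ : Zd d →+ Zd d where
  toFun n := Fin.cons (p * n (Fin.last d)) (fun i : Fin d => n i.castSucc)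
  map_zero' := by
    ext i
    refine Fin.cases ?_ (fun i => ?_) i <;> simp
  map_add' := by
    intro a b
    ext i
    refine Fin.cases ?_ (fun i => ?_) i
    · simp [mul_add]
    · simp

@[simp] theorem θ_zero (n : Zd d) : θ d p n 0 = p * n (Fin.last d) := rfl
@[simp] theorem θ_succ (n : Zd d) (i : Fin d) : θ d p n i.succ = n i.castSucc := rfl

theorem θ_inj (hp : 0 < p) : Function.Injective (θ d p) := by
  rw [injective_iff_map_eq_zero]
  intro n hn
  ext i
  refine Fin.lastCases ?_ (fun i => ?_) i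
  · have h := congrFun hn 0
    rw [θ_zero] at h
    have h2 : p ≠ 0 := hp.ne'
    simpa [h2] using h
  · have h := congrFun hn i.succ
    rw [θ_succ] at h
    exact h

/-- first digit -/
def ρ : Zd d →+ ZMod p where
  toFun n := (n 0 : ZMod p)
  map_zero' := by simp
  map_add' := by intro a b; simp

/-- the first unit vector -/
def u : Zd d := Fin.cons 1 0

/-- parity of the sum -/
def ε : Zd d →+ ZMod 2 where
  toFun n := ((∑ i, n i : ℤ) : ZMod 2)
  map_zero' := by simp
  map_add' := by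
    intro a b
    simp only [Pi.add_apply, Finset.sum_add_distrib]
    push_cast
    rfl

theorem ker (x : Zd d) : ρ d p x = 0 ↔ ∃ y, θ d p y = x := by
  constructor
  · intro h
    change ((x 0 : ℤ) : ZMod p) = 0 at h
    rw [ZMod.intCast_zmod_eq_zero_iff_dvd] at h
    obtain ⟨c, hc⟩ := h
    refine ⟨Fin.snoc (fun i : Fin d => x i.succ) c, ?_⟩
    ext i
    refine Fin.cases ?_ (fun i => ?_) i
    · rw [θ_zero, Fin.snoc_last, hc]
    · rw [θ_succ, Fin.snoc_castSucc]
  · rintro ⟨y, rfl⟩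
    change ((θ d p y 0 : ℤ) : ZMod p) = 0
    rw [θ_zero]
    push_cast
    simp

theorem ε_θ (hp : Odd p) (x : Zd d) : ε d (θ d p x) = ε d x := by
  change ((∑ i, θ d p x i : ℤ) : ZMod 2) = ((∑ i, x i : ℤ) : ZMod 2)
  rw [Fin.sum_univ_succ, Fin.sum_univ_castSucc, θ_zero]
  simp only [θ_succ]
  push_cast
  have h : (p : ZMod 2) = 1 := by
    obtain ⟨k, rfl⟩ := hp
    push_cast
    have : (2 : ZMod 2) = 0 := by decide
    rw [this]; ring
  rw [h]
  ring

/-- weighted norm -/
def μ (n : Zd d) : ℕ := ∑ i : Fin (d + 1), ((i : ℕ) + d + 1) * (n i).natAbs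

theorem μ_θ (hp : 3 ≤ p) (n : Zd d) (hn : n ≠ 0) : μ d n + 1 ≤ μ d (θ d p n) := by
  unfold μ
  rw [Fin.sum_univ_succ (f := fun i : Fin (d + 1) => ((i : ℕ) + d + 1) * (θ d p n i).natAbs),
    Fin.sum_univ_castSucc]
  simp only [θ_zero, θ_succ, Fin.val_zero, Fin.val_succ, Fin.val_castSucc, Fin.val_last]
  rw [Int.natAbs_mul, Int.natAbs_natCast]
  have h1 : ∑ i : Fin d, ((i : ℕ) + 1 + d + 1) * (n i.castSucc).natAbs =
      ∑ i : Fin d, ((i : ℕ) + d + 1) * (n i.castSucc).natAbs +
        ∑ i : Fin d, (n i.castSucc).natAbs := by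
    rw [← Finset.sum_add_distrib]
    refine Finset.sum_congr rfl (fun i _ => ?_)
    ring
  rw [h1]
  have h2 : (0 + d + 1) * (p * (n (Fin.last d)).natAbs) ≥
      (d + d + 1) * (n (Fin.last d)).natAbs + (n (Fin.last d)).natAbs := by
    have : (d + 1) * (p * (n (Fin.last d)).natAbs) ≥ (d + 1) * (3 * (n (Fin.last d)).natAbs) :=
      Nat.mul_le_mul_left _ (Nat.mul_le_mul_right _ hp)
    nlinarith [Nat.zero_le ((n (Fin.last d)).natAbs), Nat.zero_le (d * (n (Fin.last d)).natAbs)]
  have h3 : 1 ≤ ∑ i : Fin d, (n i.castSucc).natAbs + (n (Fin.last d)).natAbs := by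
    by_contra hcon
    apply hn
    have h4 : ∑ i : Fin d, (n i.castSucc).natAbs = 0 := by omega
    have h5 : (n (Fin.last d)).natAbs = 0 := by omega
    rw [Finset.sum_eq_zero_iff] at h4
    ext i
    refine Fin.lastCases ?_ (fun i => ?_) i
    · simpa using h5
    · simpa using h4 i (Finset.mem_univ _)
  omega

theorem arch (hp : 3 ≤ p) (x : Zd d) (hx : x ≠ 0) : ∃ k : ℕ, ¬ ∃ y, (θ d p)^[k + 1] y = x := by
  have key : ∀ (k : ℕ) (y : Zd d), y ≠ 0 → k ≤ μ d ((θ d p)^[k] y) ∧ (θ d p)^[k] y ≠ 0 := by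
    intro k
    induction k with
    | zero => intro y hy; exact ⟨Nat.zero_le _, hy⟩
    | succ k ih =>
      intro y hy
      obtain ⟨h1, h2⟩ := ih y hy
      rw [Function.iterate_succ_apply']
      refine ⟨?_, ?_⟩
      · have := μ_θ d p hp _ h2
        omega
      · intro h
        exact h2 (θ_inj d p (by omega) (by rw [h, map_zero]))
  refine ⟨μ d x, ?_⟩
  rintro ⟨y, hy⟩
  have hy0 : y ≠ 0 := by
    rintro rfl
    apply hx
    rw [← hy]
    clear hy
    induction μ d x + 1 with
    | zero => rfl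
    | succ k ih => rw [Function.iterate_succ_apply', ih, map_zero]
  have := (key (μ d x + 1) y hy0).1
  rw [hy] at this
  omega

/-- the digit system on `ℤ^(d+1)` -/
noncomputable def digZd (hp : Odd p) (hp3 : 3 ≤ p) : Dig p (Zd d) :=
  mkDig (θ d p) (θ_inj d p (by omega)) (ρ d p) (u d) (by simp [ρ, u]) (ker d p) (ε d)
    (ε_θ d p hp) (by
      change ((∑ i, u d i : ℤ) : ZMod 2) = 1
      rw [Fin.sum_univ_succ]
      simp [u]) (arch d p hp3)

end Zd

end Pool.Agent.H829R3.BT3
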