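import Mathlib
import Pool.Agent.H829R3.BT2

set_option autoImplicit false

namespace Pool.Agent.H829R3.BT4

open Pool.Agent.H829R3.BG5 Pool.Agent.H829R3.BT1 Pool.Agent.H829R3.BT2
open Pool.Agent.Results.MP_291637_al.NotBGroup (IsBGroup)
open MulAction
open scoped Pointwise

/-- a group acting regularly on the vertices of the graph, preserving adjacency, is not a
B-group -/
theorem not_isBGroup_of_equiv {p : ℕ} {Λ : Type} [AddCommGroup Λ] [NeZero p] (S : Dig p Λ)
    (h2 : (2 : ZMod p) ≠ 0) {X : Type} [Group X] (e : X ≃ M p Λ)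
    (hinv : ∀ g x y : X, adj S (e (x * g)) (e (y * g)) ↔ adj S (e x) (e y)) : ¬ IsBGroup X := by
  classical
  intro hB
  let A : X → X → Prop := fun x y => adj S (e x) (e y)
  have hmem : ∀ σ ∈ Aut (adj S), e.trans (σ.trans e.symm) ∈ Aut A := by
    intro σ hσ x y
    change adj S (e (e.symm (σ (e x)))) (e (e.symm (σ (e y)))) ↔ adj S (e x) (e y)
    rw [e.apply_symm_apply, e.apply_symm_apply]
    exact hσ _ _
  have hprim : IsPreprimitive (Aut A) X := by
    refine preprimitive_of_connect (Aut A) ?_ ?_
    · intro x y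
      obtain ⟨σ, hσ, h⟩ := BT2.trans S (e x) (e y)
      refine ⟨_, hmem σ hσ, ?_⟩
      change e.symm (σ (e x)) = y
      rw [h, e.symm_apply_apply]
    · intro R Rs Rt Rinv x y hxy hR
      have hc := connect S (fun a b => R (e.symm a) (e.symm b)) (fun a b h => Rs _ _ h)
        (fun a b c h h' => Rt _ _ _ h h') (by
          intro σ hσ a b h
          have := Rinv _ (hmem σ hσ) _ _ h
          simpa using this) h2 (e x) (e y) (fun h => hxy (e.injective h)) (by simpa using hR)
      intro u v
      have := hc (e u) (e v)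
      simpa using this
  have h3 := hB X (Aut A) hprim (regular (Aut A) (fun g x y => hinv g⁻¹ x y))
  rw [is_two_pretransitive_iff] at h3
  obtain ⟨⟨σ, hσ⟩, h4, h5⟩ := h3 (a := e.symm (none, 0)) (b := e.symm (some 0, 0))
    (c := e.symm (none, 0)) (d := e.symm (some 0, S.u)) (by simp) (by simp)
  change σ _ = _ at h4
  change σ _ = _ at h5
  have h6 := (hσ (e.symm (none, 0)) (e.symm (some 0, 0))).mpr (by
    change adj S (e (e.symm _)) (e (e.symm _))
    rw [e.apply_symm_apply, e.apply_symm_apply]
    exact adj1 S)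
  rw [h4, h5] at h6
  change adj S (e (e.symm _)) (e (e.symm _)) at h6
  rw [e.apply_symm_apply, e.apply_symm_apply] at h6
  exact nadj S h6

/-- **Criterion.** A group with a subgroup isomorphic to a digit system's lattice, of index
`p + 1`, and a homomorphism to `C₂` extending its parity, is not a B-group. -/
theorem criterion {p : ℕ} {Λ : Type} [AddCommGroup Λ] [NeZero p] (S : Dig p Λ)
    (h2 : (2 : ZMod p) ≠ 0) {X : Type} [Group X] (f : Multiplicative Λ →* X)
    (hf : Function.Injective f) (hidx : f.range.index = p + 1) (E : X →* Multiplicative (ZMod 2))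
    (hE : ∀ l : Λ, E (f (Multiplicative.ofAdd l)) = Multiplicative.ofAdd (S.ε l)) :
    ¬ IsBGroup X := by
  classical
  let Q := Quotient (QuotientGroup.rightRel f.range)
  let mk : X → Q := fun x => Quotient.mk _ x
  have mk_eq : ∀ x y, mk x = mk y ↔ y * x⁻¹ ∈ f.range := by
    intro x y
    change Quotient.mk _ x = Quotient.mk _ y ↔ _
    rw [Quotient.eq, QuotientGroup.rightRel_apply]
  have hz : ∀ a : Multiplicative (ZMod 2), a = 1 ∨ a = Multiplicative.ofAdd 1 := by decide
  -- representatives of parity zero
  have hrep : ∀ q : Q, ∃ x : X, mk x = q ∧ E x = 1 := by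
    intro q
    obtain ⟨x, rfl⟩ := Quotient.exists_rep q
    rcases hz (E x) with h | h
    · exact ⟨x, rfl, h⟩
    · refine ⟨f (Multiplicative.ofAdd S.u) * x, ?_, ?_⟩
      · change mk _ = mk x
        rw [mk_eq]
        have e1 : x * (f (Multiplicative.ofAdd S.u) * x)⁻¹ = (f (Multiplicative.ofAdd S.u))⁻¹ := by
          group
        rw [e1]
        exact inv_mem ⟨_, rfl⟩
      · rw [map_mul, hE, S.εu, h]
        decide
  choose r hr1 hr2 using hrep
  have hlam : ∀ x : X, ∃ l : Λ, f (Multiplicative.ofAdd l) = x * (r (mk x))⁻¹ := by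
    intro x
    have h := (mk_eq (r (mk x)) x).mp (hr1 _)
    obtain ⟨l, hl⟩ := h
    exact ⟨Multiplicative.toAdd l, hl⟩
  choose lam hlam using hlam
  have hx : ∀ x, x = f (Multiplicative.ofAdd (lam x)) * r (mk x) := by
    intro x
    rw [hlam]; group
  have hcard : Nat.card Q = Nat.card (Option (ZMod p)) := by
    have h1 : Nat.card Q = f.range.index :=
      Nat.card_congr (QuotientGroup.quotientRightRelEquivQuotientLeftRel f.range)
    rw [h1, hidx, Nat.card_eq_fintype_card, Fintype.card_option, ZMod.card]
  have hfin : Finite Q := by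
    apply Nat.finite_of_card_ne_zero
    rw [hcard, Nat.card_eq_fintype_card, Fintype.card_option]
    omega
  obtain ⟨κ⟩ : Nonempty (Q ≃ Option (ZMod p)) := by
    have : Fintype Q := Fintype.ofFinite Q
    rw [Nat.card_eq_fintype_card, Nat.card_eq_fintype_card] at hcard
    exact ⟨Fintype.equivOfCardEq hcard⟩
  let F : X → M p Λ := fun x => (κ (mk x), lam x)
  have Fbij : Function.Bijective F := by
    constructor
    · intro x y hxy
      have h1 : mk x = mk y := κ.injective (congrArg Prod.fst hxy)
      have h3 : lam x = lam y := congrArg Prod.snd hxy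
      rw [hx x, hx y, h1, h3]
    · rintro ⟨c, l⟩
      have h1 : mk (f (Multiplicative.ofAdd l) * r (κ.symm c)) = κ.symm c := by
        rw [← hr1 (κ.symm c), mk_eq, hr1]
        have e1 : r (κ.symm c) * (f (Multiplicative.ofAdd l) * r (κ.symm c))⁻¹ =
            (f (Multiplicative.ofAdd l))⁻¹ := by group
        rw [e1]
        exact inv_mem ⟨_, rfl⟩
      refine ⟨f (Multiplicative.ofAdd l) * r (κ.symm c), ?_⟩
      apply Prod.ext
      · change κ (mk _) = c
        rw [h1, κ.apply_symm_apply]
      · change lam _ = l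
        have h3 := hlam (f (Multiplicative.ofAdd l) * r (κ.symm c))
        rw [h1, mul_inv_cancel_right] at h3
        exact Multiplicative.ofAdd.injective (hf h3)
  let e : X ≃ M p Λ := Equiv.ofBijective F Fbij
  have hε : ∀ x, S.ε (lam x) = Multiplicative.toAdd (E x) := by
    intro x
    have h1 : E x = Multiplicative.ofAdd (S.ε (lam x)) := by
      conv_lhs => rw [hx x]
      rw [map_mul, hE, hr2, mul_one]
    rw [h1]; rfl
  refine not_isBGroup_of_equiv S h2 e ?_
  intro g x y
  have hcos : mk (x * g) = mk (y * g) ↔ mk x = mk y := by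
    rw [mk_eq, mk_eq]
    have e1 : y * g * (x * g)⁻¹ = y * x⁻¹ := by group
    rw [e1]
  have hdiff : ∀ a b : X, mk a = mk b →
      f (Multiplicative.ofAdd (lam a - lam b)) = a * b⁻¹ := by
    intro a b hab
    rw [ofAdd_sub, map_div, hlam, hlam, hab, div_eq_mul_inv]
    group
  have hcol : col S (e (x * g)) (e (y * g)) = col S (e x) (e y) := by
    change col S (κ (mk (x * g)), lam (x * g)) (κ (mk (y * g)), lam (y * g)) =
      col S (κ (mk x), lam x) (κ (mk y), lam y)
    unfold col
    simp only [κ.injective.eq_iff, hcos, hε, map_mul, toAdd_mul]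
    by_cases h : mk x = mk y
    · rw [if_pos h, if_pos h]
      have h3 : lam (x * g) - lam (y * g) = lam x - lam y := by
        have h4 := hdiff (x * g) (y * g) (hcos.mpr h)
        have h5 := hdiff x y h
        have e1 : x * g * (y * g)⁻¹ = x * y⁻¹ := by group
        rw [e1, ← h5] at h4
        exact Multiplicative.ofAdd.injective (hf h4)
      rw [h3]
      have := z2 (Multiplicative.toAdd (E g))
      linear_combination this
    · rw [if_neg h, if_neg h]
      have := z2 (Multiplicative.toAdd (E g))
      linear_combination this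
  unfold adj
  rw [hcol, e.injective.ne_iff, e.injective.ne_iff]
  simp

end Pool.Agent.H829R3.BT4
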