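import Mathlib
import Pool.Agent.H829R3.BT3
import Pool.Agent.H829R3.BT4
import Pool.Agent.H829R3.BG3

set_option autoImplicit false

namespace Pool.Agent.H829R3.BT5

open Pool.Agent.H829R3.BG2 Pool.Agent.H829R3.BG3
open Pool.Agent.H829R3.BT1 Pool.Agent.H829R3.BT3 Pool.Agent.H829R3.BT4
open Pool.Agent.Results.MP_291637_al.NotBGroup (IsBGroup)

/-- If the infinite group `X` fails (†), every torsion-free subgroup of finite index containing an
element of infinite order has even index. -/
theorem even_index {X : Type} [Group X] [Infinite X] (hX : Covered X) (A : Subgroup X)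
    (hA : ∀ a ∈ A, IsOfFinOrder a → a = 1) (a : X) (ha : a ∈ A) (ha1 : a ≠ 1)
    (hfi : A.FiniteIndex) : Even A.index := by
  classical
  by_contra hodd
  obtain ⟨v, _, hJ⟩ := inverting hX
  have hv := finOrder hX v hJ
  have hD := D_finite hX
  obtain ⟨k, m, hm, hkm⟩ := Nat.exists_eq_two_pow_mul_odd (orderOf_pos_iff.mpr hv).ne'
  -- w = v ^ m has 2-power order
  have hw : (v ^ m) ^ (2 ^ k) = 1 := by
    rw [← pow_mul, mul_comm, ← hkm, pow_orderOf_eq_one]
  have hP : IsPGroup 2 (Subgroup.zpowers (v ^ m)) := by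
    rintro ⟨_, j, rfl⟩
    refine ⟨k, ?_⟩
    ext
    simp only [SubgroupClass.coe_pow, Subgroup.coe_one]
    rw [← zpow_natCast, ← zpow_mul, mul_comm, zpow_mul, zpow_natCast, hw, one_zpow]
  have hfq : Finite (X ⧸ A) := Subgroup.finite_quotient_of_finiteIndex
  have hcard : ¬ 2 ∣ Nat.card (X ⧸ A) := by
    intro h
    exact hodd (even_iff_two_dvd.mpr h)
  obtain ⟨y, hy⟩ := hP.nonempty_fixed_point_of_prime_not_dvd_card (X ⧸ A) hcard
  obtain ⟨x, rfl⟩ := QuotientGroup.mk_surjective y
  have h1 := hy ⟨v ^ m, Subgroup.mem_zpowers _⟩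
  have h2 : (((v ^ m * x : X)) : X ⧸ A) = (x : X ⧸ A) := h1
  have h3 : x⁻¹ * (v ^ m * x) ∈ A := QuotientGroup.eq.mp h2.symm
  have h4 : IsOfFinOrder (x⁻¹ * (v ^ m * x)) := by
    rw [isOfFinOrder_iff_pow_eq_one]
    refine ⟨2 ^ k, by positivity, ?_⟩
    have e : x⁻¹ * (v ^ m * x) = x⁻¹ * v ^ m * x⁻¹⁻¹ := by group
    rw [e, conj_pow, hw]
    group
  have h5 := hA _ h3 h4
  have h6 : v ^ m = 1 := by
    have e : v ^ m = x * (x⁻¹ * (v ^ m * x)) * x⁻¹ := by group
    rw [e, h5]; group
  -- every element of `J v` has finite order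
  have key : ∀ t ∈ J v, ∀ j : ℕ,
      ((q v : X ⧸ D X) ^ j)⁻¹ * q t * (q v) ^ j = q t ^ ((-1 : ℤ) ^ j) := by
    intro t ht j
    induction j with
    | zero => simp
    | succ j ih =>
      have e : ((q v : X ⧸ D X) ^ (j + 1))⁻¹ * q t * (q v) ^ (j + 1) =
          (q v)⁻¹ * (((q v) ^ j)⁻¹ * q t * (q v) ^ j) * q v := by
        rw [pow_succ]; group
      have e2 : (q v : X ⧸ D X)⁻¹ * (q t ^ ((-1 : ℤ) ^ j)) * q v =
          ((q v)⁻¹ * q t * q v) ^ ((-1 : ℤ) ^ j) := by
        have := conj_zpow (a := (q v : X ⧸ D X)⁻¹) (b := q t) (i := (-1 : ℤ) ^ j)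
        simpa using this.symm
      rw [e, ih, e2, ht.2, inv_zpow', pow_succ]
      congr 1
      ring
  have hJfin : ∀ t ∈ J v, IsOfFinOrder t := by
    intro t ht
    have h7 := key t ht m
    rw [← map_pow, h6, map_one, hm.neg_one_pow] at h7
    have h8 : (q (t * t) : X ⧸ D X) = 1 := by
      rw [map_mul]
      nth_rewrite 1 [show (q t : X ⧸ D X) = (1 : X ⧸ D X)⁻¹ * q t * 1 by group]
      rw [h7]
      group
    have h9 : t * t ∈ D X := by
      rwa [QuotientGroup.mk'_apply, QuotientGroup.eq_one_iff] at h8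
    have h10 : IsOfFinOrder (⟨t * t, h9⟩ : D X) := isOfFinOrder_of_finite _
    have h11 : IsOfFinOrder (t * t) := (D X).subtype.isOfFinOrder h10
    rw [← sq] at h11
    exact h11.of_pow (by norm_num)
  obtain ⟨j, hj0, _, hj⟩ := Subgroup.exists_pow_mem_of_index_ne_zero hJ.index_ne_zero a
  have h12 : IsOfFinOrder (a ^ j) := hJfin _ hj
  exact ha1 (hA a ha (h12.of_pow (by omega)))

section basis
variable (d : ℕ)

/-- the coefficient vector -/
def coef (e : Zd d →+ ZMod 2) (i : Fin (d + 1)) : ZMod 2 := e (Pi.single i 1)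

theorem hom_eq (e : Zd d →+ ZMod 2) (n : Zd d) : e n = ∑ i, (n i : ZMod 2) * coef d e i := by
  have h : n = ∑ i, n i • (Pi.single i 1 : Zd d) := by
    ext j
    simp [Finset.sum_apply, Pi.single_apply]
  conv_lhs => rw [h]
  rw [map_sum]
  refine Finset.sum_congr rfl (fun i _ => ?_)
  rw [map_zsmul, zsmul_eq_mul]
  rfl

/-- the sum of the coordinates with coefficient zero -/
def ls (e : Zd d →+ ZMod 2) : Zd d →+ ℤ where
  toFun n := ∑ i, if coef d e i = 0 then n i else 0
  map_zero' := by simp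
  map_add' := by
    intro a b
    rw [← Finset.sum_add_distrib]
    refine Finset.sum_congr rfl (fun i _ => ?_)
    by_cases h : coef d e i = 0 <;> simp [h]

theorem ls_single (e : Zd d →+ ZMod 2) (i0 : Fin (d + 1)) (h0 : coef d e i0 = 1) (z : ℤ) :
    ls d e (Pi.single i0 z) = 0 := by
  change (∑ i, if coef d e i = 0 then (Pi.single i0 z : Zd d) i else 0) = 0
  refine Finset.sum_eq_zero (fun i _ => ?_)
  by_cases h : coef d e i = 0
  · have : i ≠ i0 := by
      rintro rfl
      rw [h0] at h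
      exact one_ne_zero h
    simp [h, this]
  · simp [h]

/-- the change of basis -/
def φ (e : Zd d →+ ZMod 2) (i0 : Fin (d + 1)) : Zd d →+ Zd d where
  toFun n := n + Pi.single i0 (ls d e n)
  map_zero' := by simp
  map_add' := by
    intro a b
    rw [map_add, Pi.single_add]
    abel

theorem φ_bij (e : Zd d →+ ZMod 2) (i0 : Fin (d + 1)) (h0 : coef d e i0 = 1) :
    Function.Bijective (φ d e i0) := by
  have h1 : ∀ n, ls d e (φ d e i0 n) = ls d e n := by
    intro n
    change ls d e (n + Pi.single i0 (ls d e n)) = _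
    rw [map_add, ls_single d e i0 h0, add_zero]
  constructor
  · intro a b hab
    have h2 := congrArg (ls d e) hab
    rw [h1, h1] at h2
    change a + Pi.single i0 (ls d e a) = b + Pi.single i0 (ls d e b) at hab
    rw [h2] at hab
    exact add_right_cancel hab
  · intro n
    refine ⟨n - Pi.single i0 (ls d e n), ?_⟩
    change n - Pi.single i0 (ls d e n) + Pi.single i0 (ls d e (n - Pi.single i0 (ls d e n))) = n
    rw [map_sub, ls_single d e i0 h0, sub_zero, sub_add_cancel]

theorem e_φ (e : Zd d →+ ZMod 2) (i0 : Fin (d + 1)) (h0 : coef d e i0 = 1) (n : Zd d) :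
    e (φ d e i0 n) = ε d n := by
  change e (n + Pi.single i0 (ls d e n)) = ((∑ i, n i : ℤ) : ZMod 2)
  have h1 : (Pi.single i0 (ls d e n) : Zd d) = (ls d e n) • (Pi.single i0 1 : Zd d) := by
    ext j
    simp [Pi.single_apply]
  rw [map_add, h1, map_zsmul, hom_eq]
  change _ + (ls d e n) • coef d e i0 = _
  rw [h0, zsmul_eq_mul, mul_one]
  change _ + (((∑ i, if coef d e i = 0 then n i else 0 : ℤ)) : ZMod 2) = _
  push_cast
  rw [← Finset.sum_add_distrib]
  refine Finset.sum_congr rfl (fun i _ => ?_)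
  have hz : ∀ c : ZMod 2, c = 0 ∨ c = 1 := by decide
  rcases hz (coef d e i) with h | h
  · simp [h]
  · simp [h]

end basis

/-- **Virtually free abelian groups.** -/
theorem lattice (d : ℕ) (X : Type) [Group X] (f : Multiplicative (Fin (d + 1) → ℤ) →* X)
    (hf : Function.Injective f) (hfi : f.range.FiniteIndex)
    (E : X →* Multiplicative (ZMod 2)) (hE : ∃ l, E (f l) ≠ 1) : ¬ IsBGroup X := by
  classical
  have hinf : Infinite (Multiplicative (Fin (d + 1) → ℤ)) := by
    refine Infinite.of_injective (fun z : ℤ => Multiplicative.ofAdd (fun _ => z)) ?_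
    intro a b hab
    exact congrFun (Multiplicative.ofAdd.injective hab) 0
  have : Infinite X := Infinite.of_injective f hf
  have hcr : Countable f.range := by
    have : Countable (Multiplicative (Fin (d + 1) → ℤ)) :=
      inferInstanceAs (Countable (Fin (d + 1) → ℤ))
    exact (Set.countable_range f).to_subtype
  have hfq : Finite (X ⧸ f.range) := Subgroup.finite_quotient_of_finiteIndex
  have : Countable X := (Subgroup.groupEquivQuotientProdSubgroup (s := f.range)).countable_iff.mpr
    inferInstance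
  by_cases hX : Covered X
  swap
  · exact Pool.Agent.H829R3.BG5.not_isBGroup hX
  -- torsion-freeness
  have htf : ∀ a ∈ f.range, IsOfFinOrder a → a = 1 := by
    rintro _ ⟨l, rfl⟩ hl
    rw [isOfFinOrder_iff_pow_eq_one] at hl
    obtain ⟨n, hn, h⟩ := hl
    rw [← map_pow] at h
    have h1 : l ^ n = 1 := hf (by rw [h, map_one])
    have h2 : n • (Multiplicative.toAdd l) = 0 := by
      have := congrArg Multiplicative.toAdd h1
      simpa using this
    have h3 : Multiplicative.toAdd l = 0 := by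
      ext i
      have := congrFun h2 i
      simpa [hn.ne'] using this
    have h4 : l = 1 := by
      rw [← ofAdd_toAdd l, h3]; rfl
    rw [h4, map_one]
  obtain ⟨l0, hl0⟩ := hE
  have hne : f l0 ≠ 1 := by
    intro h
    rw [h, map_one] at hl0
    exact hl0 rfl
  have heven := even_index hX f.range htf (f l0) ⟨l0, rfl⟩ hne hfi
  -- the parity on the lattice
  let e : Zd d →+ ZMod 2 :=
    { toFun := fun n => Multiplicative.toAdd (E (f (Multiplicative.ofAdd n)))
      map_zero' := by simp
      map_add' := by intro a b; simp }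
  have he : ∀ n, E (f (Multiplicative.ofAdd n)) = Multiplicative.ofAdd (e n) := fun n => rfl
  have hi0 : ∃ i0, coef d e i0 = 1 := by
    by_contra hcon
    push Not at hcon
    have hz : ∀ c : ZMod 2, c ≠ 1 → c = 0 := by decide
    have h1 : e (Multiplicative.toAdd l0) = 0 := by
      rw [hom_eq]
      refine Finset.sum_eq_zero (fun i _ => ?_)
      rw [hz _ (hcon i), mul_zero]
    apply hl0
    have h2 := he (Multiplicative.toAdd l0)
    rw [h1, ofAdd_toAdd] at h2
    rw [h2]; rfl
  obtain ⟨i0, hi0⟩ := hi0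
  let Φ : Multiplicative (Zd d) →* Multiplicative (Zd d) := AddMonoidHom.toMultiplicative (φ d e i0)
  let Θ : Multiplicative (Zd d) →* Multiplicative (Zd d) := AddMonoidHom.toMultiplicative (θ d 3)
  let Ρ : Multiplicative (Zd d) →* Multiplicative (ZMod 3) :=
    AddMonoidHom.toMultiplicative (ρ d 3)
  have hΦ : Function.Bijective Φ := φ_bij d e i0 hi0
  have hΘ : Function.Injective Θ := θ_inj d 3 (by norm_num)
  let F1 : Multiplicative (Zd d) →* X := f.comp Φ
  have hF1 : Function.Injective F1 := hf.comp hΦ.1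
  have hF1r : F1.range = f.range := by
    change (f.comp Φ).range = f.range
    rw [MonoidHom.range_comp, MonoidHom.range_eq_top.mpr hΦ.2, ← MonoidHom.range_eq_map]
  have hΘr : Θ.range = Ρ.ker := by
    ext x
    rw [MonoidHom.mem_range, MonoidHom.mem_ker]
    constructor
    · rintro ⟨y, rfl⟩
      exact (ker d 3 _).mpr ⟨y, rfl⟩
    · intro h
      obtain ⟨y, hy⟩ := (ker d 3 x).mp h
      exact ⟨y, hy⟩
  have hΡ : Ρ.range = ⊤ := by
    rw [MonoidHom.range_eq_top]
    intro z
    refine ⟨Multiplicative.ofAdd (fun _ => ((Multiplicative.toAdd z).val : ℤ)), ?_⟩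
    change (((Multiplicative.toAdd z).val : ℤ) : ZMod 3) = Multiplicative.toAdd z
    simp
  have hΘi : Θ.range.index = 3 := by
    rw [hΘr, Subgroup.index_ker, hΡ]
    rw [Nat.card_congr (Subgroup.topEquiv (G := Multiplicative (ZMod 3))).toEquiv]
    change Nat.card (ZMod 3) = 3
    simp
  have hidx : (F1.comp Θ).range.index = 3 * f.range.index := by
    rw [MonoidHom.range_comp, Subgroup.index_map_of_injective _ hF1, hΘi, hF1r]
  have hn0 : f.range.index ≠ 0 := hfi.index_ne_zero
  obtain ⟨k, hk⟩ := heven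
  obtain ⟨p, hp⟩ : ∃ p, p = 3 * f.range.index - 1 := ⟨_, rfl⟩
  have hp1 : p + 1 = 3 * f.range.index := by omega
  have hp3 : 3 ≤ p := by omega
  have hpo : Odd p := ⟨3 * k - 1, by omega⟩
  have : NeZero p := ⟨by omega⟩
  have h2 : (2 : ZMod p) ≠ 0 := by
    intro h
    have h3 : ((2 : ℕ) : ZMod p) = 0 := by exact_mod_cast h
    rw [ZMod.natCast_eq_zero_iff] at h3
    have := Nat.le_of_dvd (by norm_num) h3
    omega
  refine criterion (digZd d p hpo hp3) h2 (F1.comp Θ) (hF1.comp hΘ) (by rw [hidx, hp1]) E ?_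
  intro l
  change E (f (Multiplicative.ofAdd (φ d e i0 (θ d 3 l)))) = Multiplicative.ofAdd (ε d l)
  rw [he, e_φ d e i0 hi0, ε_θ d 3 (by decide)]

end Pool.Agent.H829R3.BT5
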