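import Mathlib
import Pool.Agent.H829R3.BT5

set_option autoImplicit false

namespace Pool.Agent.H829R3.BV1

open Pool.Agent.H829R3.BG1 Pool.Agent.H829R3.BG2 Pool.Agent.H829R3.BG3
open Pool.Agent.H829R3.BT5
open Pool.Agent.Results.MP_291637_al.NotBGroup (IsBGroup)

/-- a normal infinite cyclic subgroup of finite index -/
theorem exists_c {X : Type} [Group X] [Infinite X] (a : X)
    (ha : (Subgroup.zpowers a).FiniteIndex) :
    ∃ c : X, (Subgroup.zpowers c).FiniteIndex ∧ (∀ z : ℤ, c ^ z = 1 → z = 0) ∧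
      ∀ x : X, x⁻¹ * c * x = c ∨ x⁻¹ * c * x = c⁻¹ := by
  classical
  let N := (Subgroup.zpowers a).normalCore
  have hN : N.Normal := Subgroup.normalCore_normal _
  have hNf : N.FiniteIndex := inferInstance
  have hle : N ≤ Subgroup.zpowers a := Subgroup.normalCore_le _
  have hcyc : ∃ c : X, N = Subgroup.zpowers c := by
    let N' : Subgroup (Subgroup.zpowers a) := N.subgroupOf (Subgroup.zpowers a)
    have h1 : IsCyclic N' := inferInstance
    obtain ⟨g, hg⟩ := h1.exists_generator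
    refine ⟨(g : Subgroup.zpowers a), ?_⟩
    ext x
    constructor
    · intro hx
      obtain ⟨k, hk⟩ := Subgroup.mem_zpowers_iff.mp (hg ⟨⟨x, hle hx⟩, hx⟩)
      refine Subgroup.mem_zpowers_iff.mpr ⟨k, ?_⟩
      have := congrArg (fun y : N' => ((y : Subgroup.zpowers a) : X)) hk
      simpa using this
    · intro hx
      obtain ⟨k, rfl⟩ := Subgroup.mem_zpowers_iff.mp hx
      exact N.zpow_mem g.2 k
  obtain ⟨c, hc⟩ := hcyc
  have hcf : (Subgroup.zpowers c).FiniteIndex := by rw [← hc]; exact hNf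
  have hinf : ∀ z : ℤ, c ^ z = 1 → z = 0 := by
    intro z hz
    by_contra hz0
    have h1 : IsOfFinOrder c := isOfFinOrder_iff_zpow_eq_one.mpr ⟨z, hz0, hz⟩
    have h2 : Finite (Subgroup.zpowers c) := h1.finite_zpowers
    have h3 : Finite (X ⧸ Subgroup.zpowers c) := Subgroup.finite_quotient_of_finiteIndex
    have h4 : Finite X :=
      Finite.of_equiv _ (Subgroup.groupEquivQuotientProdSubgroup (s := Subgroup.zpowers c)).symm
    exact not_finite X
  refine ⟨c, hcf, hinf, ?_⟩
  have hmem : ∀ x : X, ∃ j : ℤ, c ^ j = x⁻¹ * c * x := by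
    intro x
    have h1 : x⁻¹ * c * x⁻¹⁻¹ ∈ N := hN.conj_mem c (by rw [hc]; exact Subgroup.mem_zpowers c) x⁻¹
    rw [inv_inv, hc] at h1
    exact Subgroup.mem_zpowers_iff.mp h1
  intro x
  obtain ⟨j, hj⟩ := hmem x
  obtain ⟨l, hl⟩ := hmem x⁻¹
  have h1 : c ^ (l * j) = c := by
    -- c^j = x⁻¹ c x, c^l = x c x⁻¹ ; c^(lj) = (c^j)^l = x⁻¹ c^l x = c
    have h2 : c ^ (l * j) = x⁻¹ * c ^ l * x := by
      rw [mul_comm, zpow_mul, hj]
      have := conj_zpow (a := x⁻¹) (b := c) (i := l)
      simpa using this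
    rw [h2, hl]
    group
  have h3 : l * j = 1 := by
    have h4 : c ^ (l * j - 1) = 1 := by rw [zpow_sub, h1, zpow_one, mul_inv_cancel]
    have := hinf _ h4
    omega
  rcases Int.eq_one_or_neg_one_of_mul_eq_one' h3 with ⟨_, h4⟩ | ⟨_, h4⟩
  · left; rw [← hj, h4, zpow_one]
  · right; rw [← hj, h4, zpow_neg, zpow_one]

/-- the power map on the centraliser of `c` -/
theorem exists_chi {X : Type} [Group X] (c : X)
    (hcf : (Subgroup.zpowers c).FiniteIndex) :
    ∃ T : ℕ, 0 < T ∧ (∀ x ∈ Subgroup.centralizer {c}, ∃ j : ℤ, c ^ j = x ^ T) ∧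
      ∀ x ∈ Subgroup.centralizer {c}, ∀ y ∈ Subgroup.centralizer {c},
        (x * y) ^ T = x ^ T * y ^ T := by
  classical
  let C := Subgroup.centralizer ({c} : Set X)
  have hcC : c ∈ C := by
    rw [Subgroup.mem_centralizer_iff]
    intro h hh
    rw [Set.mem_singleton_iff] at hh
    rw [hh]
  let c' : C := ⟨c, hcC⟩
  have hcen : c' ∈ Subgroup.center C := by
    rw [Subgroup.mem_center_iff]
    rintro ⟨g, hg⟩
    ext
    have := (Subgroup.mem_centralizer_iff.mp hg) c rfl
    exact this.symm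
  let Z := Subgroup.zpowers c'
  have hZle : Z ≤ Subgroup.center C := by
    rw [Subgroup.zpowers_le]
    exact hcen
  have hZf : Z.FiniteIndex := by
    have h1 : Z = (Subgroup.zpowers c).subgroupOf C := by
      ext ⟨x, hx⟩
      rw [Subgroup.mem_subgroupOf, Subgroup.mem_zpowers_iff, Subgroup.mem_zpowers_iff]
      constructor
      · rintro ⟨k, hk⟩
        exact ⟨k, by simpa [c'] using congrArg Subtype.val hk⟩
      · rintro ⟨k, hk⟩
        exact ⟨k, by ext; simpa [c'] using hk⟩
    rw [h1]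
    infer_instance
  have hcenf : (Subgroup.center C).FiniteIndex := Subgroup.finiteIndex_of_le hZle
  have hZn : Z.Normal := ⟨by
    intro n hn g
    have h1 := (Subgroup.mem_center_iff.mp (hZle hn)) g
    rw [h1, mul_assoc, mul_inv_cancel, mul_one]
    exact hn⟩
  refine ⟨(Subgroup.center C).index * Z.index,
    Nat.mul_pos (Nat.pos_of_ne_zero hcenf.index_ne_zero) (Nat.pos_of_ne_zero hZf.index_ne_zero),
    ?_, ?_⟩
  · intro x hx
    have h1 : ((⟨x, hx⟩ : C) ^ (Subgroup.center C).index) ^ Z.index ∈ Z := Z.pow_index_mem _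
    obtain ⟨j, hj⟩ := Subgroup.mem_zpowers_iff.mp h1
    refine ⟨j, ?_⟩
    have := congrArg Subtype.val hj
    rw [pow_mul]
    simpa [c'] using this
  · intro x hx y hy
    have h1 := (MonoidHom.transferCenterPow C).map_mul ⟨x, hx⟩ ⟨y, hy⟩
    have h2 := congrArg (fun z : Subgroup.center C => ((z : C) : X)) h1
    simp only [MonoidHom.transferCenterPow_apply, Subgroup.coe_mul, SubgroupClass.coe_pow] at h2
    have h3 : Commute (x ^ (Subgroup.center C).index) (y ^ (Subgroup.center C).index) := by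
      have h4 := (Subgroup.mem_center_iff.mp
        ((Subgroup.center C).pow_index_mem (⟨x, hx⟩ : C))) (⟨y, hy⟩ ^ (Subgroup.center C).index)
      have h5 := congrArg Subtype.val h4
      simp only [Subgroup.coe_mul, SubgroupClass.coe_pow] at h5
      exact h5.symm
    rw [pow_mul, pow_mul, pow_mul, h2, h3.mul_pow]

end Pool.Agent.H829R3.BV1
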