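import Mathlib
import Pool.Agent.H829R3.BV1

set_option autoImplicit false

namespace Pool.Agent.H829R3.BV2

open Pool.Agent.H829R3.BG1 Pool.Agent.H829R3.BG2 Pool.Agent.H829R3.BG3
open Pool.Agent.H829R3.BT5 Pool.Agent.H829R3.BV1
open Pool.Agent.Results.MP_291637_al.NotBGroup (IsBGroup)

theorem virtuallyCyclic (X : Type) [Group X] [Infinite X] (a : X)
    (ha : (Subgroup.zpowers a).FiniteIndex) : ¬ IsBGroup X := by
  classical
  obtain ⟨c, hcf, hinf, hconj⟩ := exists_c a ha
  have hfq : Finite (X ⧸ Subgroup.zpowers c) := Subgroup.finite_quotient_of_finiteIndex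
  have hcc : Countable (Subgroup.zpowers c) := by
    have h : Function.Surjective (fun z : ℤ => (⟨c ^ z, z, rfl⟩ : Subgroup.zpowers c)) := by
      rintro ⟨_, z, rfl⟩
      exact ⟨z, rfl⟩
    exact h.countable
  have : Countable X := (Subgroup.groupEquivQuotientProdSubgroup
    (s := Subgroup.zpowers c)).countable_iff.mpr inferInstance
  by_cases hX : Covered X
  swap
  · exact Pool.Agent.H829R3.BG5.not_isBGroup hX
  obtain ⟨v, _, hJ⟩ := inverting hX
  have hv := finOrder hX v hJ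
  have hD := D_finite hX
  -- powers of `c` of finite order are trivial
  have hfo : ∀ z : ℤ, IsOfFinOrder (c ^ z) → z = 0 := by
    intro z hz
    rw [isOfFinOrder_iff_pow_eq_one] at hz
    obtain ⟨n, hn, h⟩ := hz
    rw [← zpow_natCast, ← zpow_mul] at h
    have := hinf _ h
    have hn' : (n : ℤ) ≠ 0 := by exact_mod_cast hn.ne'
    exact (mul_eq_zero.mp this).resolve_right hn'
  -- `v` inverts `c`
  have hvc : v⁻¹ * c * v = c⁻¹ := by
    rcases hconj v with h | h
    swap
    · exact h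
    exfalso
    obtain ⟨s, hs0, _, hs⟩ := Subgroup.exists_pow_mem_of_index_ne_zero hJ.index_ne_zero c
    have h1 := mem_J_spec v (c ^ s) hs
    have h2 : v⁻¹ * c ^ s * v = c ^ s := by
      have := conj_pow (a := v⁻¹) (b := c) (i := s)
      rw [inv_inv, h] at this
      exact this.symm
    rw [h2, ← pow_add] at h1
    have h3 : IsOfFinOrder (⟨c ^ (s + s), h1⟩ : D X) := isOfFinOrder_of_finite _
    have h4 : IsOfFinOrder (c ^ (s + s)) := (D X).subtype.isOfFinOrder h3
    have h5 := hfo ((s + s : ℕ) : ℤ) (by rw [zpow_natCast]; exact h4)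
    omega
  obtain ⟨T, hT, hex, hmul⟩ := exists_chi c hcf
  let C := Subgroup.centralizer ({c} : Set X)
  have memC : ∀ x : X, x ∈ C ↔ c * x = x * c := by
    intro x
    rw [Subgroup.mem_centralizer_iff]
    simp
  have memC' : ∀ x : X, x ∈ C ↔ x⁻¹ * c * x = c := by
    intro x
    rw [memC]
    constructor
    · intro h
      rw [mul_assoc, h]; group
    · intro h
      nth_rewrite 2 [← h]
      group
  have hcne : c⁻¹ ≠ c := by
    intro h
    have h1 : c ^ (2 : ℤ) = 1 := by
      rw [zpow_two]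
      nth_rewrite 1 [← h]
      group
    have := hinf _ h1
    omega
  have hvC : v ∉ C := by
    rw [memC', hvc]
    exact hcne
  have hnC : ∀ x : X, x ∉ C ↔ x⁻¹ * c * x = c⁻¹ := by
    intro x
    rw [memC']
    constructor
    · intro h
      exact (hconj x).resolve_left h
    · intro h h2
      rw [h] at h2
      exact hcne h2
  have hvv : v ∉ C ∧ ∀ x : X, x ∉ C → v⁻¹ * x ∈ C := by
    refine ⟨hvC, ?_⟩
    intro x hx
    rw [memC']
    have h1 := (hnC x).mp hx
    have h2 : v * c * v⁻¹ = c⁻¹ := by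
      have : c = v * (v⁻¹ * c * v) * v⁻¹ := by group
      rw [hvc] at this
      have h3 : c⁻¹ = (v * c⁻¹ * v⁻¹)⁻¹ := by rw [← this]
      rw [h3]; group
    have e : (v⁻¹ * x)⁻¹ * c * (v⁻¹ * x) = x⁻¹ * (v * c * v⁻¹) * x := by group
    rw [e, h2]
    have e2 : x⁻¹ * c⁻¹ * x = (x⁻¹ * c * x)⁻¹ := by group
    rw [e2, h1, inv_inv]
  have hCconj : ∀ x ∈ C, v⁻¹ * x * v ∈ C := by
    intro x hx
    rw [memC']
    have h2 : v * c * v⁻¹ = c⁻¹ := by
      have : c = v * (v⁻¹ * c * v) * v⁻¹ := by group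
      rw [hvc] at this
      have h3 : c⁻¹ = (v * c⁻¹ * v⁻¹)⁻¹ := by rw [← this]
      rw [h3]; group
    have e : (v⁻¹ * x * v)⁻¹ * c * (v⁻¹ * x * v) = v⁻¹ * (x⁻¹ * (v * c * v⁻¹) * x) * v := by group
    have e2 : x⁻¹ * c⁻¹ * x = (x⁻¹ * c * x)⁻¹ := by group
    rw [e, h2, e2, (memC' x).mp hx]
    have e3 : v⁻¹ * c⁻¹ * v = (v⁻¹ * c * v)⁻¹ := by group
    rw [e3, hvc, inv_inv]
  choose! χ hχ using hex
  have cinj : ∀ i j : ℤ, c ^ i = c ^ j → i = j := by
    intro i j h
    have h1 : c ^ (i - j) = 1 := by rw [zpow_sub, h, mul_inv_cancel]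
    have := hinf _ h1
    omega
  have χmul : ∀ x ∈ C, ∀ y ∈ C, χ (x * y) = χ x + χ y := by
    intro x hx y hy
    apply cinj
    rw [hχ _ (C.mul_mem hx hy), hmul x hx y hy, zpow_add, hχ x hx, hχ y hy]
  have χone : χ 1 = 0 := by
    have := χmul 1 C.one_mem 1 C.one_mem
    rw [mul_one] at this
    omega
  have χinv : ∀ x ∈ C, χ x⁻¹ = - χ x := by
    intro x hx
    have := χmul x hx x⁻¹ (C.inv_mem hx)
    rw [mul_inv_cancel, χone] at this
    omega
  have χzpow : ∀ x ∈ C, ∀ z : ℤ, χ (x ^ z) = z * χ x := by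
    intro x hx z
    apply cinj
    rw [hχ _ (C.zpow_mem hx z), mul_comm, zpow_mul, hχ x hx, ← zpow_natCast, ← zpow_natCast,
      ← zpow_mul, ← zpow_mul, mul_comm]
  have hcC : c ∈ C := (memC c).mpr rfl
  have χc : χ c = T := by
    apply cinj
    rw [hχ c hcC, zpow_natCast]
  have χconj : ∀ x ∈ C, χ (v⁻¹ * x * v) = - χ x := by
    intro x hx
    apply cinj
    rw [hχ _ (hCconj x hx)]
    have h1 : (v⁻¹ * x * v) ^ T = v⁻¹ * x ^ T * v := by
      have := conj_pow (a := v⁻¹) (b := x) (i := T)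
      rwa [inv_inv] at this
    have h2 : v⁻¹ * c ^ (χ x) * v = (v⁻¹ * c * v) ^ (χ x) := by
      have := conj_zpow (a := v⁻¹) (b := c) (i := χ x)
      rw [inv_inv] at this
      exact this.symm
    rw [h1, ← hχ x hx, h2, hvc, inv_zpow, zpow_neg]
  have hv2C : v * v ∈ C := by
    by_contra h
    have h1 := hvv.2 _ h
    have e : v⁻¹ * (v * v) = v := by group
    rw [e] at h1
    exact hvC h1
  have χv2 : χ (v * v) = 0 := by
    apply hfo
    rw [hχ _ hv2C, ← sq]
    exact (hv.pow).pow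
  -- the positive generator of the image
  have hpos : ∃ n : ℕ, 0 < n ∧ ∃ r ∈ C, χ r = n := ⟨T, hT, c, hcC, χc⟩
  obtain ⟨hk0, r, hrC, hr⟩ := Nat.find_spec hpos
  set k := Nat.find hpos with hk
  have hdvd : ∀ x ∈ C, (k : ℤ) ∣ χ x := by
    intro x hx
    by_contra hnd
    have hkpos : (0 : ℤ) < k := by exact_mod_cast hk0
    have h1 : 0 < χ x % k := by
      rcases (Int.emod_nonneg (χ x) hkpos.ne').lt_or_eq with h | h
      · exact h
      · exact absurd (Int.dvd_of_emod_eq_zero h.symm) hnd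
    have h2 : χ x % k < k := Int.emod_lt_of_pos _ hkpos
    have h3 : χ (x * r ^ (-(χ x / k))) = χ x % k := by
      rw [χmul x hx _ (C.zpow_mem hrC _), χzpow r hrC, hr]
      have := Int.emod_add_mul_ediv (χ x) k
      linarith
    have h4 : (χ x % k).toNat < k := by omega
    apply Nat.find_min hpos h4
    refine ⟨by omega, x * r ^ (-(χ x / k)), C.mul_mem hx (C.zpow_mem hrC _), ?_⟩
    rw [h3]
    omega
  -- parity on the centraliser
  let η : X → ZMod 2 := fun x => ((χ x / k : ℤ) : ZMod 2)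
  have hkz : (k : ℤ) ≠ 0 := by exact_mod_cast hk0.ne'
  have ηmul : ∀ x ∈ C, ∀ y ∈ C, η (x * y) = η x + η y := by
    intro x hx y hy
    simp only [η]
    rw [χmul x hx y hy, Int.add_ediv_of_dvd_left (hdvd x hx)]
    push_cast
    rfl
  have hneg : ∀ a : ZMod 2, -a = a := by decide
  have ηconj : ∀ x ∈ C, η (v⁻¹ * x * v) = η x := by
    intro x hx
    simp only [η]
    rw [χconj x hx, Int.neg_ediv_of_dvd (hdvd x hx)]
    push_cast
    exact hneg _
  have ηv2 : η (v * v) = 0 := by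
    simp only [η]
    rw [χv2]
    simp
  have ηr : η r = 1 := by
    simp only [η]
    rw [hr, Int.ediv_self hkz]
    simp
  let E0 : X → ZMod 2 := fun x => if x ∈ C then η x else η (v⁻¹ * x)
  have E0mul : ∀ x y, E0 (x * y) = E0 x + E0 y := by
    intro x y
    by_cases hx : x ∈ C <;> by_cases hy : y ∈ C
    · simp only [E0, if_pos hx, if_pos hy, if_pos (C.mul_mem hx hy)]
      exact ηmul x hx y hy
    · have hxy : x * y ∉ C := fun h => hy ((C.mul_mem_cancel_left hx).mp h)
      simp only [E0, if_pos hx, if_neg hy, if_neg hxy]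
      have e : v⁻¹ * (x * y) = (v⁻¹ * x * v) * (v⁻¹ * y) := by group
      rw [e, ηmul _ (hCconj x hx) _ (hvv.2 y hy), ηconj x hx]
    · have hxy : x * y ∉ C := fun h => hx ((C.mul_mem_cancel_right hy).mp h)
      simp only [E0, if_neg hx, if_pos hy, if_neg hxy]
      have e : v⁻¹ * (x * y) = (v⁻¹ * x) * y := by group
      rw [e, ηmul _ (hvv.2 x hx) _ hy]
    · have h1 := hvv.2 x hx
      have h2 := hvv.2 y hy
      have e : x * y = (v * v) * ((v⁻¹ * (v⁻¹ * x) * v) * (v⁻¹ * y)) := by group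
      have hxy : x * y ∈ C := by
        rw [e]
        exact C.mul_mem hv2C (C.mul_mem (hCconj _ h1) h2)
      simp only [E0, if_neg hx, if_neg hy, if_pos hxy]
      rw [e, ηmul _ hv2C _ (C.mul_mem (hCconj _ h1) h2), ηmul _ (hCconj _ h1) _ h2, ηconj _ h1,
        ηv2, zero_add]
  let E : X →* Multiplicative (ZMod 2) := MonoidHom.mk' (fun x => Multiplicative.ofAdd (E0 x))
    (by
      intro x y
      rw [E0mul]; rfl)
  let f : Multiplicative (Fin (0 + 1) → ℤ) →* X :=
    { toFun := fun l => r ^ (Multiplicative.toAdd l 0)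
      map_one' := by simp
      map_mul' := by
        intro l m
        rw [toAdd_mul, Pi.add_apply, zpow_add] }
  have hf : Function.Injective f := by
    rw [injective_iff_map_eq_one]
    intro l hl
    have hl' : r ^ (Multiplicative.toAdd l 0) = 1 := hl
    have h1 := congrArg χ hl'
    rw [χzpow r hrC, χone, hr] at h1
    have h2 : Multiplicative.toAdd l 0 = 0 := (mul_eq_zero.mp h1).resolve_right hkz
    have h3 : Multiplicative.toAdd l = 0 := by
      ext i
      fin_cases i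
      exact h2
    rw [← ofAdd_toAdd l, h3]; rfl
  have hrange : f.range = Subgroup.zpowers r := by
    ext x
    constructor
    · rintro ⟨l, rfl⟩
      exact ⟨Multiplicative.toAdd l 0, rfl⟩
    · rintro ⟨z, rfl⟩
      exact ⟨Multiplicative.ofAdd (fun _ => z), rfl⟩
  have hrf : (Subgroup.zpowers r).FiniteIndex := by
    have hj : ∀ g : X, ∃ j : ℤ, c ^ j = ((g : X ⧸ Subgroup.zpowers c).out)⁻¹ * g := by
      intro g
      have h1 : ((g : X ⧸ Subgroup.zpowers c).out)⁻¹ * g ∈ Subgroup.zpowers c := by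
        rw [← QuotientGroup.eq]
        exact QuotientGroup.out_eq' _
      exact Subgroup.mem_zpowers_iff.mp h1
    choose j hj using hj
    have : NeZero k := ⟨hk0.ne'⟩
    refine finiteIndex_of_map _ (fun g : X => ((g : X ⧸ Subgroup.zpowers c), (j g : ZMod k)))
      (Set.toFinite _) ?_
    intro g g' h
    have h1 : (g : X ⧸ Subgroup.zpowers c) = g' := congrArg Prod.fst h
    have h2 : ((j g : ℤ) : ZMod k) = j g' := congrArg Prod.snd h
    rw [ZMod.intCast_eq_intCast_iff_dvd_sub] at h2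
    obtain ⟨m, hm⟩ := h2
    have h3 : g⁻¹ * g' = c ^ (j g' - j g) := by
      rw [zpow_sub, hj, hj, h1]
      have e : (((g' : X) : X ⧸ Subgroup.zpowers c).out)⁻¹ * g' *
          ((((g' : X) : X ⧸ Subgroup.zpowers c).out)⁻¹ * g)⁻¹ =
          c ^ (j g' - j g) := by
        rw [zpow_sub, hj, hj, h1]
      have h4 : c ^ (j g' - j g) = c ^ (-j g + j g') := by congr 1; ring
      rw [e, h4, zpow_add, zpow_neg, hj, hj, h1]
      group
    rw [h3, hm, zpow_mul, ← hr, hχ r hrC, ← zpow_natCast, ← zpow_mul]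
    exact ⟨_, rfl⟩
  refine lattice 0 X f hf (by rw [hrange]; exact hrf) E ?_
  refine ⟨Multiplicative.ofAdd (fun _ => 1), ?_⟩
  change Multiplicative.ofAdd (E0 (r ^ (1 : ℤ))) ≠ 1
  rw [zpow_one]
  simp only [E0, if_pos hrC, ηr]
  decide

end Pool.Agent.H829R3.BV2
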