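import Mathlib

set_option autoImplicit false

/-!
Block sequences in the countable dimensional vector space `ℕ →₀ F`, and the gap lemma
for full block filters over infinite fields.
-/

namespace Pool.Agent.H829R3

variable {F : Type*} [Field F]

/-- Infinite block sequences of nonzero vectors. -/
def IsBlock (X : ℕ → (ℕ →₀ F)) : Prop :=
  ∀ n, X n ≠ 0 ∧ ∀ i ∈ (X n).support, ∀ j ∈ (X (n+1)).support, i < j

/-- The linear span of a sequence with `0` removed. -/
def sp (X : ℕ → (ℕ →₀ F)) : Set (ℕ →₀ F) :=
  (Submodule.span F (Set.range X) : Set (ℕ →₀ F)) \ {0}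

theorem IsBlock.supp_nonempty {X : ℕ → (ℕ →₀ F)} (hX : IsBlock X) (n : ℕ) :
    (X n).support.Nonempty :=
  Finsupp.support_nonempty_iff.2 (hX n).1

theorem IsBlock.lt {X : ℕ → (ℕ →₀ F)} (hX : IsBlock X) {m n : ℕ} (h : m < n) :
    ∀ i ∈ (X m).support, ∀ j ∈ (X n).support, i < j := by
  induction n, h using Nat.le_induction with
  | base => exact (hX m).2
  | succ n hmn ih =>
    intro i hi j hj
    obtain ⟨k, hk⟩ := hX.supp_nonempty n
    exact lt_trans (ih i hi k hk) ((hX n).2 k hk j hj)

theorem IsBlock.le_supp {X : ℕ → (ℕ →₀ F)} (hX : IsBlock X) (n : ℕ) :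
    ∀ t ∈ (X n).support, n ≤ t := by
  induction n with
  | zero => intro t _; exact Nat.zero_le t
  | succ n ih =>
    intro t ht
    obtain ⟨k, hk⟩ := hX.supp_nonempty n
    have h1 := ih k hk
    have h2 := (hX n).2 k hk t ht
    omega

theorem IsBlock.tail {X : ℕ → (ℕ →₀ F)} (hX : IsBlock X) (k : ℕ) :
    IsBlock (fun n => X (n + k)) := by
  intro n
  refine ⟨(hX (n+k)).1, ?_⟩
  have := (hX (n+k)).2
  have h2 : n + 1 + k = n + k + 1 := by ring
  simpa [h2] using this

theorem lc_apply {X : ℕ → (ℕ →₀ F)} (hX : IsBlock X) (c : ℕ →₀ F) {n t : ℕ}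
    (ht : t ∈ (X n).support) :
    (Finsupp.linearCombination F X c) t = c n * X n t := by
  rw [Finsupp.linearCombination_apply, Finsupp.sum, Finsupp.finsetSum_apply]
  by_cases hn : n ∈ c.support
  · rw [Finset.sum_eq_single n]
    · simp
    · intro m _ hmn
      have : X m t = 0 := by
        by_contra hne
        have hm : t ∈ (X m).support := Finsupp.mem_support_iff.2 hne
        rcases lt_or_gt_of_ne hmn with h | h
        · exact lt_irrefl _ (hX.lt h t hm t ht)
        · exact lt_irrefl _ (hX.lt h t ht t hm)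
      simp [this]
    · intro h; exact absurd hn h
  · have hc : c n = 0 := by simpa using hn
    rw [hc, zero_mul]
    apply Finset.sum_eq_zero
    intro m hm
    have hmn : m ≠ n := by rintro rfl; exact hn hm
    have : X m t = 0 := by
      by_contra hne
      have hm : t ∈ (X m).support := Finsupp.mem_support_iff.2 hne
      rcases lt_or_gt_of_ne hmn with h | h
      · exact lt_irrefl _ (hX.lt h t hm t ht)
      · exact lt_irrefl _ (hX.lt h t ht t hm)
    simp [this]

theorem mem_span_iff_lc {X : ℕ → (ℕ →₀ F)} {v : ℕ →₀ F} :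
    v ∈ Submodule.span F (Set.range X) ↔ ∃ c : ℕ →₀ F, Finsupp.linearCombination F X c = v := by
  rw [← Finsupp.range_linearCombination, LinearMap.mem_range]

theorem IsBlock.linearIndependent {X : ℕ → (ℕ →₀ F)} (hX : IsBlock X) :
    LinearIndependent F X := by
  rw [linearIndependent_iff]
  intro c hc
  ext n
  obtain ⟨t, ht⟩ := hX.supp_nonempty n
  have h := lc_apply hX c ht
  rw [hc] at h
  have ht' : X n t ≠ 0 := Finsupp.mem_support_iff.1 ht
  have : c n * X n t = 0 := by simpa using h.symm
  rcases mul_eq_zero.1 this with h | h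
  · simpa using h
  · exact absurd h ht'

theorem IsBlock.not_finiteDimensional {X : ℕ → (ℕ →₀ F)} (hX : IsBlock X) :
    ¬ FiniteDimensional F (Submodule.span F (Set.range X)) := by
  intro h
  have h1 := linearIndependent_span hX.linearIndependent
  have : Module.Finite F (Submodule.span F (Set.range X)) := h
  have : IsNoetherian F (Submodule.span F (Set.range X)) :=
    isNoetherian_of_isNoetherianRing_of_finite F (Submodule.span F (Set.range X))
  have h2 : Finite ℕ := h1.finite_of_isNoetherian
  exact not_finite ℕ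

/-- A vector in the span whose support is beyond the start of the `k`-th term lies in the span
of the tail. -/
theorem mem_tail_of_supp {X : ℕ → (ℕ →₀ F)} (hX : IsBlock X) {k N : ℕ}
    (hN : ∀ n < k, ∀ t ∈ (X n).support, t < N) {v : ℕ →₀ F}
    (hv : v ∈ Submodule.span F (Set.range X)) (hs : ∀ t ∈ v.support, N ≤ t) :
    v ∈ Submodule.span F (Set.range (fun n => X (n + k))) := by
  obtain ⟨c, rfl⟩ := mem_span_iff_lc.1 hv
  have hc : ∀ n < k, c n = 0 := by
    intro n hn
    obtain ⟨t, ht⟩ := hX.supp_nonempty n
    have h := lc_apply hX c ht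
    have ht' : X n t ≠ 0 := Finsupp.mem_support_iff.1 ht
    by_contra hcn
    have h3 : (Finsupp.linearCombination F X c) t ≠ 0 := by
      rw [h]; exact mul_ne_zero hcn ht'
    have h4 := hs t (Finsupp.mem_support_iff.2 h3)
    have h5 := hN n hn t ht
    omega
  rw [Finsupp.linearCombination_apply, Finsupp.sum]
  apply Submodule.sum_mem
  intro n hn
  have hnk : k ≤ n := by
    by_contra hlt
    push Not at hlt
    exact (Finsupp.mem_support_iff.1 hn) (hc n hlt)
  apply Submodule.smul_mem
  apply Submodule.subset_span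
  exact ⟨n - k, by simp [Nat.sub_add_cancel hnk]⟩

end Pool.Agent.H829R3
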