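import Mathlib
import Pool.Agent.H829R3.Blk

set_option autoImplicit false

/-!
The gap lemma for full block filters over infinite fields.
-/

namespace Pool.Agent.H829R3

variable {F : Type*} [Field F]

/-- `z'` lives strictly beyond `h z`. -/
def Gap (h : (ℕ →₀ F) → ℕ) (z z' : ℕ →₀ F) : Prop := ∀ t ∈ z'.support, h z < t

/-- First and last coefficient agree. -/
def Marker (z : ℕ →₀ F) : Prop :=
  ∃ s ∈ z.support, ∃ t ∈ z.support, (∀ u ∈ z.support, s ≤ u ∧ u ≤ t) ∧ z s = z t

theorem Marker.smul {z : ℕ →₀ F} (hz : Marker z) {c : F} (hc : c ≠ 0) : Marker (c • z) := by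
  obtain ⟨s, hs, t, ht, hst, he⟩ := hz
  have hsupp : (c • z).support = z.support := Finsupp.support_smul_eq hc
  refine ⟨s, by rwa [hsupp], t, by rwa [hsupp], by rwa [hsupp], by simp [he]⟩

/-- Fullness of a filter, in the form of the problem. -/
def Full (𝓕 : Filter (ℕ →₀ F)) : Prop :=
  ∀ D : Set (ℕ →₀ F),
        (∀ X : ℕ → (ℕ →₀ F),
          (∀ n, X n ≠ 0 ∧ ∀ i ∈ (X n).support, ∀ j ∈ (X (n+1)).support, i < j) →
          ((Submodule.span F (Set.range X) : Set (ℕ →₀ F)) \ {0}) ∈ 𝓕 →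
          ∃ V : Submodule F (ℕ →₀ F), ¬ FiniteDimensional F V ∧
            ((V : Set (ℕ →₀ F)) \ {0}) ⊆ ((Submodule.span F (Set.range X) : Set (ℕ →₀ F)) \ {0}) ∧
            ((V : Set (ℕ →₀ F)) \ {0}) ⊆ D) →
        D ∈ 𝓕

/-- The block base property. -/
def BlockBase (𝓕 : Filter (ℕ →₀ F)) : Prop :=
  ∀ A ∈ 𝓕, ∃ X : ℕ → (ℕ →₀ F),
        (∀ n, X n ≠ 0 ∧ ∀ i ∈ (X n).support, ∀ j ∈ (X (n+1)).support, i < j) ∧
        ((Submodule.span F (Set.range X) : Set (ℕ →₀ F)) \ {0}) ∈ 𝓕 ∧
        ((Submodule.span F (Set.range X) : Set (ℕ →₀ F)) \ {0}) ⊆ A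

/-- Vectors that split into a gap-separated list of marked vectors from `S`. -/
def DSet (h : (ℕ →₀ F) → ℕ) (S : Submodule F (ℕ →₀ F)) : Set (ℕ →₀ F) :=
  {v | ∃ L : List (ℕ →₀ F), (∀ z ∈ L, z ≠ 0 ∧ z ∈ S ∧ Marker z) ∧
    L.Pairwise (Gap h) ∧ L.sum = v}

section
variable {h : (ℕ →₀ F) → ℕ} (hh : ∀ z : ℕ →₀ F, ∀ t ∈ z.support, t ≤ h z)
include hh

theorem sum_apply_of_mem {L : List (ℕ →₀ F)} (hL : L.Pairwise (Gap h))
    {z : ℕ →₀ F} (hz : z ∈ L) {t : ℕ} (ht : t ∈ z.support) : L.sum t = z t := by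
  induction L with
  | nil => simp at hz
  | cons a L ih =>
    rw [List.pairwise_cons] at hL
    rw [List.sum_cons, Finsupp.add_apply]
    rcases List.mem_cons.1 hz with rfl | hz'
    · have : L.sum t = 0 := by
        have hall : ∀ z' ∈ L, z' t = 0 := by
          intro z' hz'
          by_contra hne
          have h1 := hL.1 z' hz' t (Finsupp.mem_support_iff.2 hne)
          have h2 := hh z t ht
          omega
        clear ih hL hz
        induction L with
        | nil => simp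
        | cons b L ih2 =>
          rw [List.sum_cons, Finsupp.add_apply, hall b (by simp), zero_add]
          exact ih2 (fun z' hz' => hall z' (by simp [hz']))
      rw [this, add_zero]
    · have ha : a t = 0 := by
        by_contra hne
        have h1 := hL.1 z hz' t ht
        have h2 := hh a t (Finsupp.mem_support_iff.2 hne)
        omega
      rw [ha, zero_add, ih hL.2 hz']

omit hh in
theorem exists_mem_of_sum_apply_ne {L : List (ℕ →₀ F)} {t : ℕ} (ht : L.sum t ≠ 0) :
    ∃ z ∈ L, t ∈ z.support := by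
  by_contra hcon
  push Not at hcon
  apply ht
  clear ht
  induction L with
  | nil => simp
  | cons a L ih =>
    rw [List.sum_cons, Finsupp.add_apply]
    have ha : a t = 0 := by simpa using hcon a (by simp)
    rw [ha, zero_add]
    exact ih (fun z hz => hcon z (by simp [hz]))

end

/-- Every nonzero combination of a gap sequence of marked vectors belongs to `DSet`. -/
theorem lc_mem_DSet {h : (ℕ →₀ F) → ℕ} (hs : ∀ c : F, c ≠ 0 → ∀ z : ℕ →₀ F, h (c • z) = h z)
    {S : Submodule F (ℕ →₀ F)} {z : ℕ → (ℕ →₀ F)} (hz0 : ∀ n, z n ≠ 0) (hzS : ∀ n, z n ∈ S)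
    (hzM : ∀ n, Marker (z n)) (hgap : ∀ i j, i < j → Gap h (z i) (z j)) (c : ℕ →₀ F) :
    Finsupp.linearCombination F z c ∈ DSet h S := by
  refine ⟨(c.support.sort (· ≤ ·)).map (fun j => c j • z j), ?_, ?_, ?_⟩
  · intro w hw
    rw [List.mem_map] at hw
    obtain ⟨j, hj, rfl⟩ := hw
    have hj' : j ∈ c.support := (Finset.mem_sort _).1 hj
    have hcj : c j ≠ 0 := Finsupp.mem_support_iff.1 hj'
    exact ⟨smul_ne_zero hcj (hz0 j), S.smul_mem _ (hzS j), (hzM j).smul hcj⟩
  · rw [List.pairwise_map]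
    have hsorted : (c.support.sort (· ≤ ·)).Pairwise (· < ·) := (Finset.sortedLT_sort _).pairwise
    have hmem : ∀ x ∈ c.support.sort (· ≤ ·), c x ≠ 0 := by
      intro x hx
      exact Finsupp.mem_support_iff.1 ((Finset.mem_sort _).1 hx)
    refine List.Pairwise.imp_of_mem ?_ hsorted
    intro a b ha hb hab t ht
    have hb' : t ∈ (z b).support := by
      rwa [Finsupp.support_smul_eq (hmem b hb)] at ht
    rw [hs (c a) (hmem a ha)]
    exact hgap a b hab t hb'
  · rw [Finsupp.linearCombination_apply, Finsupp.sum]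
    rw [← List.sum_toFinset _ (Finset.sort_nodup _ _), Finset.sort_toFinset]

end Pool.Agent.H829R3
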