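import Mathlib
import Pool.Agent.H829R3.Gap

set_option autoImplicit false

/-!
The gap lemma for full block filters over infinite fields, main part.
-/

namespace Pool.Agent.H829R3

variable {F : Type*} [Field F]

theorem exists_marked {W : ℕ → (ℕ →₀ F)} (hW : IsBlock W) (N : ℕ) :
    ∃ z ∈ Submodule.span F (Set.range W), z ≠ 0 ∧ Marker z ∧ ∀ t ∈ z.support, N < t := by
  set k := N + 1 with hk
  set s := (W k).support.min' (hW.supp_nonempty k) with hs
  set t := (W (k+1)).support.max' (hW.supp_nonempty (k+1)) with ht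
  have hsm : s ∈ (W k).support := Finset.min'_mem _ _
  have htm : t ∈ (W (k+1)).support := Finset.max'_mem _ _
  have hblk := (hW k).2
  have hdisj : ∀ u, u ∈ (W k).support → W (k+1) u = 0 := by
    intro u hu
    by_contra hne
    exact lt_irrefl _ (hblk u hu u (Finsupp.mem_support_iff.2 hne))
  have hdisj2 : ∀ u, u ∈ (W (k+1)).support → W k u = 0 := by
    intro u hu
    by_contra hne
    exact lt_irrefl _ (hblk u (Finsupp.mem_support_iff.2 hne) u hu)
  have hsne : W k s ≠ 0 := Finsupp.mem_support_iff.1 hsm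
  have htne : W (k+1) t ≠ 0 := Finsupp.mem_support_iff.1 htm
  set c : F := W k s / W (k+1) t with hc
  have hcne : c ≠ 0 := div_ne_zero hsne htne
  set z := W k + c • W (k+1) with hz
  have hzs : z s = W k s := by
    rw [hz, Finsupp.add_apply, Finsupp.smul_apply, hdisj s hsm, smul_zero, add_zero]
  have hzt : z t = W k s := by
    rw [hz, Finsupp.add_apply, Finsupp.smul_apply, hdisj2 t htm, zero_add, smul_eq_mul, hc,
      div_mul_cancel₀ _ htne]
  have hzsne : z s ≠ 0 := by rw [hzs]; exact hsne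
  have hztne : z t ≠ 0 := by rw [hzt]; exact hsne
  have hsupp : ∀ u ∈ z.support, u ∈ (W k).support ∨ u ∈ (W (k+1)).support := by
    intro u hu
    by_contra hcon
    push Not at hcon
    have h1 : W k u = 0 := by simpa using hcon.1
    have h2 : W (k+1) u = 0 := by simpa using hcon.2
    apply Finsupp.mem_support_iff.1 hu
    rw [hz, Finsupp.add_apply, Finsupp.smul_apply, h1, h2, smul_zero, add_zero]
  refine ⟨z, ?_, ?_, ⟨s, Finsupp.mem_support_iff.2 hzsne, t, Finsupp.mem_support_iff.2 hztne,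
    ?_, by rw [hzs, hzt]⟩, ?_⟩
  · exact Submodule.add_mem _ (Submodule.subset_span ⟨k, rfl⟩)
      (Submodule.smul_mem _ _ (Submodule.subset_span ⟨k+1, rfl⟩))
  · intro h0
    apply hzsne
    rw [h0]; rfl
  · intro u hu
    rcases hsupp u hu with h | h
    · exact ⟨Finset.min'_le _ _ h, (hblk u h t htm).le⟩
    · exact ⟨(hblk s hsm u h).le, Finset.le_max' _ _ h⟩
  · intro u hu
    rcases hsupp u hu with h | h
    · have := hW.le_supp k u h
      omega
    · have := hW.le_supp (k+1) u h
      omega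

theorem DSet_mem {𝓕 : Filter (ℕ →₀ F)} (hbase : BlockBase 𝓕) (hfull : Full 𝓕)
    {h : (ℕ →₀ F) → ℕ} (hh : ∀ z : ℕ →₀ F, ∀ t ∈ z.support, t ≤ h z)
    (hs : ∀ c : F, c ≠ 0 → ∀ z : ℕ →₀ F, h (c • z) = h z)
    {S : Submodule F (ℕ →₀ F)} (hS : ((S : Set (ℕ →₀ F)) \ {0}) ∈ 𝓕) : DSet h S ∈ 𝓕 := by
  apply hfull
  intro X _ hX𝓕
  obtain ⟨W, hW, _, hWsub⟩ := hbase _ (Filter.inter_mem hX𝓕 hS)
  have hWb : IsBlock W := hW
  choose f hf1 hf2 hf3 hf4 using fun N => exists_marked hWb N
  let z : ℕ → (ℕ →₀ F) := fun n => Nat.rec (f 0) (fun _ w => f (h w)) n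
  have hzsucc : ∀ n, z (n+1) = f (h (z n)) := fun n => rfl
  have hzf : ∀ n, ∃ N, z n = f N := by
    intro n
    cases n with
    | zero => exact ⟨0, rfl⟩
    | succ n => exact ⟨_, hzsucc n⟩
  have hz0 : ∀ n, z n ≠ 0 := by
    intro n; obtain ⟨N, hN⟩ := hzf n; rw [hN]; exact hf2 N
  have hzM : ∀ n, Marker (z n) := by
    intro n; obtain ⟨N, hN⟩ := hzf n; rw [hN]; exact hf3 N
  have hzW : ∀ n, z n ∈ Submodule.span F (Set.range W) := by
    intro n; obtain ⟨N, hN⟩ := hzf n; rw [hN]; exact hf1 N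
  have hgap1 : ∀ n, Gap h (z n) (z (n+1)) := by
    intro n t ht
    rw [hzsucc] at ht
    exact hf4 _ t ht
  have hzb : IsBlock z := by
    intro n
    refine ⟨hz0 n, ?_⟩
    intro i hi j hj
    exact lt_of_le_of_lt (hh _ i hi) (hgap1 n j hj)
  have hgap : ∀ i j, i < j → Gap h (z i) (z j) := by
    intro i j hij
    induction j, hij using Nat.le_induction with
    | base => exact hgap1 i
    | succ j hij ih =>
      intro t ht
      obtain ⟨u, hu⟩ := hzb.supp_nonempty j
      exact lt_trans (ih u hu) (lt_of_le_of_lt (hh _ u hu) (hgap1 j t ht))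
  have hzsub : Submodule.span F (Set.range z) ≤ Submodule.span F (Set.range W) := by
    rw [Submodule.span_le]
    rintro _ ⟨n, rfl⟩
    exact hzW n
  have hzS : ∀ n, z n ∈ S := fun n => (hWsub ⟨hzW n, hz0 n⟩).2.1
  refine ⟨Submodule.span F (Set.range z), hzb.not_finiteDimensional, ?_, ?_⟩
  · rintro v ⟨hv, hv0⟩
    exact (hWsub ⟨hzsub hv, hv0⟩).1
  · rintro v ⟨hv, _⟩
    obtain ⟨c, rfl⟩ := mem_span_iff_lc.1 hv
    exact lc_mem_DSet hs hz0 hzS hzM hgap c

/-- Splitting of `Y j` inside a block sequence all of whose combinations lie in `DSet`. -/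
theorem split_of_sub [Infinite F] {h : (ℕ →₀ F) → ℕ}
    (hh : ∀ z : ℕ →₀ F, ∀ t ∈ z.support, t ≤ h z)
    {S : Submodule F (ℕ →₀ F)} {Y : ℕ → (ℕ →₀ F)} (hY : IsBlock Y) (hYD : sp Y ⊆ DSet h S)
    (j : ℕ) :
    ∃ L : List (ℕ →₀ F), (∀ z ∈ L, z ≠ 0 ∧ z ∈ S ∧ z.support ⊆ (Y j).support ∧
      ∀ t ∈ (Y (j+1)).support, h z < t) ∧ L.Pairwise (Gap h) ∧ L.sum = Y j := by
  classical
  -- choose a generic scalar
  obtain ⟨a, ha⟩ := Infinite.exists_notMem_finset
    (insert (0:F) (((Y j).support ×ˢ (Y (j+1)).support).image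
      (fun p => Y j p.1 / Y (j+1) p.2)))
  rw [Finset.mem_insert, not_or] at ha
  obtain ⟨ha0, ha1⟩ := ha
  have hgen : ∀ s ∈ (Y j).support, ∀ t ∈ (Y (j+1)).support, Y j s ≠ a * Y (j+1) t := by
    intro s hs t ht he
    apply ha1
    rw [Finset.mem_image]
    refine ⟨(s, t), Finset.mem_product.2 ⟨hs, ht⟩, ?_⟩
    have htne : Y (j+1) t ≠ 0 := Finsupp.mem_support_iff.1 ht
    simp only
    rw [he, mul_div_cancel_right₀ _ htne]
  have hblk := (hY j).2
  have hdisj : ∀ u, u ∈ (Y j).support → Y (j+1) u = 0 := by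
    intro u hu
    by_contra hne
    exact lt_irrefl _ (hblk u hu u (Finsupp.mem_support_iff.2 hne))
  have hdisj2 : ∀ u, u ∈ (Y (j+1)).support → Y j u = 0 := by
    intro u hu
    by_contra hne
    exact lt_irrefl _ (hblk u (Finsupp.mem_support_iff.2 hne) u hu)
  set v := Y j + a • Y (j+1) with hv
  have hv1 : ∀ u ∈ (Y j).support, v u = Y j u := by
    intro u hu
    rw [hv, Finsupp.add_apply, Finsupp.smul_apply, hdisj u hu, smul_zero, add_zero]
  have hv2 : ∀ u ∈ (Y (j+1)).support, v u = a * Y (j+1) u := by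
    intro u hu
    rw [hv, Finsupp.add_apply, Finsupp.smul_apply, hdisj2 u hu, zero_add, smul_eq_mul]
  have hvsupp : ∀ u ∈ v.support, u ∈ (Y j).support ∨ u ∈ (Y (j+1)).support := by
    intro u hu
    by_contra hcon
    push Not at hcon
    have h1 : Y j u = 0 := by simpa using hcon.1
    have h2 : Y (j+1) u = 0 := by simpa using hcon.2
    apply Finsupp.mem_support_iff.1 hu
    rw [hv, Finsupp.add_apply, Finsupp.smul_apply, h1, h2, smul_zero, add_zero]
  have hvne : v ≠ 0 := by
    obtain ⟨u, hu⟩ := hY.supp_nonempty j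
    intro h0
    have := hv1 u hu
    rw [h0] at this
    exact (Finsupp.mem_support_iff.1 hu) this.symm
  have hvY : v ∈ sp Y := ⟨Submodule.add_mem _ (Submodule.subset_span ⟨j, rfl⟩)
      (Submodule.smul_mem _ _ (Submodule.subset_span ⟨j+1, rfl⟩)), hvne⟩
  obtain ⟨L, hL1, hL2, hL3⟩ := hYD hvY
  -- each member of `L` is on one side
  have hLv : ∀ z ∈ L, ∀ t ∈ z.support, v t = z t := by
    intro z hz t ht
    rw [← hL3]
    exact sum_apply_of_mem hh hL2 hz ht
  have hside : ∀ z ∈ L, z.support ⊆ (Y j).support ∨ z.support ⊆ (Y (j+1)).support := by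
    intro z hz
    obtain ⟨s, hs, t, ht, hst, he⟩ := (hL1 z hz).2.2
    have hzv : ∀ u ∈ z.support, u ∈ v.support := by
      intro u hu
      rw [Finsupp.mem_support_iff, hLv z hz u hu]
      exact Finsupp.mem_support_iff.1 hu
    have hvs := hLv z hz s hs
    have hvt := hLv z hz t ht
    rcases hvsupp s (hzv s hs) with h1 | h1
    · rcases hvsupp t (hzv t ht) with h2 | h2
      · left
        intro u hu
        rcases hvsupp u (hzv u hu) with h3 | h3
        · exact h3
        · exfalso
          have := hblk t h2 u h3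
          have := (hst u hu).2
          omega
      · exfalso
        apply hgen s h1 t h2
        rw [← hv1 s h1, ← hv2 t h2, hvs, hvt, he]
    · right
      intro u hu
      rcases hvsupp u (hzv u hu) with h3 | h3
      · exfalso
        have := hblk u h3 s h1
        have := (hst u hu).1
        omega
      · exact h3
  refine ⟨L.filter (fun z => decide (z.support ⊆ (Y j).support)), ?_, ?_, ?_⟩
  · intro z hz
    rw [List.mem_filter] at hz
    obtain ⟨hzL, hzs⟩ := hz
    have hzs' : z.support ⊆ (Y j).support := of_decide_eq_true hzs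
    refine ⟨(hL1 z hzL).1, (hL1 z hzL).2.1, hzs', ?_⟩
    intro t ht
    -- find the member of `L` containing `t`
    have hvt : L.sum t ≠ 0 := by
      rw [hL3, hv2 t ht]
      exact mul_ne_zero ha0 (Finsupp.mem_support_iff.1 ht)
    obtain ⟨z', hz'L, hz't⟩ := exists_mem_of_sum_apply_ne hvt
    have hne : z ≠ z' := by
      rintro rfl
      have h1 := hzs' hz't
      exact lt_irrefl _ (hblk t h1 t ht)
    have hsymm : Std.Symm (fun x y => Gap h x y ∨ Gap h y x) := ⟨fun x y hxy => hxy.symm⟩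
    have hP : L.Pairwise (fun x y => Gap h x y ∨ Gap h y x) := hL2.imp (fun hxy => Or.inl hxy)
    rcases hP.forall hzL hz'L hne with hg | hg
    · exact hg t hz't
    · exfalso
      obtain ⟨u, hu⟩ := Finsupp.support_nonempty_iff.2 (hL1 z hzL).1
      have h1 := hg u hu
      have h2 := hh z' t hz't
      have h3 := hblk u (hzs' hu) t ht
      omega
  · exact hL2.sublist List.filter_sublist
  · have hP1 : (L.filter (fun z => decide (z.support ⊆ (Y j).support))).Pairwise (Gap h) :=
      hL2.sublist List.filter_sublist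
    ext u
    by_cases hu : u ∈ (Y j).support
    · have hvu : L.sum u ≠ 0 := by
        rw [hL3, hv1 u hu]
        exact Finsupp.mem_support_iff.1 hu
      obtain ⟨z, hzL, hzu⟩ := exists_mem_of_sum_apply_ne hvu
      have hzs : z.support ⊆ (Y j).support := by
        rcases hside z hzL with h1 | h1
        · exact h1
        · exfalso
          exact lt_irrefl _ (hblk u hu u (h1 hzu))
      have hzf : z ∈ L.filter (fun z => decide (z.support ⊆ (Y j).support)) := by
        rw [List.mem_filter]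
        exact ⟨hzL, decide_eq_true hzs⟩
      rw [sum_apply_of_mem hh hP1 hzf hzu, ← hLv z hzL u hzu, hv1 u hu]
    · have h0 : Y j u = 0 := by simpa using hu
      rw [h0]
      by_contra hne
      obtain ⟨z, hzL, hzu⟩ := exists_mem_of_sum_apply_ne hne
      rw [List.mem_filter] at hzL
      exact hu ((of_decide_eq_true hzL.2) hzu)

end Pool.Agent.H829R3
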