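import Mathlib
import Pool.Agent.H829R3.Gap2

set_option autoImplicit false

/-!
The gap lemma for full block filters over infinite fields: concatenating the pieces.
-/

namespace Pool.Agent.H829R3

variable {F : Type*} [Field F]

theorem gap_infinite [Infinite F] {𝓕 : Filter (ℕ →₀ F)} (hbase : BlockBase 𝓕) (hfull : Full 𝓕)
    {h : (ℕ →₀ F) → ℕ} (hh : ∀ z : ℕ →₀ F, ∀ t ∈ z.support, t ≤ h z)
    (hs : ∀ c : F, c ≠ 0 → ∀ z : ℕ →₀ F, h (c • z) = h z)
    {S : Submodule F (ℕ →₀ F)} (hS : ((S : Set (ℕ →₀ F)) \ {0}) ∈ 𝓕) :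
    ∃ Z : ℕ → (ℕ →₀ F), IsBlock Z ∧ sp Z ∈ 𝓕 ∧ (∀ n, Z n ∈ S) ∧
      ∀ n, Gap h (Z n) (Z (n+1)) := by
  obtain ⟨Y, hY, hY𝓕, hYD⟩ := hbase _ (DSet_mem hbase hfull hh hs hS)
  have hYb : IsBlock Y := hY
  choose L hL1 hL2 hL3 using fun j => split_of_sub hh hYb hYD j
  let P : ℕ → List (ℕ →₀ F) := fun j => Nat.rec [] (fun k l => l ++ L k) j
  have hPs : ∀ j, P (j+1) = P j ++ L j := fun j => rfl
  have hLne : ∀ j, L j ≠ [] := by
    intro j h0
    have := hL3 j
    rw [h0] at this
    exact (hYb j).1 this.symm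
  have hPlen : ∀ j, j ≤ (P j).length := by
    intro j
    induction j with
    | zero => exact Nat.zero_le _
    | succ j ih =>
      rw [hPs, List.length_append]
      have := List.length_pos_iff.2 (hLne j)
      omega
  have hPmem : ∀ j, ∀ z ∈ P j, z ≠ 0 ∧ z ∈ S := by
    intro j
    induction j with
    | zero => intro z hz; simp [P] at hz
    | succ j ih =>
      intro z hz
      rw [hPs, List.mem_append] at hz
      rcases hz with hz | hz
      · exact ih z hz
      · exact ⟨(hL1 j z hz).1, (hL1 j z hz).2.1⟩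
  have hPgap : ∀ j, ∀ z ∈ P j, ∀ t ∈ (Y j).support, h z < t := by
    intro j
    induction j with
    | zero => intro z hz; simp [P] at hz
    | succ j ih =>
      intro z hz t ht
      rw [hPs, List.mem_append] at hz
      rcases hz with hz | hz
      · obtain ⟨u, hu⟩ := hYb.supp_nonempty j
        exact lt_trans (ih z hz u hu) ((hYb j).2 u hu t ht)
      · exact (hL1 j z hz).2.2.2 t ht
  have hPpw : ∀ j, (P j).Pairwise (Gap h) := by
    intro j
    induction j with
    | zero => exact List.Pairwise.nil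
    | succ j ih =>
      rw [hPs, List.pairwise_append]
      refine ⟨ih, hL2 j, ?_⟩
      intro z hz z' hz' t ht
      exact hPgap j z hz t ((hL1 j z' hz').2.2.1 ht)
  have hPpre : ∀ i j, i ≤ j → P i <+: P j := by
    intro i j hij
    induction j, hij using Nat.le_induction with
    | base => exact List.prefix_refl _
    | succ j hij ih =>
      rw [hPs]
      exact ih.trans (List.prefix_append _ _)
  let Z : ℕ → (ℕ →₀ F) := fun n => (P (n+1))[n]'(lt_of_lt_of_le (Nat.lt_succ_self n) (hPlen (n+1)))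
  have hZ : ∀ n j, ∀ hn : n < (P j).length, Z n = (P j)[n] := by
    intro n j hn
    rcases le_total (n+1) j with hle | hle
    · exact (hPpre _ _ hle).getElem _
    · exact ((hPpre _ _ hle).getElem hn).symm
  have hZgap : ∀ n, Gap h (Z n) (Z (n+1)) := by
    intro n
    have hlen : n + 1 < (P (n+2)).length := lt_of_lt_of_le (Nat.lt_succ_self _) (hPlen (n+2))
    rw [hZ n (n+2) (by omega), hZ (n+1) (n+2) hlen]
    exact (List.pairwise_iff_getElem.1 (hPpw (n+2))) n (n+1) (by omega) hlen (Nat.lt_succ_self n)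
  have hZmem : ∀ n, Z n ≠ 0 ∧ Z n ∈ S := fun n => hPmem (n+1) _ (List.getElem_mem _)
  have hZb : IsBlock Z := by
    intro n
    refine ⟨(hZmem n).1, ?_⟩
    intro i hi j hj
    exact lt_of_le_of_lt (hh _ i hi) (hZgap n j hj)
  have hYZ : ∀ j, Y j ∈ Submodule.span F (Set.range Z) := by
    intro j
    rw [← hL3 j]
    apply list_sum_mem
    intro z hz
    have hz' : z ∈ P (j+1) := by rw [hPs, List.mem_append]; exact Or.inr hz
    obtain ⟨n, hn, hnz⟩ := List.mem_iff_getElem.1 hz'
    apply Submodule.subset_span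
    exact ⟨n, by rw [hZ n (j+1) hn, hnz]⟩
  refine ⟨Z, hZb, ?_, fun n => (hZmem n).2, hZgap⟩
  apply Filter.mem_of_superset hY𝓕
  rintro v ⟨hv, hv0⟩
  refine ⟨?_, hv0⟩
  have hle : Submodule.span F (Set.range Y) ≤ Submodule.span F (Set.range Z) := by
    rw [Submodule.span_le]
    rintro _ ⟨n, rfl⟩
    exact hYZ n
  exact hle hv

end Pool.Agent.H829R3
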