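import Mathlib
import Pool.Agent.H829R3.Gap3

set_option autoImplicit false

/-!
From the gap property to the strong diagonalisation property.
-/

namespace Pool.Agent.H829R3

variable {F : Type*} [Field F]

/-- The gap property of a filter. -/
def GapProp (𝓕 : Filter (ℕ →₀ F)) : Prop :=
  ∀ h : (ℕ →₀ F) → ℕ, (∀ z : ℕ →₀ F, ∀ t ∈ z.support, t ≤ h z) →
    (∀ c : F, c ≠ 0 → ∀ z : ℕ →₀ F, h (c • z) = h z) →
    ∀ S : Submodule F (ℕ →₀ F), ((S : Set (ℕ →₀ F)) \ {0}) ∈ 𝓕 →
    ∃ Z : ℕ → (ℕ →₀ F), IsBlock Z ∧ sp Z ∈ 𝓕 ∧ (∀ n, Z n ∈ S) ∧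
      ∀ n, Gap h (Z n) (Z (n+1))

/-- All finite-codimensional subspaces are in the filter. -/
def Cofin (𝓕 : Filter (ℕ →₀ F)) : Prop :=
  ∀ V : Submodule F (ℕ →₀ F), FiniteDimensional F ((ℕ →₀ F) ⧸ V) →
        ((V : Set (ℕ →₀ F)) \ {0}) ∈ 𝓕

/-- The `(p)` property. -/
def PProp (𝓕 : Filter (ℕ →₀ F)) : Prop :=
  ∀ Xs : ℕ → ℕ → (ℕ →₀ F),
        (∀ m, (∀ n, Xs m n ≠ 0 ∧ ∀ i ∈ (Xs m n).support, ∀ j ∈ (Xs m (n+1)).support, i < j) ∧
          ((Submodule.span F (Set.range (Xs m)) : Set (ℕ →₀ F)) \ {0}) ∈ 𝓕) →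
        ∃ X : ℕ → (ℕ →₀ F),
          (∀ n, X n ≠ 0 ∧ ∀ i ∈ (X n).support, ∀ j ∈ (X (n+1)).support, i < j) ∧
          ((Submodule.span F (Set.range X) : Set (ℕ →₀ F)) \ {0}) ∈ 𝓕 ∧
          ∀ m, ∃ k : ℕ, Submodule.span F (Set.range (fun n : ℕ => X (n + k))) ≤
            Submodule.span F (Set.range (Xs m))

/-- Normalised representative of the line of `z`. -/
noncomputable def nrm (z : ℕ →₀ F) : ℕ →₀ F := (z (sInf (z.support : Set ℕ)))⁻¹ • z

theorem nrm_coef_ne {z : ℕ →₀ F} (hz : z ≠ 0) : z (sInf (z.support : Set ℕ)) ≠ 0 := by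
  have hne : (z.support : Set ℕ).Nonempty := by
    have := Finsupp.support_nonempty_iff.2 hz
    exact this
  have := Nat.sInf_mem hne
  exact Finsupp.mem_support_iff.1 this

theorem nrm_smul {c : F} (hc : c ≠ 0) (z : ℕ →₀ F) : nrm (c • z) = nrm z := by
  unfold nrm
  rw [Finsupp.support_smul_eq hc, Finsupp.smul_apply, smul_eq_mul, mul_inv, smul_smul]
  congr 1
  field_simp

theorem supp_nrm (z : ℕ →₀ F) : (nrm z).support = z.support := by
  by_cases hz : z = 0
  · subst hz; simp [nrm]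
  · unfold nrm
    exact Finsupp.support_smul_eq (inv_ne_zero (nrm_coef_ne hz))

theorem nrm_ne_zero {z : ℕ →₀ F} (hz : z ≠ 0) : nrm z ≠ 0 := by
  unfold nrm
  exact smul_ne_zero (inv_ne_zero (nrm_coef_ne hz)) hz

theorem nrm_mem {S : Submodule F (ℕ →₀ F)} {z : ℕ →₀ F} (hz : z ∈ S) : nrm z ∈ S :=
  S.smul_mem _ hz

theorem mem_of_nrm_mem {S : Submodule F (ℕ →₀ F)} {z : ℕ →₀ F} (hz : nrm z ∈ S) : z ∈ S := by
  by_cases h0 : z = 0
  · rw [h0]; exact S.zero_mem
  · have := S.smul_mem (z (sInf (z.support : Set ℕ))) hz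
    unfold nrm at this
    rwa [smul_smul, mul_inv_cancel₀ (nrm_coef_ne h0), one_smul] at this

/-- Vectors vanishing below `K`. -/
noncomputable def tailSub (F : Type*) [Field F] (K : ℕ) : Submodule F (ℕ →₀ F) :=
  LinearMap.ker (LinearMap.pi (fun i : Fin K => (Finsupp.lapply (i : ℕ) : (ℕ →₀ F) →ₗ[F] F)))

theorem mem_tailSub {K : ℕ} {v : ℕ →₀ F} : v ∈ tailSub F K ↔ ∀ t ∈ v.support, K ≤ t := by
  unfold tailSub
  rw [LinearMap.mem_ker]
  constructor
  · intro h t ht
    by_contra hlt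
    push Not at hlt
    have := congrFun h ⟨t, hlt⟩
    simp at this
    exact (Finsupp.mem_support_iff.1 ht) this
  · intro h
    ext i
    simp only [LinearMap.pi_apply, Finsupp.lapply_apply, Pi.zero_apply]
    by_contra hne
    have := h i (Finsupp.mem_support_iff.2 hne)
    omega

theorem tailSub_cofin (K : ℕ) : FiniteDimensional F ((ℕ →₀ F) ⧸ tailSub F K) := by
  unfold tailSub
  exact LinearEquiv.finiteDimensional
    (LinearMap.quotKerEquivRange
      (LinearMap.pi (fun i : Fin K => (Finsupp.lapply (i : ℕ) : (ℕ →₀ F) →ₗ[F] F)))).symm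

theorem strong_of_gap [Countable F] {𝓕 : Filter (ℕ →₀ F)} (hcof : Cofin 𝓕) (hp : PProp 𝓕)
    (hgap : GapProp 𝓕) (Y : List (ℕ →₀ F) → ℕ → (ℕ →₀ F))
    (hY : ∀ l, IsBlock (Y l) ∧ sp (Y l) ∈ 𝓕) :
    ∃ X : ℕ → (ℕ →₀ F), IsBlock X ∧ sp X ∈ 𝓕 ∧
      ∀ k : ℕ, Submodule.span F (Set.range (fun n : ℕ => X (n + k))) ≤
            Submodule.span F (Set.range (Y (List.ofFn (fun i : Fin k => X i.val)))) := by
  classical
  haveI : Encodable (List (ℕ →₀ F)) := Encodable.ofCountable _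
  -- pseudo-intersection of all `Y l`
  obtain ⟨X', hX', hX'𝓕, hX's⟩ := hp (fun m => Y ((Encodable.decode (α := List (ℕ →₀ F)) m).getD []))
    (fun m => hY _)
  have hX'b : IsBlock X' := hX'
  have hk : ∀ l : List (ℕ →₀ F), ∃ k : ℕ, Submodule.span F (Set.range (fun n : ℕ => X' (n + k))) ≤
            Submodule.span F (Set.range (Y l)) := by
    intro l
    obtain ⟨k, hk⟩ := hX's (Encodable.encode l)
    refine ⟨k, ?_⟩
    simpa [Encodable.encodek] using hk
  choose kk hkk using hk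
  -- threshold
  let N : List (ℕ →₀ F) → ℕ := fun l => ((Finset.range (kk l)).biUnion (fun n => (X' n).support)).sup id + 1
  have hN : ∀ l, ∀ v ∈ Submodule.span F (Set.range X'), (∀ t ∈ v.support, N l ≤ t) →
      v ∈ Submodule.span F (Set.range (Y l)) := by
    intro l v hv hvs
    apply hkk l
    refine mem_tail_of_supp hX'b (N := N l) ?_ hv hvs
    intro n hn t ht
    have : t ≤ ((Finset.range (kk l)).biUnion (fun n => (X' n).support)).sup id := by
      apply Finset.le_sup (f := id)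
      rw [Finset.mem_biUnion]
      exact ⟨n, Finset.mem_range.2 hn, ht⟩
    simp only [N]
    omega
  -- the gap function
  let A : ℕ → (ℕ →₀ F) → ℕ := fun m z =>
    (Finset.range (m+1)).sup (fun i =>
      max (N (((Encodable.decode (α := List (ℕ →₀ F)) i).getD []) ++ [z]))
        (Encodable.encode (((Encodable.decode (α := List (ℕ →₀ F)) i).getD []) ++ [z])))
  have hA : ∀ m z, ∀ l : List (ℕ →₀ F), Encodable.encode l ≤ m →
      N (l ++ [z]) ≤ A m z ∧ Encodable.encode (l ++ [z]) ≤ A m z := by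
    intro m z l hl
    have h1 : max (N (l ++ [z])) (Encodable.encode (l ++ [z])) ≤ A m z := by
      have := Finset.le_sup (s := Finset.range (m+1)) (f := fun i =>
        max (N (((Encodable.decode (α := List (ℕ →₀ F)) i).getD []) ++ [z]))
        (Encodable.encode (((Encodable.decode (α := List (ℕ →₀ F)) i).getD []) ++ [z])))
        (Finset.mem_range.2 (Nat.lt_succ_of_le hl))
      simpa [Encodable.encodek] using this
    exact ⟨le_trans (le_max_left _ _) h1, le_trans (le_max_right _ _) h1⟩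
  let h : (ℕ →₀ F) → ℕ := fun z => A (z.support.sup id) (nrm z) + z.support.sup id
  have hh : ∀ z : ℕ →₀ F, ∀ t ∈ z.support, t ≤ h z := by
    intro z t ht
    have : t ≤ z.support.sup id := Finset.le_sup (f := id) ht
    simp only [h]
    omega
  have hs : ∀ c : F, c ≠ 0 → ∀ z : ℕ →₀ F, h (c • z) = h z := by
    intro c hc z
    simp only [h]
    rw [Finsupp.support_smul_eq hc, nrm_smul hc]
  -- starting threshold
  let K : ℕ := max (N []) (Encodable.encode ([] : List (ℕ →₀ F)))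
  let S : Submodule F (ℕ →₀ F) := Submodule.span F (Set.range X') ⊓ tailSub F K
  have hS : ((S : Set (ℕ →₀ F)) \ {0}) ∈ 𝓕 := by
    apply Filter.mem_of_superset (Filter.inter_mem hX'𝓕 (hcof _ (tailSub_cofin K)))
    rintro v ⟨⟨hv1, hv0⟩, ⟨hv2, _⟩⟩
    exact ⟨⟨hv1, hv2⟩, hv0⟩
  obtain ⟨Z, hZ, hZ𝓕, hZS, hZg⟩ := hgap h hh hs S hS
  let X : ℕ → (ℕ →₀ F) := fun n => nrm (Z n)
  have hXsupp : ∀ n, (X n).support = (Z n).support := fun n => supp_nrm _
  have hXb : IsBlock X := by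
    intro n
    refine ⟨nrm_ne_zero (hZ n).1, ?_⟩
    rw [hXsupp, hXsupp]
    exact (hZ n).2
  have hspan : Submodule.span F (Set.range Z) ≤ Submodule.span F (Set.range X) := by
    rw [Submodule.span_le]
    rintro _ ⟨n, rfl⟩
    exact mem_of_nrm_mem (Submodule.subset_span ⟨n, rfl⟩)
  have hX𝓕 : sp X ∈ 𝓕 := by
    apply Filter.mem_of_superset hZ𝓕
    rintro v ⟨hv, hv0⟩
    exact ⟨hspan hv, hv0⟩
  have hXX' : ∀ n, X n ∈ Submodule.span F (Set.range X') := fun n => nrm_mem (hZS n).1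
  -- key invariant
  have key : ∀ k, ∀ t ∈ (Z k).support,
      Encodable.encode (List.ofFn (fun i : Fin k => X i.val)) ≤ t ∧
      N (List.ofFn (fun i : Fin k => X i.val)) ≤ t := by
    intro k
    induction k with
    | zero =>
      intro t ht
      have h1 := mem_tailSub.1 (hZS 0).2 t ht
      rw [List.ofFn_zero]
      exact ⟨le_trans (le_max_right _ _) h1, le_trans (le_max_left _ _) h1⟩
    | succ k ih =>
      intro t ht
      have h1 := hZg k t ht
      have h2 : Encodable.encode (List.ofFn (fun i : Fin k => X i.val)) ≤ (Z k).support.sup id := by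
        obtain ⟨u, hu⟩ := hZ.supp_nonempty k
        exact le_trans (ih u hu).1 (Finset.le_sup (f := id) hu)
      have h3 := hA _ (X k) _ h2
      have h4 : List.ofFn (fun i : Fin (k+1) => X i.val) =
          List.ofFn (fun i : Fin k => X i.val) ++ [X k] := by
        rw [List.ofFn_succ', List.concat_eq_append]
        rfl
      rw [h4]
      have h5 : h (Z k) = A ((Z k).support.sup id) (X k) + (Z k).support.sup id := rfl
      rw [h5] at h1
      exact ⟨by omega, by omega⟩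
  refine ⟨X, hXb, hX𝓕, ?_⟩
  intro k
  rw [Submodule.span_le]
  rintro _ ⟨n, rfl⟩
  apply hN _ _ (hXX' _)
  intro t ht
  have ht' : t ∈ (Z (n+k)).support := by rwa [hXsupp] at ht
  rcases Nat.eq_zero_or_pos n with hn | hn
  · subst hn
    rw [Nat.zero_add] at ht'
    exact (key k t ht').2
  · obtain ⟨u, hu⟩ := hZ.supp_nonempty k
    have h1 := (key k u hu).2
    have h2 := hZ.lt (show k < n + k by omega) u hu t ht'
    omega

end Pool.Agent.H829R3
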