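import Mathlib

set_option autoImplicit false

/-!
# Linear refinements of centered families: basic lemmas
-/

open Set Cardinal

namespace Pool.Agent.H829R3.LR

variable {α β : Type}

/-- `A ⊆* B`. -/
def AlmostLE (A B : Set α) : Prop := (A \ B).Finite

/-- all intersections of finitely many members are infinite -/
def Cent (G : Set (Set α)) : Prop :=
  ∀ Φ : Finset (Set α), (↑Φ : Set (Set α)) ⊆ G → (⋂ A ∈ Φ, A).Infinite

/-- a family of infinite sets which is linearly (quasi-)ordered by `⊆*` -/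
def Lin (T : Set (Set α)) : Prop :=
  (∀ A ∈ T, A.Infinite) ∧ ∀ A ∈ T, ∀ B ∈ T, AlmostLE A B ∨ AlmostLE B A

/-- `T` refines `G` -/
def Ref (T G : Set (Set α)) : Prop := ∀ A ∈ G, ∃ B ∈ T, AlmostLE B A

lemma AlmostLE.refl (A : Set α) : AlmostLE A A := by simp [AlmostLE]

lemma AlmostLE.trans {A B C : Set α} (h1 : AlmostLE A B) (h2 : AlmostLE B C) : AlmostLE A C := by
  refine (h1.union h2).subset ?_
  rintro x ⟨hx, hxC⟩
  by_cases hB : x ∈ B
  · exact Or.inr ⟨hB, hxC⟩
  · exact Or.inl ⟨hx, hB⟩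

lemma almostLE_of_subset {A B : Set α} (h : A ⊆ B) : AlmostLE A B := by
  unfold AlmostLE
  rw [Set.sdiff_eq_empty.2 h]
  exact Set.finite_empty

lemma inter_inf {A B : Set α} (hA : A.Infinite) (h : AlmostLE A B) : (A ∩ B).Infinite := by
  intro hf
  apply hA
  refine (hf.union h).subset ?_
  intro x hx
  by_cases hB : x ∈ B
  · exact Or.inl ⟨hx, hB⟩
  · exact Or.inr ⟨hx, hB⟩

lemma inf_of_almost {A B : Set α} (hA : A.Infinite) (h : AlmostLE A B) : B.Infinite :=
  (inter_inf hA h).mono Set.inter_subset_right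

lemma almostLE_biInter {t : Set α} (Φ : Finset (Set α)) (h : ∀ A ∈ Φ, AlmostLE t A) :
    AlmostLE t (⋂ A ∈ Φ, A) := by
  have : (⋃ A ∈ Φ, t \ A).Finite := by
    apply Set.Finite.biUnion Φ.finite_toSet
    intro A hA
    exact h A hA
  refine this.subset ?_
  rintro x ⟨hx, hx2⟩
  simp only [mem_iInter, not_forall] at hx2
  obtain ⟨A, hA, hxA⟩ := hx2
  simp only [mem_iUnion]
  exact ⟨A, hA, hx, hxA⟩

lemma Cent.mono {G G' : Set (Set α)} (h : Cent G') (hs : G ⊆ G') : Cent G :=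
  fun Φ hΦ => h Φ (hΦ.trans hs)

lemma exists_min {T G : Set (Set α)} (hT : Lin T) (hR : Ref T G) {c : Set α} (hc : c ∈ T)
    (Φ : Finset (Set α)) : (↑Φ : Set (Set α)) ⊆ G →
      ∃ t ∈ T, AlmostLE t c ∧ ∀ A ∈ Φ, AlmostLE t A := by
  classical
  induction Φ using Finset.induction_on with
  | empty => intro _; exact ⟨c, hc, AlmostLE.refl c, by simp⟩
  | insert A Φ hA ih =>
    intro hΦ
    rw [Finset.coe_insert, Set.insert_subset_iff] at hΦ
    obtain ⟨t, ht, htc, htΦ⟩ := ih hΦ.2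
    obtain ⟨b, hb, hbA⟩ := hR A hΦ.1
    rcases hT.2 t ht b hb with h | h
    · refine ⟨t, ht, htc, ?_⟩
      intro B hB
      rcases Finset.mem_insert.1 hB with rfl | hB
      · exact h.trans hbA
      · exact htΦ B hB
    · refine ⟨b, hb, h.trans htc, ?_⟩
      intro B hB
      rcases Finset.mem_insert.1 hB with rfl | hB
      · exact hbA
      · exact h.trans (htΦ B hB)

lemma compat {T G : Set (Set α)} (hT : Lin T) (hR : Ref T G) {c : Set α} (hc : c ∈ T)
    (Φ : Finset (Set α)) (hΦ : (↑Φ : Set (Set α)) ⊆ G) : (c ∩ ⋂ A ∈ Φ, A).Infinite := by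
  obtain ⟨t, ht, htc, htΦ⟩ := exists_min hT hR hc Φ hΦ
  have h1 := inter_inf (hT.1 t ht) htc
  have h2 : AlmostLE (t ∩ c) (⋂ A ∈ Φ, A) :=
    (almostLE_of_subset Set.inter_subset_left).trans (almostLE_biInter Φ htΦ)
  refine (inter_inf h1 h2).mono ?_
  rintro x ⟨⟨_, hx⟩, hx2⟩
  exact ⟨hx, hx2⟩

lemma compat_one {T G : Set (Set α)} (hT : Lin T) (hR : Ref T G) {c D : Set α} (hc : c ∈ T)
    (hD : D ∈ G) : (c ∩ D).Infinite := by
  have := compat hT hR hc {D} (by simpa using hD)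
  simpa using this

/-- every centered family of size `< lam` has a linear refinement of size `≤ θ` -/
def Small (α : Type) (lam θ : Cardinal.{0}) : Prop :=
  ∀ G : Set (Set α), Cent G → #G < lam → ∃ T : Set (Set α), Lin T ∧ Ref T G ∧ #T ≤ θ

lemma image_almost {f : α → β} {A B : Set α} (h : AlmostLE A B) : AlmostLE (f '' A) (f '' B) := by
  refine (h.image f).subset ?_
  rintro _ ⟨⟨x, hx, rfl⟩, hx2⟩
  refine ⟨x, ⟨hx, fun hB => hx2 ⟨x, hB, rfl⟩⟩, rfl⟩

lemma Small.transfer {lam θ : Cardinal.{0}} (h : Small β lam θ) (e : α ≃ β) : Small α lam θ := by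
  classical
  intro G hG hGc
  have hc1 : Cent ((fun A : Set α => e '' A) '' G) := by
    intro Φ hΦ
    have h1 : (⋂ A ∈ Φ.image (fun B : Set β => e ⁻¹' B), A).Infinite := by
      apply hG
      intro A hA
      simp only [Finset.coe_image, Set.mem_image, Finset.mem_coe] at hA
      obtain ⟨B, hB, rfl⟩ := hA
      obtain ⟨C, hC, hCB⟩ := hΦ hB
      simp only at hCB
      rw [← hCB, Set.preimage_image_eq _ e.injective]
      exact hC
    refine (h1.image e.injective.injOn).mono ?_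
    rintro _ ⟨x, hx, rfl⟩
    simp only [mem_iInter, Finset.mem_image, forall_exists_index, and_imp,
      forall_apply_eq_imp_iff₂, Set.mem_preimage] at hx ⊢
    exact hx
  obtain ⟨T, hT, hR, hTc⟩ := h _ hc1 (lt_of_le_of_lt Cardinal.mk_image_le hGc)
  refine ⟨(fun A : Set β => e.symm '' A) '' T, ⟨?_, ?_⟩, ?_, le_trans Cardinal.mk_image_le hTc⟩
  · rintro _ ⟨A, hA, rfl⟩
    exact (hT.1 A hA).image e.symm.injective.injOn
  · rintro _ ⟨A, hA, rfl⟩ _ ⟨B, hB, rfl⟩
    rcases hT.2 A hA B hB with h | h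
    · exact Or.inl (image_almost h)
    · exact Or.inr (image_almost h)
  · intro A hA
    obtain ⟨B, hB, hBA⟩ := hR _ ⟨A, hA, rfl⟩
    refine ⟨_, ⟨B, hB, rfl⟩, ?_⟩
    have := image_almost (f := e.symm) hBA
    simpa [Set.image_image] using this

/-- a countable centered family on `ℕ` has an infinite pseudo-intersection -/
lemma countable_pseudo {G : Set (Set ℕ)} (hG : Cent G) (hc : G.Countable) :
    ∃ B : Set ℕ, B.Infinite ∧ ∀ A ∈ G, AlmostLE B A := by
  classical
  rcases G.eq_empty_or_nonempty with rfl | hne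
  · exact ⟨Set.univ, Set.infinite_univ, by simp⟩
  obtain ⟨f, rfl⟩ := hc.exists_eq_range hne
  have h1 : ∀ n k : ℕ, ∃ x, k < x ∧ ∀ m ≤ n, x ∈ f m := by
    intro n k
    have h2 : (⋂ A ∈ (Finset.range (n + 1)).image f, A).Infinite := by
      apply hG
      intro A hA
      simp only [Finset.coe_image, Set.mem_image] at hA
      obtain ⟨m, _, rfl⟩ := hA
      exact ⟨m, rfl⟩
    obtain ⟨x, hx, hkx⟩ := h2.exists_gt k
    refine ⟨x, hkx, fun m hm => ?_⟩
    simp only [mem_iInter, Finset.mem_image, Finset.mem_range, forall_exists_index, and_imp,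
      forall_apply_eq_imp_iff₂] at hx
    exact hx m (by omega)
  choose g hg1 hg2 using h1
  let x : ℕ → ℕ := fun n => Nat.rec (g 0 0) (fun n xn => g (n + 1) xn) n
  have hx0 : ∀ n, x (n + 1) = g (n + 1) (x n) := fun n => rfl
  have hmono : StrictMono x := strictMono_nat_of_lt_succ (fun n => by rw [hx0]; exact hg1 _ _)
  have hmem : ∀ n, ∀ m ≤ n, x n ∈ f m := by
    intro n
    cases n with
    | zero => exact hg2 0 0
    | succ n => rw [hx0]; exact hg2 _ _
  refine ⟨Set.range x, Set.infinite_range_of_injective hmono.injective, ?_⟩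
  rintro _ ⟨m, rfl⟩
  refine ((Set.finite_lt_nat m).image x).subset ?_
  rintro _ ⟨⟨n, rfl⟩, hn⟩
  refine ⟨n, ?_, rfl⟩
  simp only [Set.mem_ofPred_eq]
  by_contra hlt
  exact hn (hmem n m (by omega))

end Pool.Agent.H829R3.LR
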