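import Mathlib
import Pool.Agent.H829R3.LR1

set_option autoImplicit false

/-!
# Linear refinements of centered families: uniform bound and the key lemma
-/

open Set Cardinal

namespace Pool.Agent.H829R3.LR

/-- Uniform bound for the sizes of linear refinements. -/
lemma uniform (lam : Cardinal.{0}) (h0 : ℵ₀ < lam)
    (hS : ∀ G : Set (Set ℕ), Cent G → #G < lam → ∃ T : Set (Set ℕ), Lin T ∧ Ref T G) :
    ∃ θ < lam, Small ℕ lam θ := by
  classical
  by_contra hcon
  push Not at hcon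
  have hcon2 : ∀ θ < lam, ∃ G : Set (Set ℕ), Cent G ∧ #G < lam ∧
      ∀ T : Set (Set ℕ), Lin T → Ref T G → θ < #T := by
    intro θ hθ
    have := hcon θ hθ
    unfold Small at this
    push Not at this
    exact this
  -- transfer of the hypothesis to `ℕ × ℕ`
  have hS2 : Small (ℕ × ℕ) lam (#(Set ℕ)) := by
    have h1 : Small ℕ lam (#(Set ℕ)) := by
      intro G hG hGc
      obtain ⟨T, hT, hR⟩ := hS G hG hGc
      exact ⟨T, hT, hR, Cardinal.mk_set_le T⟩
    exact h1.transfer (Denumerable.eqv (ℕ × ℕ))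
  -- every centered family of size `< lam` has a pseudo-intersection
  have key : ∀ G : Set (Set ℕ), Cent G → #G < lam →
      ∃ p : Set ℕ, p.Infinite ∧ ∀ A ∈ G, AlmostLE p A := by
    intro G hG hGc
    obtain ⟨G', hG', hGc', hbig⟩ := hcon2 (#G) hGc
    let K : Set (Set (ℕ × ℕ)) := ((fun A : Set ℕ => {p : ℕ × ℕ | p.1 ∈ A}) '' G) ∪
      ((fun B : Set ℕ => {p : ℕ × ℕ | p.2 ∈ B}) '' G') ∪
      (Set.range (fun m : ℕ => {p : ℕ × ℕ | m ≤ p.1 ∧ m ≤ p.2}))
    have hKc : #K < lam := by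
      refine lt_of_le_of_lt (Cardinal.mk_union_le _ _) ?_
      refine Cardinal.add_lt_of_lt h0.le ?_ ?_
      · refine lt_of_le_of_lt (Cardinal.mk_union_le _ _) ?_
        exact Cardinal.add_lt_of_lt h0.le (lt_of_le_of_lt Cardinal.mk_image_le hGc)
          (lt_of_le_of_lt Cardinal.mk_image_le hGc')
      · refine lt_of_le_of_lt Cardinal.mk_range_le ?_
        simpa using h0
    have hK : Cent K := by
      have hbase : ∀ Φ : Finset (Set (ℕ × ℕ)), (↑Φ : Set (Set (ℕ × ℕ))) ⊆ K →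
          ∃ (Ψ Γ : Finset (Set ℕ)) (m : ℕ), (↑Ψ : Set (Set ℕ)) ⊆ G ∧ (↑Γ : Set (Set ℕ)) ⊆ G' ∧
            {p : ℕ × ℕ | p.1 ∈ (⋂ A ∈ Ψ, A) ∧ p.2 ∈ (⋂ A ∈ Γ, A) ∧ m ≤ p.1 ∧ m ≤ p.2} ⊆
              ⋂ D ∈ Φ, D := by
        intro Φ
        induction Φ using Finset.induction_on with
        | empty => intro _; exact ⟨∅, ∅, 0, by simp, by simp, by simp⟩
        | insert D Φ hD ih =>
          intro hΦ
          rw [Finset.coe_insert, Set.insert_subset_iff] at hΦ
          obtain ⟨Ψ, Γ, m, h1, h2, h3⟩ := ih hΦ.2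
          have h4 : ∀ p ∈ {p : ℕ × ℕ | p.1 ∈ (⋂ A ∈ Ψ, A) ∧ p.2 ∈ (⋂ A ∈ Γ, A) ∧ m ≤ p.1 ∧
              m ≤ p.2}, ∀ E ∈ Φ, p ∈ E := by
            intro p hp E hE
            have := h3 hp
            simp only [mem_iInter] at this
            exact this E hE
          rcases hΦ.1 with (⟨A, hA, rfl⟩ | ⟨B, hB, rfl⟩) | ⟨k, rfl⟩
          · refine ⟨insert A Ψ, Γ, m, ?_, h2, ?_⟩
            · rw [Finset.coe_insert, Set.insert_subset_iff]; exact ⟨hA, h1⟩
            · rintro p ⟨hp1, hp2, hp3, hp4⟩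
              simp only [mem_iInter] at hp1
              simp only [mem_iInter]
              intro E hE
              rcases Finset.mem_insert.1 hE with rfl | hE
              · exact hp1 A (Finset.mem_insert_self _ _)
              · refine h4 p ⟨?_, hp2, hp3, hp4⟩ E hE
                simp only [mem_iInter]
                exact fun C hC => hp1 C (Finset.mem_insert_of_mem hC)
          · refine ⟨Ψ, insert B Γ, m, h1, ?_, ?_⟩
            · rw [Finset.coe_insert, Set.insert_subset_iff]; exact ⟨hB, h2⟩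
            · rintro p ⟨hp1, hp2, hp3, hp4⟩
              simp only [mem_iInter] at hp2
              simp only [mem_iInter]
              intro E hE
              rcases Finset.mem_insert.1 hE with rfl | hE
              · exact hp2 B (Finset.mem_insert_self _ _)
              · refine h4 p ⟨hp1, ?_, hp3, hp4⟩ E hE
                simp only [mem_iInter]
                exact fun C hC => hp2 C (Finset.mem_insert_of_mem hC)
          · refine ⟨Ψ, Γ, max m k, h1, h2, ?_⟩
            rintro p ⟨hp1, hp2, hp3, hp4⟩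
            simp only [mem_iInter]
            intro E hE
            rcases Finset.mem_insert.1 hE with rfl | hE
            · exact ⟨le_trans (le_max_right _ _) hp3, le_trans (le_max_right _ _) hp4⟩
            · exact h4 p ⟨hp1, hp2, le_trans (le_max_left _ _) hp3,
                le_trans (le_max_left _ _) hp4⟩ E hE
      intro Φ hΦ
      obtain ⟨Ψ, Γ, m, h1, h2, h3⟩ := hbase Φ hΦ
      refine Set.Infinite.mono h3 ?_
      have hI := hG Ψ h1
      have hJ := hG' Γ h2
      obtain ⟨y, hy, hym⟩ := hJ.exists_gt m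
      have hI2 : ((⋂ A ∈ Ψ, A) ∩ {x | m ≤ x}).Infinite := by
        apply inter_inf hI
        refine (Set.finite_lt_nat m).subset ?_
        rintro x ⟨_, hx⟩
        simp only [Set.mem_ofPred_eq, not_le] at hx ⊢
        exact hx
      refine (hI2.image (f := fun x => (x, y)) (fun a _ b _ h => (Prod.mk.inj h).1)).mono ?_
      rintro _ ⟨x, ⟨hx, hxm⟩, rfl⟩
      exact ⟨hx, hy, hxm, hym.le⟩
    obtain ⟨T, hT, hR, _⟩ := hS2 K hK hKc
    -- projections
    have hproj : ∀ t ∈ T, (Prod.fst '' t).Infinite ∧ (Prod.snd '' t).Infinite := by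
      intro t ht
      have h1 : ∀ m : ℕ, ∃ p ∈ t, m ≤ p.1 ∧ m ≤ p.2 := by
        intro m
        have h2 := compat_one hT hR ht (D := {p : ℕ × ℕ | m ≤ p.1 ∧ m ≤ p.2})
          (Or.inr ⟨m, rfl⟩)
        obtain ⟨p, hp1, hp2⟩ := h2.nonempty
        exact ⟨p, hp1, hp2⟩
      constructor
      · apply Set.infinite_of_forall_exists_gt
        intro a
        obtain ⟨p, hp, h2, h3⟩ := h1 (a + 1)
        exact ⟨p.1, ⟨p, hp, rfl⟩, by omega⟩
      · apply Set.infinite_of_forall_exists_gt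
        intro a
        obtain ⟨p, hp, h2, h3⟩ := h1 (a + 1)
        exact ⟨p.2, ⟨p, hp, rfl⟩, by omega⟩
    have hA : ∀ A : Set ℕ, ∃ t : Set (ℕ × ℕ), A ∈ G → t ∈ T ∧ AlmostLE t {p : ℕ × ℕ | p.1 ∈ A} := by
      intro A
      by_cases h : A ∈ G
      · obtain ⟨t, ht, htA⟩ := hR _ (Or.inl (Or.inl ⟨A, h, rfl⟩))
        exact ⟨t, fun _ => ⟨ht, htA⟩⟩
      · exact ⟨∅, fun h' => absurd h' h⟩
    choose tA htA using hA
    have hLin : Lin ((fun A : Set ℕ => Prod.snd '' (tA A)) '' G) := by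
      constructor
      · rintro _ ⟨A, hA, rfl⟩
        exact (hproj _ (htA A hA).1).2
      · rintro _ ⟨A, hA, rfl⟩ _ ⟨B, hB, rfl⟩
        rcases hT.2 _ (htA A hA).1 _ (htA B hB).1 with h | h
        · exact Or.inl (image_almost h)
        · exact Or.inr (image_almost h)
    have hnot : ¬ Ref ((fun A : Set ℕ => Prod.snd '' (tA A)) '' G) G' := by
      intro hr
      exact absurd (hbig _ hLin hr) (not_lt.2 Cardinal.mk_image_le)
    unfold Ref at hnot
    push Not at hnot
    obtain ⟨B, hB, hBn⟩ := hnot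
    obtain ⟨tB, htB, htBB⟩ := hR _ (Or.inl (Or.inr ⟨B, hB, rfl⟩))
    refine ⟨Prod.fst '' tB, (hproj tB htB).1, ?_⟩
    intro A hA
    have h1 : AlmostLE tB (tA A) := by
      rcases hT.2 _ (htA A hA).1 _ htB with h | h
      · exfalso
        apply hBn _ ⟨A, hA, rfl⟩
        have h2 := image_almost (f := Prod.snd) (h.trans htBB)
        refine h2.trans (almostLE_of_subset ?_)
        rintro _ ⟨p, hp, rfl⟩
        exact hp
      · exact h
    have h2 := image_almost (f := Prod.fst) (h1.trans (htA A hA).2)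
    refine h2.trans (almostLE_of_subset ?_)
    rintro _ ⟨p, hp, rfl⟩
    exact hp
  obtain ⟨G, hG, hGc, hbig⟩ := hcon2 1 (lt_trans Cardinal.one_lt_aleph0 h0)
  obtain ⟨p, hp, hpA⟩ := key G hG hGc
  have := hbig {p} ⟨by simpa using hp, by simp [AlmostLE.refl]⟩ (fun A hA => ⟨p, rfl, hpA A hA⟩)
  simp at this

/-- the union of a family of finite sets -/
def U (ρ : Set (Finset ℕ)) : Set ℕ := {x | ∃ a ∈ ρ, x ∈ a}

lemma U_almost {ρ σ : Set (Finset ℕ)} (h : AlmostLE ρ σ) : AlmostLE (U ρ) (U σ) := by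
  have h1 : (⋃ a ∈ ρ \ σ, (↑a : Set ℕ)).Finite := by
    apply Set.Finite.biUnion h
    intro a _
    exact a.finite_toSet
  refine h1.subset ?_
  rintro x ⟨⟨a, ha, hx⟩, hx2⟩
  simp only [mem_iUnion]
  exact ⟨a, ⟨ha, fun h' => hx2 ⟨a, h', hx⟩⟩, hx⟩

lemma U_subset {A : Set ℕ} : U {a : Finset ℕ | (↑a : Set ℕ) ⊆ A} ⊆ A := by
  rintro x ⟨a, ha, hx⟩
  exact ha hx

lemma U_infinite {ρ : Set (Finset ℕ)} (h : ρ.Infinite) : (U ρ).Infinite := by
  intro hf
  apply h
  refine (Finset.finite_toSet hf.toFinset.powerset).subset ?_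
  intro a ha
  rw [Finset.mem_coe, Finset.mem_powerset]
  intro x hx
  rw [Set.Finite.mem_toFinset]
  exact ⟨a, ha, hx⟩

/-- **Key lemma**: a centered family `F₀` has a linear refinement all of whose members meet
each of given (not mutually compatible) sets `c` compatible with `F₀`. -/
lemma keyL {lam θ : Cardinal.{0}} (h0 : ℵ₀ < lam) (hS : Small (Finset ℕ) lam θ)
    (F C : Set (Set ℕ)) (hF : Cent F) (hFc : #F < lam) (hCc : #C < lam)
    (hcomp : ∀ c ∈ C, ∀ Φ : Finset (Set ℕ), (↑Φ : Set (Set ℕ)) ⊆ F → (c ∩ ⋂ A ∈ Φ, A).Infinite) :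
    ∃ S : Set (Set ℕ), Lin S ∧ Ref S F ∧ #S ≤ θ ∧ ∀ s ∈ S, ∀ c ∈ C, (s ∩ c).Infinite := by
  classical
  let M : Set ℕ × ℕ → Set (Finset ℕ) := fun p => {a | p.2 ≤ ((↑a : Set ℕ) ∩ p.1).ncard}
  let H : Set (Set (Finset ℕ)) := ((fun A : Set ℕ => {a : Finset ℕ | (↑a : Set ℕ) ⊆ A}) '' F) ∪
    (M '' (C ×ˢ (Set.univ : Set ℕ)))
  have hHc : #H < lam := by
    refine lt_of_le_of_lt (Cardinal.mk_union_le _ _) ?_
    refine Cardinal.add_lt_of_lt h0.le (lt_of_le_of_lt Cardinal.mk_image_le hFc) ?_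
    refine lt_of_le_of_lt Cardinal.mk_image_le ?_
    rw [Cardinal.mk_setProd]
    refine Cardinal.mul_lt_of_lt h0.le ?_ ?_
    · simpa using hCc
    · simpa using h0
  have hH : Cent H := by
    have hbase : ∀ Φ : Finset (Set (Finset ℕ)), (↑Φ : Set (Set (Finset ℕ))) ⊆ H →
        ∃ (Ψ : Finset (Set ℕ)) (Γ : Finset (Set ℕ × ℕ)), (↑Ψ : Set (Set ℕ)) ⊆ F ∧
          (∀ p ∈ Γ, p.1 ∈ C) ∧
          {a : Finset ℕ | (↑a : Set ℕ) ⊆ (⋂ A ∈ Ψ, A) ∧ ∀ p ∈ Γ, a ∈ M p} ⊆ ⋂ D ∈ Φ, D := by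
      intro Φ
      induction Φ using Finset.induction_on with
      | empty => intro _; exact ⟨∅, ∅, by simp, by simp, by simp⟩
      | insert D Φ hD ih =>
        intro hΦ
        rw [Finset.coe_insert, Set.insert_subset_iff] at hΦ
        obtain ⟨Ψ, Γ, h1, h2, h3⟩ := ih hΦ.2
        have h4 : ∀ a : Finset ℕ, (↑a : Set ℕ) ⊆ (⋂ A ∈ Ψ, A) → (∀ p ∈ Γ, a ∈ M p) →
            ∀ E ∈ Φ, a ∈ E := by
          intro a ha1 ha2 E hE
          have := h3 (⟨ha1, ha2⟩ : a ∈ {a : Finset ℕ | (↑a : Set ℕ) ⊆ (⋂ A ∈ Ψ, A) ∧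
            ∀ p ∈ Γ, a ∈ M p})
          simp only [mem_iInter] at this
          exact this E hE
        rcases hΦ.1 with ⟨A, hA, rfl⟩ | ⟨p, hp, rfl⟩
        · refine ⟨insert A Ψ, Γ, ?_, h2, ?_⟩
          · rw [Finset.coe_insert, Set.insert_subset_iff]; exact ⟨hA, h1⟩
          · rintro a ⟨ha1, ha2⟩
            simp only [mem_iInter]
            intro E hE
            rcases Finset.mem_insert.1 hE with rfl | hE
            · refine ha1.trans ?_
              exact Set.biInter_subset_of_mem (Finset.mem_insert_self _ _)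
            · refine h4 a (ha1.trans ?_) ha2 E hE
              intro x hx
              simp only [mem_iInter] at hx ⊢
              exact fun B hB => hx B (Finset.mem_insert_of_mem hB)
        · refine ⟨Ψ, insert p Γ, h1, ?_, ?_⟩
          · intro q hq
            rcases Finset.mem_insert.1 hq with rfl | hq
            · exact hp.1
            · exact h2 q hq
          · rintro a ⟨ha1, ha2⟩
            simp only [mem_iInter]
            intro E hE
            rcases Finset.mem_insert.1 hE with rfl | hE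
            · exact ha2 p (Finset.mem_insert_self _ _)
            · exact h4 a ha1 (fun q hq => ha2 q (Finset.mem_insert_of_mem hq)) E hE
    intro Φ hΦ
    obtain ⟨Ψ, Γ, h1, h2, h3⟩ := hbase Φ hΦ
    refine Set.Infinite.mono h3 ?_
    -- existence of `a`
    have hex : ∀ Γ' : Finset (Set ℕ × ℕ), (∀ p ∈ Γ', p.1 ∈ C) →
        ∃ a : Finset ℕ, (↑a : Set ℕ) ⊆ (⋂ A ∈ Ψ, A) ∧ ∀ p ∈ Γ', a ∈ M p := by
      intro Γ'
      induction Γ' using Finset.induction_on with
      | empty => intro _; exact ⟨∅, by simp, by simp⟩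
      | insert p Γ' hp ih =>
        intro hΓ
        obtain ⟨a, ha1, ha2⟩ := ih (fun q hq => hΓ q (Finset.mem_insert_of_mem hq))
        have h5 := hcomp p.1 (hΓ p (Finset.mem_insert_self _ _)) Ψ h1
        obtain ⟨b, hb1, hb2⟩ := h5.exists_subset_card_eq p.2
        refine ⟨a ∪ b, ?_, ?_⟩
        · rw [Finset.coe_union]
          exact Set.union_subset ha1 (fun x hx => (hb1 hx).2)
        · intro q hq
          rcases Finset.mem_insert.1 hq with rfl | hq
          · change q.2 ≤ ((↑(a ∪ b) : Set ℕ) ∩ q.1).ncard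
            rw [← hb2, ← Set.ncard_coe_finset]
            apply Set.ncard_le_ncard
            · intro x hx
              exact ⟨by rw [Finset.coe_union]; exact Or.inr hx, (hb1 hx).1⟩
            · exact (Finset.finite_toSet _).inter_of_left _
          · have h9 : q.2 ≤ ((↑a : Set ℕ) ∩ q.1).ncard := ha2 q hq
            change q.2 ≤ ((↑(a ∪ b) : Set ℕ) ∩ q.1).ncard
            refine le_trans h9 ?_
            apply Set.ncard_le_ncard
            · intro x hx
              exact ⟨by rw [Finset.coe_union]; exact Or.inl hx.1, hx.2⟩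
            · exact (Finset.finite_toSet _).inter_of_left _
    obtain ⟨a, ha1, ha2⟩ := hex Γ h2
    apply Set.Infinite.of_image Finset.card
    apply Set.infinite_of_forall_exists_gt
    intro N
    obtain ⟨b, hb1, hb2⟩ := (hF Ψ h1).exists_subset_card_eq (N + 1)
    refine ⟨(a ∪ b).card, ⟨a ∪ b, ⟨?_, ?_⟩, rfl⟩, ?_⟩
    · rw [Finset.coe_union]
      exact Set.union_subset ha1 hb1
    · intro q hq
      have h9 : q.2 ≤ ((↑a : Set ℕ) ∩ q.1).ncard := ha2 q hq
      change q.2 ≤ ((↑(a ∪ b) : Set ℕ) ∩ q.1).ncard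
      refine le_trans h9 ?_
      apply Set.ncard_le_ncard
      · intro x hx
        exact ⟨by rw [Finset.coe_union]; exact Or.inl hx.1, hx.2⟩
      · exact (Finset.finite_toSet _).inter_of_left _
    · have := Finset.card_le_card (Finset.subset_union_right : b ⊆ a ∪ b)
      omega
  obtain ⟨R, hR, hRH, hRc⟩ := hS H hH hHc
  refine ⟨U '' R, ⟨?_, ?_⟩, ?_, le_trans Cardinal.mk_image_le hRc, ?_⟩
  · rintro _ ⟨ρ, hρ, rfl⟩
    exact U_infinite (hR.1 ρ hρ)
  · rintro _ ⟨ρ, hρ, rfl⟩ _ ⟨σ, hσ, rfl⟩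
    rcases hR.2 ρ hρ σ hσ with h | h
    · exact Or.inl (U_almost h)
    · exact Or.inr (U_almost h)
  · intro A hA
    obtain ⟨ρ, hρ, hρA⟩ := hRH _ (Or.inl ⟨A, hA, rfl⟩)
    exact ⟨U ρ, ⟨ρ, hρ, rfl⟩, (U_almost hρA).trans (almostLE_of_subset U_subset)⟩
  · rintro _ ⟨ρ, hρ, rfl⟩ c hc hfin
    have h1 := compat_one hR hRH hρ (D := M (c, (U ρ ∩ c).ncard + 1))
      (Or.inr ⟨(c, (U ρ ∩ c).ncard + 1), ⟨hc, trivial⟩, rfl⟩)
    obtain ⟨a, ha, ha2⟩ := h1.nonempty
    have h2 : (U ρ ∩ c).ncard + 1 ≤ ((↑a : Set ℕ) ∩ c).ncard := ha2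
    have h3 : ((↑a : Set ℕ) ∩ c).ncard ≤ (U ρ ∩ c).ncard := by
      apply Set.ncard_le_ncard
      · intro x hx
        exact ⟨⟨a, ha, hx.1⟩, hx.2⟩
      · exact hfin
    omega

end Pool.Agent.H829R3.LR
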