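import Mathlib
import Pool.Agent.H829R3.LR2

set_option autoImplicit false

/-!
# Linear refinements of centered families: regularity
-/

open Set Cardinal

namespace Pool.Agent.H829R3.LR

lemma mk_finset_lt {ι : Type} {lam : Cardinal.{0}} (h0 : ℵ₀ < lam) (hι : #ι < lam) :
    #(Finset ι) < lam := by
  rcases finite_or_infinite ι with h | h
  · exact lt_trans (Cardinal.lt_aleph0_of_finite _) h0
  · rw [Cardinal.mk_finset_of_infinite]
    exact hι

lemma mk_biUnion_finset_lt {ι : Type} {lam : Cardinal.{0}} (h0 : ℵ₀ < lam)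
    (F : ι → Set (Set ℕ)) (hF : ∀ k, #(F k) < lam) (Φ : Finset ι) :
    #(⋃ k ∈ Φ, F k : Set (Set ℕ)) < lam := by
  classical
  induction Φ using Finset.induction_on with
  | empty =>
    simp only [Finset.notMem_empty, Set.iUnion_of_empty, Set.iUnion_empty]
    simpa using lt_trans Cardinal.aleph0_pos h0
  | insert k Φ hk ih =>
    rw [Finset.set_biUnion_insert]
    exact lt_of_le_of_lt (Cardinal.mk_union_le _ _) (Cardinal.add_lt_of_lt h0.le (hF k) ih)

/-- **Extension step.** -/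
lemma ext {ι : Type} {lam θ : Cardinal.{0}} (h0 : ℵ₀ < lam) (hθ : θ < lam)
    (hS : Small ℕ lam θ) (hι : #ι < lam) (F : ι → Set (Set ℕ)) (hF : ∀ k, #(F k) < lam)
    (W : Set (Set ℕ)) (hW : #W < lam) (hc : Cent ((⋃ k, F k) ∪ W)) (i : ι) :
    ∃ S : Set (Set ℕ), Lin S ∧ Ref S (F i) ∧ #S ≤ θ ∧ Cent ((⋃ k, F k) ∪ W ∪ S) := by
  classical
  let G : Finset ι → Set (Set ℕ) := fun Φ => (⋃ k ∈ Φ, F k) ∪ F i ∪ W
  have hGsub : ∀ Φ, G Φ ⊆ (⋃ k, F k) ∪ W := by
    rintro Φ A ((hA | hA) | hA)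
    · simp only [mem_iUnion] at hA
      obtain ⟨k, _, hA⟩ := hA
      exact Or.inl (mem_iUnion.2 ⟨k, hA⟩)
    · exact Or.inl (mem_iUnion.2 ⟨i, hA⟩)
    · exact Or.inr hA
  have hGc : ∀ Φ, #(G Φ) < lam := by
    intro Φ
    refine lt_of_le_of_lt (Cardinal.mk_union_le _ _) (Cardinal.add_lt_of_lt h0.le ?_ hW)
    exact lt_of_le_of_lt (Cardinal.mk_union_le _ _)
      (Cardinal.add_lt_of_lt h0.le (mk_biUnion_finset_lt h0 F hF Φ) (hF i))
  have hT : ∀ Φ, ∃ T : Set (Set ℕ), Lin T ∧ Ref T (G Φ) ∧ #T ≤ θ :=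
    fun Φ => hS (G Φ) (hc.mono (hGsub Φ)) (hGc Φ)
  choose T hT1 hT2 hT3 using hT
  let C : Set (Set ℕ) := ⋃ Φ, T Φ
  have hCc : #C < lam := by
    refine lt_of_le_of_lt (Cardinal.mk_iUnion_le _) ?_
    refine lt_of_le_of_lt (mul_le_mul_right (ciSup_le' hT3) _) ?_
    exact Cardinal.mul_lt_of_lt h0.le (mk_finset_lt h0 hι) hθ
  obtain ⟨S, hS1, hS2, hS3, hS4⟩ := keyL h0 (hS.transfer (Denumerable.eqv (Finset ℕ))) (F i) C
    (hc.mono (fun A hA => Or.inl (mem_iUnion.2 ⟨i, hA⟩))) (hF i) hCc (by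
      intro c hcC Φ' hΦ'
      obtain ⟨Φ, hcΦ⟩ := mem_iUnion.1 hcC
      exact compat (hT1 Φ) (hT2 Φ) hcΦ Φ' (hΦ'.trans (fun A hA => Or.inl (Or.inr hA))))
  refine ⟨S, hS1, hS2, hS3, ?_⟩
  intro Ψ hΨ
  by_cases hne : ∃ s0 ∈ Ψ, s0 ∈ S
  · obtain ⟨s0, _, hs0⟩ := hne
    -- the least member of `Ψ ∩ S`
    obtain ⟨s, hs, _, hsΨ⟩ := exists_min hS1 (G := S) (fun A hA => ⟨A, hA, AlmostLE.refl A⟩) hs0
      (Ψ.filter (· ∈ S)) (by intro A hA; simpa using (Finset.mem_filter.1 hA).2)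
    have hD : ∃ D : Set ℕ, D.Infinite ∧ ∀ A ∈ Ψ, AlmostLE D A := by
      by_cases hne2 : ∃ A0 ∈ Ψ, A0 ∉ S
      · obtain ⟨A0, hA0, hA0S⟩ := hne2
        let k : Set ℕ → ι := fun A => if h : ∃ k, A ∈ F k then h.choose else i
        let Φ : Finset ι := Ψ.image k
        have hsub : (↑(Ψ.filter (· ∉ S)) : Set (Set ℕ)) ⊆ G Φ := by
          intro A hA
          obtain ⟨hA1, hA2⟩ := Finset.mem_filter.1 hA
          rcases hΨ hA1 with (hA3 | hA3) | hA3
          · have h : ∃ k, A ∈ F k := mem_iUnion.1 hA3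
            refine Or.inl (Or.inl ?_)
            simp only [mem_iUnion]
            refine ⟨k A, Finset.mem_image_of_mem k hA1, ?_⟩
            simp only [k, dif_pos h]
            exact h.choose_spec
          · exact Or.inr hA3
          · exact absurd hA3 hA2
        obtain ⟨c, hcT, _⟩ := hT2 Φ A0 (hsub (Finset.mem_filter.2 ⟨hA0, hA0S⟩))
        obtain ⟨t, ht, _, htΨ⟩ := exists_min (hT1 Φ) (hT2 Φ) hcT _ hsub
        refine ⟨s ∩ t, hS4 s hs t (mem_iUnion.2 ⟨Φ, ht⟩), ?_⟩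
        intro A hA
        by_cases hAS : A ∈ S
        · exact (almostLE_of_subset Set.inter_subset_left).trans
            (hsΨ A (Finset.mem_filter.2 ⟨hA, hAS⟩))
        · exact (almostLE_of_subset Set.inter_subset_right).trans
            (htΨ A (Finset.mem_filter.2 ⟨hA, hAS⟩))
      · push Not at hne2
        exact ⟨s, hS1.1 s hs, fun A hA => hsΨ A (Finset.mem_filter.2 ⟨hA, hne2 A hA⟩)⟩
    obtain ⟨D, hD1, hD2⟩ := hD
    exact inf_of_almost hD1 (almostLE_biInter Ψ hD2)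
  · push Not at hne
    apply hc
    intro A hA
    rcases hΨ hA with h | h
    · exact h
    · exact absurd h (hne A hA)

/-- **Main construction**: if every centered family of size `< lam` has a linear refinement, then
so has every centered family which is a union of fewer than `lam` families of size `< lam`. -/
theorem main {ι : Type} {lam : Cardinal.{0}} (h0 : ℵ₀ < lam)
    (hS : ∀ G : Set (Set ℕ), Cent G → #G < lam → ∃ T : Set (Set ℕ), Lin T ∧ Ref T G)
    (hι : #ι < lam) (F : ι → Set (Set ℕ)) (hF : ∀ k, #(F k) < lam)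
    (hc : Cent (⋃ k, F k)) : ∃ T : Set (Set ℕ), Lin T ∧ Ref T (⋃ k, F k) := by
  classical
  obtain ⟨θ, hθ, hSm⟩ := uniform lam h0 hS
  let W : Set (ι × Set (Set ℕ)) → Set (Set ℕ) := fun R => ⋃ p ∈ R, p.2
  let Z : Set (Set (ι × Set (Set ℕ))) := {R | (∀ p ∈ R, ∀ q ∈ R, p.1 = q.1 → p = q) ∧
    (∀ p ∈ R, Lin p.2 ∧ Ref p.2 (F p.1) ∧ #p.2 ≤ θ) ∧ Cent ((⋃ k, F k) ∪ W R)}
  have hWmem : ∀ (R : Set (ι × Set (Set ℕ))) (A : Set ℕ), A ∈ W R ↔ ∃ p ∈ R, A ∈ p.2 := by
    intro R A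
    simp only [W, mem_iUnion, exists_prop]
  have hWmono : ∀ R R' : Set (ι × Set (Set ℕ)), R ⊆ R' → W R ⊆ W R' := by
    intro R R' h A hA
    rw [hWmem] at hA ⊢
    obtain ⟨p, hp, hA⟩ := hA
    exact ⟨p, h hp, hA⟩
  have hempty : (∅ : Set (ι × Set (Set ℕ))) ∈ Z := by
    refine ⟨by simp, by simp, ?_⟩
    have : W ∅ = ∅ := by simp [W]
    rw [this, Set.union_empty]
    exact hc
  obtain ⟨R, hR⟩ := zorn_subset Z (by
    intro c hcZ hchain
    refine ⟨⋃₀ c, ⟨?_, ?_, ?_⟩, fun s hs => Set.subset_sUnion_of_mem hs⟩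
    · rintro p ⟨R1, hR1, hp⟩ q ⟨R2, hR2, hq⟩ hpq
      rcases hchain.total hR1 hR2 with h | h
      · exact (hcZ hR2).1 p (h hp) q hq hpq
      · exact (hcZ hR1).1 p hp q (h hq) hpq
    · rintro p ⟨R1, hR1, hp⟩
      exact (hcZ hR1).2.1 p hp
    · intro Ψ hΨ
      have claim : ∀ Ψ : Finset (Set ℕ), (↑Ψ : Set (Set ℕ)) ⊆ (⋃ k, F k) ∪ W (⋃₀ c) →
          ∃ R, (R = ∅ ∨ R ∈ c) ∧ (↑Ψ : Set (Set ℕ)) ⊆ (⋃ k, F k) ∪ W R := by
        intro Ψ
        induction Ψ using Finset.induction_on with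
        | empty => intro _; exact ⟨∅, Or.inl rfl, by simp⟩
        | insert A Ψ hA ih =>
          intro hsub
          rw [Finset.coe_insert, Set.insert_subset_iff] at hsub
          obtain ⟨R1, hR1, hR1s⟩ := ih hsub.2
          rcases hsub.1 with h | h
          · refine ⟨R1, hR1, ?_⟩
            rw [Finset.coe_insert, Set.insert_subset_iff]
            exact ⟨Or.inl h, hR1s⟩
          · rw [hWmem] at h
            obtain ⟨p, ⟨R2, hR2, hp⟩, hAp⟩ := h
            have hcomp : R1 ⊆ R2 ∨ R2 ⊆ R1 := by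
              rcases hR1 with rfl | hR1
              · exact Or.inl (Set.empty_subset _)
              · exact hchain.total hR1 hR2
            rcases hcomp with h | h
            · refine ⟨R2, Or.inr hR2, ?_⟩
              rw [Finset.coe_insert, Set.insert_subset_iff]
              refine ⟨Or.inr ((hWmem _ _).2 ⟨p, hp, hAp⟩), hR1s.trans ?_⟩
              exact Set.union_subset_union_right _ (hWmono _ _ h)
            · refine ⟨R1, hR1, ?_⟩
              rw [Finset.coe_insert, Set.insert_subset_iff]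
              exact ⟨Or.inr ((hWmem _ _).2 ⟨p, h hp, hAp⟩), hR1s⟩
      obtain ⟨R1, hR1, hR1s⟩ := claim Ψ hΨ
      rcases hR1 with rfl | hR1
      · exact hempty.2.2 Ψ hR1s
      · exact (hcZ hR1).2.2 Ψ hR1s)
  have hRZ : R ∈ Z := hR.prop
  have hWc : #(W R) < lam := by
    have h1 : W R = ⋃ p : R, (p : ι × Set (Set ℕ)).2 := by
      ext A
      rw [hWmem]
      simp
    rw [h1]
    refine lt_of_le_of_lt (Cardinal.mk_iUnion_le _) ?_
    have h2 : (⨆ p : R, #((p : ι × Set (Set ℕ)).2)) ≤ θ :=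
      ciSup_le' (fun p => (hRZ.2.1 p.1 p.2).2.2)
    refine lt_of_le_of_lt (mul_le_mul_right h2 _) ?_
    refine Cardinal.mul_lt_of_lt h0.le ?_ hθ
    refine lt_of_le_of_lt ?_ hι
    refine Cardinal.mk_le_of_injective (f := fun p : R => (p : ι × Set (Set ℕ)).1) ?_
    intro p q hpq
    exact Subtype.ext (hRZ.1 p.1 p.2 q.1 q.2 hpq)
  have hall : ∀ i : ι, ∃ X, (i, X) ∈ R := by
    intro i
    by_contra hcon
    push Not at hcon
    obtain ⟨S, hS1, hS2, hS3, hS4⟩ := ext h0 hθ hSm hι F hF (W R) hWc hRZ.2.2 i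
    have hR' : insert (i, S) R ∈ Z := by
      refine ⟨?_, ?_, ?_⟩
      · intro p hp q hq hpq
        rcases hp with rfl | hp <;> rcases hq with rfl | hq
        · rfl
        · exfalso
          apply hcon q.2
          simp only at hpq
          rw [hpq]
          exact hq
        · exfalso
          apply hcon p.2
          simp only at hpq
          rw [← hpq]
          exact hp
        · exact hRZ.1 p hp q hq hpq
      · intro p hp
        rcases hp with rfl | hp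
        · exact ⟨hS1, hS2, hS3⟩
        · exact hRZ.2.1 p hp
      · have : W (insert (i, S) R) = W R ∪ S := by
          ext A
          rw [hWmem, Set.mem_union, hWmem]
          constructor
          · rintro ⟨p, rfl | hp, hA⟩
            · exact Or.inr hA
            · exact Or.inl ⟨p, hp, hA⟩
          · rintro (⟨p, hp, hA⟩ | hA)
            · exact ⟨p, Or.inr hp, hA⟩
            · exact ⟨(i, S), Or.inl rfl, hA⟩
        rw [this, ← Set.union_assoc]
        exact hS4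
    have := hR.le_of_ge hR' (Set.subset_insert _ _)
    exact hcon S (this (Set.mem_insert _ _))
  obtain ⟨T, hT, hTR⟩ := hS (W R) (hRZ.2.2.mono Set.subset_union_right) hWc
  refine ⟨T, hT, ?_⟩
  intro A hA
  obtain ⟨i, hAi⟩ := mem_iUnion.1 hA
  obtain ⟨X, hX⟩ := hall i
  obtain ⟨B, hB, hBA⟩ := (hRZ.2.1 _ hX).2.1 A hAi
  obtain ⟨t, ht, htB⟩ := hTR B ((hWmem _ _).2 ⟨_, hX, hB⟩)
  exact ⟨t, ht, htB.trans hBA⟩

/-- If every centered family of size `< lam` has a linear refinement and some centered family of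
size `lam` has none, then `lam` is regular. -/
theorem regular_of {lam : Cardinal.{0}}
    (hS : ∀ G : Set (Set ℕ), Cent G → #G < lam → ∃ T : Set (Set ℕ), Lin T ∧ Ref T G)
    (F : Set (Set ℕ)) (hF : Cent F) (hFc : #F = lam)
    (hno : ¬ ∃ T : Set (Set ℕ), Lin T ∧ Ref T F) : lam.IsRegular := by
  classical
  have h0 : ℵ₀ < lam := by
    by_contra h
    apply hno
    rw [not_lt, ← hFc, Cardinal.le_aleph0_iff_set_countable] at h
    obtain ⟨B, hB, hBA⟩ := countable_pseudo hF h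
    exact ⟨{B}, ⟨by simpa using hB, by simp [AlmostLE.refl]⟩, fun A hA => ⟨B, rfl, hBA A hA⟩⟩
  by_contra hreg
  apply hno
  have hcof : lam.ord.cof < lam := by
    refine lt_of_le_of_ne (Ordinal.cof_ord_le lam) ?_
    intro h
    exact hreg ⟨h0.le, h.ge⟩
  have hα : #(lam.ord.ToType) = lam := by simp
  obtain ⟨s, hs, hsc⟩ := Order.exists_cof_eq (α := lam.ord.ToType)
  rw [Ordinal.cof_toType] at hsc
  have he : Nonempty (F ≃ lam.ord.ToType) := by
    rw [← Cardinal.eq, hα, hFc]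
  obtain ⟨e⟩ := he
  let Fk : s → Set (Set ℕ) := fun k => (fun a => ((e.symm a : F) : Set ℕ)) '' (Set.Iic (k : lam.ord.ToType))
  have hFk : ∀ k, #(Fk k) < lam := by
    intro k
    refine lt_of_le_of_lt Cardinal.mk_image_le ?_
    have := Cardinal.mk_Iic_lt (k : lam.ord.ToType) (by simp) (by rw [hα]; exact h0.le)
    rwa [hα] at this
  have hU : (⋃ k, Fk k) = F := by
    apply Set.Subset.antisymm
    · intro A hA
      obtain ⟨k, a, _, rfl⟩ := mem_iUnion.1 hA
      exact (e.symm a).2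
    · intro A hA
      obtain ⟨b, hb, hab⟩ := hs (e ⟨A, hA⟩)
      refine mem_iUnion.2 ⟨⟨b, hb⟩, e ⟨A, hA⟩, hab, ?_⟩
      simp
  have := main h0 hS (by rw [hsc]; exact hcof) Fk hFk (by rw [hU]; exact hF)
  rwa [hU] at this

end Pool.Agent.H829R3.LR
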