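import Mathlib
import Pool.Agent.H829R3.LR3

set_option autoImplicit false

/-!
# A centered family with no linear refinement
-/

open Set Cardinal

namespace Pool.Agent.H829R3.LR

/-- the basic sets of the Frechet tensor Frechet filter -/
def DD (f : ℕ → ℕ) (m : ℕ) : Set (ℕ × ℕ) := {p | m ≤ p.1 ∧ f p.1 ≤ p.2}

lemma cent_DD : Cent {D : Set (ℕ × ℕ) | ∃ f m, D = DD f m} := by
  classical
  have hbase : ∀ Φ : Finset (Set (ℕ × ℕ)), (↑Φ : Set (Set (ℕ × ℕ))) ⊆
      {D : Set (ℕ × ℕ) | ∃ f m, D = DD f m} → ∃ f m, DD f m ⊆ ⋂ D ∈ Φ, D := by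
    intro Φ
    induction Φ using Finset.induction_on with
    | empty => intro _; exact ⟨fun _ => 0, 0, by simp⟩
    | insert D Φ hD ih =>
      intro hΦ
      rw [Finset.coe_insert, Set.insert_subset_iff] at hΦ
      obtain ⟨f, m, hfm⟩ := ih hΦ.2
      obtain ⟨g, k, rfl⟩ := hΦ.1
      refine ⟨fun n => max (f n) (g n), max m k, ?_⟩
      rintro p ⟨hp1, hp2⟩
      have h1 : p ∈ DD f m := ⟨le_trans (le_max_left _ _) hp1, le_trans (le_max_left _ _) hp2⟩
      have h2 : p ∈ DD g k := ⟨le_trans (le_max_right _ _) hp1, le_trans (le_max_right _ _) hp2⟩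
      have h3 := hfm h1
      simp only [mem_iInter] at h3 ⊢
      intro E hE
      rcases Finset.mem_insert.1 hE with rfl | hE
      · exact h2
      · exact h3 E hE
  intro Φ hΦ
  obtain ⟨f, m, hfm⟩ := hbase Φ hΦ
  refine Set.Infinite.mono hfm ?_
  have h1 : (Set.Ici (f m)).Infinite := Set.infinite_of_forall_exists_gt
    (fun a => ⟨max (f m) (a + 1), Set.mem_Ici.2 (le_max_left _ _),
      lt_of_lt_of_le (Nat.lt_succ_self a) (le_max_right _ _)⟩)
  refine (h1.image (f := fun y => (m, y)) (fun a _ b _ h => (Prod.mk.inj h).2)).mono ?_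
  rintro _ ⟨y, hy, rfl⟩
  exact ⟨le_refl m, hy⟩

lemma no_ref_DD : ¬ ∃ T : Set (Set (ℕ × ℕ)), Lin T ∧ Ref T {D | ∃ f m, D = DD f m} := by
  classical
  rintro ⟨T, hT, hR⟩
  have hb : ∀ m : ℕ, ∃ B ∈ T, AlmostLE B (DD (fun _ => 0) m) := fun m => hR _ ⟨_, m, rfl⟩
  choose b hbT hbC using hb
  by_cases hcase : ∃ B ∈ T, ∀ m, AlmostLE B (DD (fun _ => 0) m)
  · obtain ⟨B, hB, hBm⟩ := hcase
    -- all columns of `B` are finite
    have hcol : ∀ n : ℕ, ∃ k, ∀ y, (n, y) ∈ B → y < k := by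
      intro n
      have h1 : ((Prod.snd) '' (B \ DD (fun _ => 0) (n + 1))).Finite := (hBm (n + 1)).image _
      obtain ⟨k, hk⟩ := h1.bddAbove
      refine ⟨k + 1, fun y hy => ?_⟩
      have : y ≤ k := hk ⟨(n, y), ⟨hy, fun h => by
        have := h.1
        simp only at this
        omega⟩, rfl⟩
      omega
    choose f hf using hcol
    have h2 := compat_one hT hR hB (D := DD f 0) ⟨f, 0, rfl⟩
    obtain ⟨p, hp1, hp2⟩ := h2.nonempty
    have h3 := hf p.1 p.2 hp1
    have h4 := hp2.2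
    omega
  · push Not at hcase
    have hco : ∀ B ∈ T, ∃ m, AlmostLE (b m) B := by
      intro B hB
      obtain ⟨m, hm⟩ := hcase B hB
      refine ⟨m, ?_⟩
      rcases hT.2 _ (hbT m) B hB with h | h
      · exact h
      · exact absurd (h.trans (hbC m)) hm
    -- each `b m` has elements in arbitrarily large columns
    let y : ℕ → ℕ → ℕ := fun m n => if h : ∃ k, (n, k) ∈ b m then h.choose else 0
    have hy : ∀ m n, (∃ k, (n, k) ∈ b m) → (n, y m n) ∈ b m := by
      intro m n h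
      simp only [y, dif_pos h]
      exact h.choose_spec
    let f : ℕ → ℕ := fun n => 1 + ∑ m ∈ Finset.range (n + 1), y m n
    have hf : ∀ m n, m ≤ n → y m n < f n := by
      intro m n hmn
      have : y m n ≤ ∑ m ∈ Finset.range (n + 1), y m n :=
        Finset.single_le_sum (f := fun m => y m n) (fun _ _ => Nat.zero_le _)
          (Finset.mem_range.2 (by omega))
      simp only [f]
      omega
    obtain ⟨B, hB, hBf⟩ := hR (DD f 0) ⟨f, 0, rfl⟩
    obtain ⟨m, hm⟩ := hco B hB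
    have hfin : (b m \ DD f 0).Finite := hm.trans hBf
    have hfin2 : (Prod.fst '' (b m \ DD f 0)).Finite := hfin.image _
    obtain ⟨N, hN⟩ := hfin2.bddAbove
    obtain ⟨p, hp1, hp2⟩ := (compat_one hT hR (hbT m)
      (D := DD (fun _ => 0) (max m (N + 1))) ⟨_, _, rfl⟩).nonempty
    have h1 : max m (N + 1) ≤ p.1 := hp2.1
    have h2 : (p.1, y m p.1) ∈ b m := hy m p.1 ⟨p.2, hp1⟩
    have h3 : (p.1, y m p.1) ∉ DD f 0 := by
      intro h
      have h4 : f p.1 ≤ y m p.1 := h.2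
      have h5 := hf m p.1 (le_trans (le_max_left _ _) h1)
      omega
    have h6 : p.1 ≤ N := hN ⟨_, ⟨h2, h3⟩, rfl⟩
    have h7 : N + 1 ≤ p.1 := le_trans (le_max_right _ _) h1
    omega

theorem exists_bad : ∃ F : Set (Set ℕ), Cent F ∧ ¬ ∃ T : Set (Set ℕ), Lin T ∧ Ref T F := by
  by_contra hcon
  push Not at hcon
  have h1 : Small ℕ (Order.succ #(Set (ℕ × ℕ))) (#(Set ℕ)) := by
    intro G hG _
    obtain ⟨T, hT, hR⟩ := hcon G hG
    exact ⟨T, hT, hR, Cardinal.mk_set_le T⟩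
  obtain ⟨T, hT, hR, _⟩ := h1.transfer (Denumerable.eqv (ℕ × ℕ)) _ cent_DD (by
    exact lt_of_le_of_lt (Cardinal.mk_set_le _) (Order.lt_succ _))
  exact no_ref_DD ⟨T, hT, hR⟩

end Pool.Agent.H829R3.LR
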